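import Pool.Agent.Run7.h323.CC.MovStm

/-!
# Sets of codimension at least two
-/

set_option autoImplicit false

namespace Run7.h323.CC

open Filter Topology Metric

variable {X : Type*} [NormedAddCommGroup X] [NormedSpace ℂ X]

/-- Zeros on a line persist. -/
theorem zero_persist {f : X → ℂ} {p w : X} {R : ℝ} (hf : ∀ q ∈ ball p R, AnalyticAt ℂ f q)
    (h0 : f p = 0) (hw : ‖w‖ < R) (hne : f (p + w) ≠ 0) {δ : ℝ} (hδ : 0 < δ) :
    ∀ᶠ p' in 𝓝 p, ∃ z : ℂ, ‖z‖ < δ ∧ f (p' + z • w) = 0 := by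
  have hR : 0 < R := (norm_nonneg w).trans_lt hw
  -- the restriction to the line
  have hmem : ∀ z : ℂ, ‖z‖ ≤ 1 → p + z • w ∈ ball p R := fun z hz => by
    rw [mem_ball, dist_eq_norm, add_sub_cancel_left, norm_smul]
    exact (mul_le_of_le_one_left (norm_nonneg w) hz).trans_lt hw
  have hga : ∀ q : X, AnalyticAt ℂ f q → ∀ (p' : X) (z : ℂ), p' + z • w = q →
      AnalyticAt ℂ (fun z : ℂ => f (p' + z • w)) z := by
    rintro q hq p' z rfl
    have h1 : AnalyticAt ℂ (fun z : ℂ => p' + z • w) z := by fun_prop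
    exact AnalyticAt.fun_comp hq h1
  have hg : AnalyticOnNhd ℂ (fun z : ℂ => f (p + z • w)) (closedBall 0 1) := fun z hz =>
    hga _ (hf _ (hmem z (by simpa using hz))) p z rfl
  have hnz : ∀ᶠ z in 𝓝[≠] (0 : ℂ), f (p + z • w) ≠ 0 := by
    rcases (hg 0 (by simp)).eventually_eq_zero_or_eventually_ne_zero with h | h
    · exfalso
      have h1 := hg.eqOn_zero_of_preconnected_of_eventuallyEq_zero
        (convex_closedBall (0 : ℂ) 1).isPreconnected (z₀ := 0) (by simp) h
      have h2 := h1 (x := 1) (by simp)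
      simp only [one_smul, Pi.zero_apply] at h2
      exact hne h2
    · exact h
  rw [eventually_nhdsWithin_iff, Metric.eventually_nhds_iff] at hnz
  obtain ⟨ρ, hρ, hnz⟩ := hnz
  set r : ℝ := min (min (ρ / 2) (δ / 2)) (1 / 2) with hr
  have hr0 : 0 < r := by positivity
  have hrρ : r < ρ := ((min_le_left _ _).trans (min_le_left _ _)).trans_lt (by linarith)
  have hrδ : r < δ := ((min_le_left _ _).trans (min_le_right _ _)).trans_lt (by linarith)
  have hr1 : r ≤ 1 := (min_le_right _ _).trans (by norm_num)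
  have hsph : ∀ z ∈ sphere (0 : ℂ) r, f (p + z • w) ≠ 0 := fun z hz => by
    have h1 : ‖z‖ = r := by simpa using hz
    refine hnz (y := z) (by rw [dist_eq_norm, sub_zero, h1]; exact hrρ) ?_
    intro h2
    rw [Set.mem_singleton_iff] at h2
    rw [h2, norm_zero] at h1
    linarith
  have hcomp : IsCompact (sphere (0 : ℂ) r) := isCompact_sphere 0 r
  have hcont : ContinuousOn (fun z : ℂ => ‖f (p + z • w)‖) (sphere 0 r) := by
    intro z hz
    have h1 : ‖z‖ = r := by simpa using hz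
    exact ((hg z (by simpa [h1] using hr1)).continuousAt.norm).continuousWithinAt
  obtain ⟨z₁, hz₁, hmin⟩ := hcomp.exists_isMinOn (NormedSpace.sphere_nonempty.2 hr0.le) hcont
  set m : ℝ := ‖f (p + z₁ • w)‖ with hm
  have hm0 : 0 < m := norm_pos_iff.2 (hsph z₁ hz₁)
  have hfp : ContinuousAt f p := (hf p (mem_ball_self hR)).continuousAt
  have e1 : ∀ᶠ p' in 𝓝 p, ‖f p'‖ < m / 2 := by
    have : Tendsto (fun q => ‖f q‖) (𝓝 p) (𝓝 ‖f p‖) := hfp.norm
    rw [h0, norm_zero] at this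
    exact this.eventually (gt_mem_nhds (by linarith))
  have e2 : ∀ᶠ p' in 𝓝 p, ∀ z ∈ sphere (0 : ℂ) r, m / 2 < ‖f (p' + z • w)‖ := by
    refine hcomp.eventually_forall_of_forall_eventually fun z hz => ?_
    have h1 : ‖z‖ = r := by simpa using hz
    have h2 : ContinuousAt (fun q : X × ℂ => ‖f (q.1 + q.2 • w)‖) (p, z) := by
      have h3 : ContinuousAt f ((p, z).1 + (p, z).2 • w) :=
        (hf _ (hmem z (by rw [h1]; exact hr1))).continuousAt
      have h4 : ContinuousAt (fun q : X × ℂ => q.1 + q.2 • w) (p, z) := by fun_prop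
      exact (ContinuousAt.comp (f := fun q : X × ℂ => q.1 + q.2 • w) (g := f) h3 h4).norm
    have h5 : m / 2 < ‖f ((p, z).1 + (p, z).2 • w)‖ := by
      have h6 : m ≤ ‖f (p + z • w)‖ := hmin hz
      change m / 2 < ‖f (p + z • w)‖
      linarith
    exact h2.eventually (lt_mem_nhds h5)
  have e3 : ∀ᶠ p' in 𝓝 p, ‖p' - p‖ < R - ‖w‖ := by
    have h1 : Tendsto (fun q => ‖q - p‖) (𝓝 p) (𝓝 ‖p - p‖) := by
      have : Continuous fun q : X => ‖q - p‖ := by fun_prop
      exact this.tendsto p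
    rw [sub_self, norm_zero] at h1
    exact h1.eventually (gt_mem_nhds (by linarith))
  filter_upwards [e1, e2, e3] with p' h1 h2 h3
  by_contra hcon
  push Not at hcon
  have hb : ∀ z : ℂ, ‖z‖ ≤ r → p' + z • w ∈ ball p R := fun z hz => by
    rw [mem_ball, dist_eq_norm]
    have h4 : p' + z • w - p = (p' - p) + z • w := by abel
    rw [h4]
    refine (norm_add_le _ _).trans_lt ?_
    rw [norm_smul]
    have h5 : ‖z‖ * ‖w‖ ≤ ‖w‖ := mul_le_of_le_one_left (norm_nonneg w) (hz.trans hr1)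
    linarith
  have hd : DiffContOnCl ℂ (fun z : ℂ => (f (p' + z • w))⁻¹) (ball 0 r) := by
    refine DifferentiableOn.diffContOnCl ?_
    rw [closure_ball _ hr0.ne']
    intro z hz
    have h4 : ‖z‖ ≤ r := by simpa using hz
    exact ((hga _ (hf _ (hb z h4)) p' z rfl).differentiableAt.inv
      (hcon z (h4.trans_lt hrδ))).differentiableWithinAt
  have h5 := Complex.norm_le_of_forall_mem_frontier_norm_le isBounded_ball hd
    (C := 2 / m) (fun z hz => by
      rw [frontier_ball _ hr0.ne'] at hz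
      have h6 := h2 z hz
      rw [norm_inv]
      rw [inv_le_comm₀ (by linarith) (by positivity), inv_div]
      exact h6.le) (z := 0) (subset_closure (mem_ball_self hr0))
  simp only [zero_smul, add_zero] at h5
  have h6 : f p' ≠ 0 := by
    have := hcon 0 (by simpa using hδ)
    rwa [zero_smul, add_zero] at this
  rw [norm_inv, inv_le_comm₀ (norm_pos_iff.2 h6) (by positivity), inv_div] at h5
  linarith

variable {V : Type*} [NormedAddCommGroup V] [NormedSpace ℂ V] {ι : Type*} [Fintype ι]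

/-- An affine function which is not constant vanishes at most once. -/
theorem affine_ne {a b : ℂ} (hb : b ≠ 0) : ∀ᶠ ε in 𝓝[≠] (0 : ℂ), a + ε * b ≠ 0 := by
  by_cases ha : a = 0
  · filter_upwards [self_mem_nhdsWithin] with ε hε
    rw [ha, zero_add]
    exact mul_ne_zero hε hb
  · refine eventually_nhdsWithin_of_eventually_nhds ?_
    have h1 : ContinuousAt (fun ε : ℂ => a + ε * b) 0 := by fun_prop
    refine h1.eventually_ne ?_
    rw [zero_mul, add_zero]
    exact ha

/-- The set of the points with at least two vanishing coordinates has codimension two. -/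
theorem codim_two {B : Set (V × (ι → ℂ))}
    (hB : ∀ q ∈ B, ∃ k l, k ≠ l ∧ q.2 k = 0 ∧ q.2 l = 0) (p : V × (ι → ℂ))
    (f : V × (ι → ℂ) → ℂ) (hf : AnalyticAt ℂ f p) (h0 : f p = 0) (hne : ∃ᶠ q in 𝓝 p, f q ≠ 0) :
    ∃ᶠ q in 𝓝 p, f q = 0 ∧ q ∉ B := by
  classical
  intro hcon
  obtain ⟨R, hR, hball⟩ := Metric.eventually_nhds_iff_ball.1 (hcon.and hf.eventually_analyticAt)
  -- a good direction
  obtain ⟨q, hq1, hq2⟩ : ∃ q ∈ ball p R, f q ≠ 0 := by
    have := hne.and_eventually (ball_mem_nhds p hR)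
    obtain ⟨q, h1, h2⟩ := this.exists
    exact ⟨q, h2, h1⟩
  obtain ⟨w, hw1, hw2, hw3⟩ : ∃ w : V × (ι → ℂ), ‖w‖ < R ∧ f (p + w) ≠ 0 ∧ ∀ k, w.2 k ≠ 0 := by
    have h1 : ∀ᶠ ε : ℂ in 𝓝[≠] 0, ∀ k : ι, (q - p).2 k + ε * 1 ≠ 0 :=
      eventually_all.2 fun k => affine_ne one_ne_zero
    have h2 : Tendsto (fun ε : ℂ => q + ε • ((0, fun _ => 1) : V × (ι → ℂ))) (𝓝 0) (𝓝 q) := by
      have : Continuous fun ε : ℂ => q + ε • ((0, fun _ => 1) : V × (ι → ℂ)) := by fun_prop
      have h3 := this.tendsto 0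
      rwa [zero_smul, add_zero] at h3
    have h3 : ∀ᶠ ε : ℂ in 𝓝 0, q + ε • ((0, fun _ => 1) : V × (ι → ℂ)) ∈ ball p R :=
      h2.eventually (isOpen_ball.mem_nhds hq1)
    have h4 : ∀ᶠ ε : ℂ in 𝓝 0, f (q + ε • ((0, fun _ => 1) : V × (ι → ℂ))) ≠ 0 :=
      h2.eventually ((hball q hq1).2.continuousAt.eventually_ne hq2)
    obtain ⟨ε, h5, h6, h7⟩ := ((h1.and ((eventually_nhdsWithin_of_eventually_nhds h3).and
      (eventually_nhdsWithin_of_eventually_nhds h4)))).exists
    refine ⟨q + ε • ((0, fun _ => 1) : V × (ι → ℂ)) - p, ?_, ?_, fun k => ?_⟩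
    · rwa [← dist_eq_norm]
    · rwa [add_sub_cancel]
    · have h8 := h5 k
      have h9 : (q + ε • ((0, fun _ => 1) : V × (ι → ℂ)) - p).2 k = (q - p).2 k + ε * 1 := by
        simp only [Prod.snd_sub, Prod.snd_add, Prod.smul_snd, Pi.sub_apply, Pi.add_apply,
          Pi.smul_apply, smul_eq_mul]
        ring
      rwa [h9]
  have hpers := zero_persist (fun q hq => (hball q hq).2) h0 hw1 hw2 (δ := 1 / 2) (by norm_num)
  -- a good line
  let e := Fintype.equivFin ι
  let a : ι → ℂ := fun k => ((e k : ℕ) : ℂ) * w.2 k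
  have h1 : ∀ᶠ ε : ℂ in 𝓝[≠] 0, ∀ k l : ι, k ≠ l →
      (p.2 k * w.2 l - p.2 l * w.2 k) + ε * (a k * w.2 l - a l * w.2 k) ≠ 0 := by
    refine eventually_all.2 fun k => eventually_all.2 fun l => ?_
    by_cases hkl : k = l
    · exact Eventually.of_forall fun ε h => absurd hkl h
    · have h2 : a k * w.2 l - a l * w.2 k ≠ 0 := by
        have h3 : a k * w.2 l - a l * w.2 k = (((e k : ℕ) : ℂ) - ((e l : ℕ) : ℂ)) *
            (w.2 k * w.2 l) := by
          simp only [a]
          ring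
        rw [h3]
        refine mul_ne_zero (sub_ne_zero.2 fun h4 => hkl ?_) (mul_ne_zero (hw3 k) (hw3 l))
        have h5 : (e k : ℕ) = (e l : ℕ) := by exact_mod_cast h4
        exact e.injective (Fin.ext h5)
      filter_upwards [affine_ne (a := p.2 k * w.2 l - p.2 l * w.2 k) h2] with ε hε _
      exact hε
  have h2 : Tendsto (fun ε : ℂ => p + ε • ((0, a) : V × (ι → ℂ))) (𝓝 0) (𝓝 p) := by
    have : Continuous fun ε : ℂ => p + ε • ((0, a) : V × (ι → ℂ)) := by fun_prop
    have h3 := this.tendsto 0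
    rwa [zero_smul, add_zero] at h3
  have h3 := h2.eventually hpers
  have h4 := h2.eventually (ball_mem_nhds p (half_pos hR))
  obtain ⟨ε, h5, ⟨z, hz1, hz2⟩, h7⟩ := ((h1.and ((eventually_nhdsWithin_of_eventually_nhds h3).and
    (eventually_nhdsWithin_of_eventually_nhds h4)))).exists
  set p' : V × (ι → ℂ) := p + ε • ((0, a) : V × (ι → ℂ)) with hp'
  have hmem : p' + z • w ∈ ball p R := by
    rw [mem_ball, dist_eq_norm]
    have h8 : p' + z • w - p = (p' - p) + z • w := by abel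
    rw [h8]
    refine (norm_add_le _ _).trans_lt ?_
    rw [dist_eq_norm] at h7
    rw [norm_smul]
    have h9 : ‖z‖ * ‖w‖ ≤ 1 / 2 * R := mul_le_mul hz1.le hw1.le (norm_nonneg _) (by norm_num)
    linarith
  have hbad := (hball _ hmem).1
  have hinB : p' + z • w ∈ B := by
    by_contra h
    exact hbad ⟨hz2, h⟩
  obtain ⟨k, l, hkl, hk, hl⟩ := hB _ hinB
  apply h5 k l hkl
  have e1 : (p' + z • w).2 k = p.2 k + ε * a k + z * w.2 k := rfl
  have e2 : (p' + z • w).2 l = p.2 l + ε * a l + z * w.2 l := rfl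
  rw [e1] at hk
  rw [e2] at hl
  linear_combination w.2 l * hk - w.2 k * hl

end Run7.h323.CC
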