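import Pool.Agent.Run7.h323.CC.YAmp
import Pool.Agent.Q47.EB.Amp
import Pool.Agent.Run7.h323.CC.Hyp

/-!
# Rational approximation of decompositions, and global sections
-/

set_option autoImplicit false
set_option linter.unusedSectionVars false

namespace Run7.h323.CC

open Pool.Agent.W594.SYZ2 Pool.Agent.TH735.AQ Q47.TB Run7.h323.TQ MvPolynomial
open Pool.Agent.Y167 (AffGrp)

variable {ι : Type*} [Fintype ι] {n : ℕ} {u : ι → Fin n → ℤ} {S : Set (Set ι)}

/-- Integral approximations of the multiples of a representative. -/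
theorem rat_approx {σ : Set ι} {b : Fin n → ι → ℤ} (hb : IsDual u σ b) {d : ι → ℤ} {β : ι → ℝ}
    (hβ0 : ∀ i, 0 ≤ β i) (hβσ : ∀ i, i ∉ σ → 1 ≤ β i)
    (hcl : cl u (fun i => (d i : ℝ)) = cl u β) :
    ∃ K : ℝ, 0 ≤ K ∧ ∀ M : ℕ, K ≤ M → ∃ γ : ι → ℕ, (∀ i ∈ σ, β i = 0 → γ i = 0) ∧
      LinEquiv u (fun i => (γ i : ℤ)) (fun i => M * d i) ∧ ∀ i, |(γ i : ℝ) - M * β i| ≤ K := by
  classical
  set K : ℝ := 1 + ∑ i, ∑ k, (∑ l, |(b k l : ℝ)|) * |(u i k : ℝ)| with hK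
  have hK0 : ∀ i, ∑ k, (∑ l, |(b k l : ℝ)|) * |(u i k : ℝ)| ≤ K := fun i => by
    have h1 : ∑ k, (∑ l, |(b k l : ℝ)|) * |(u i k : ℝ)| ≤
        ∑ i, ∑ k, (∑ l, |(b k l : ℝ)|) * |(u i k : ℝ)| :=
      Finset.single_le_sum (f := fun i => ∑ k, (∑ l, |(b k l : ℝ)|) * |(u i k : ℝ)|)
        (fun i _ => Finset.sum_nonneg fun k _ => by positivity) (Finset.mem_univ i)
    linarith
  have hKn : 0 ≤ K := by positivity
  refine ⟨K, hKn, fun M hM => ?_⟩
  obtain ⟨q, hq⟩ := cl_eq_cl.1 hcl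
  let t : ι → ℤ := fun l => ⌈(M : ℝ) * β l⌉
  let e : ι → ℝ := fun l => t l - M * β l
  have he0 : ∀ l, 0 ≤ e l := fun l => sub_nonneg.2 (Int.le_ceil _)
  have he1 : ∀ l, e l ≤ 1 := fun l => by
    have := Int.ceil_lt_add_one ((M : ℝ) * β l)
    change (⌈(M : ℝ) * β l⌉ : ℝ) - M * β l ≤ 1
    linarith
  let γ : ι → ℤ := fun i => M * d i + ∑ k, (∑ l, b k l * (t l - M * d l)) * u i k
  have hγ : ∀ i, (γ i : ℝ) - M * β i = ∑ k, (∑ l, (b k l : ℝ) * e l) * u i k := by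
    intro i
    have h1 : ∀ k, ∑ l, (b k l : ℝ) * ((d l : ℝ) - β l) = q k := fun k => by
      rw [← hb.principal q k]
      exact Finset.sum_congr rfl fun l _ => by rw [hq]
    have h2 : ∀ k, (∑ l, (b k l : ℝ) * e l) = (∑ l, (b k l : ℝ) * (t l - M * d l)) + M * q k := by
      intro k
      rw [← h1 k, Finset.mul_sum, ← Finset.sum_add_distrib]
      exact Finset.sum_congr rfl fun l _ => by
        simp only [e]
        ring
    simp only [γ]
    push_cast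
    simp only [h2, add_mul, Finset.sum_add_distrib]
    have h3 : ∑ k, M * q k * (u i k : ℝ) = M * (d i - β i) := by
      rw [hq i, Finset.mul_sum]
      exact Finset.sum_congr rfl fun k _ => by ring
    rw [h3]
    ring
  have hγσ : ∀ i ∈ σ, (γ i : ℝ) = t i := by
    intro i hi
    have h1 := resL_zero hb e hi
    rw [resL_apply] at h1
    have h2 := hγ i
    have h3 : e i = t i - M * β i := rfl
    linarith
  have habs : ∀ i, |(γ i : ℝ) - M * β i| ≤ K := by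
    intro i
    rw [hγ]
    refine (Finset.abs_sum_le_sum_abs _ _).trans ((Finset.sum_le_sum fun k _ => ?_).trans (hK0 i))
    rw [abs_mul]
    refine mul_le_mul_of_nonneg_right ?_ (abs_nonneg _)
    refine (Finset.abs_sum_le_sum_abs _ _).trans (Finset.sum_le_sum fun l _ => ?_)
    rw [abs_mul, abs_of_nonneg (he0 l)]
    exact mul_le_of_le_one_right (abs_nonneg _) (he1 l)
  have hγ0 : ∀ i, 0 ≤ γ i := by
    intro i
    by_cases hi : i ∈ σ
    · have h1 := hγσ i hi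
      have h2 : (0 : ℤ) ≤ t i := Int.ceil_nonneg (mul_nonneg (Nat.cast_nonneg _) (hβ0 i))
      have h3 : γ i = t i := by exact_mod_cast h1
      rw [h3]
      exact h2
    · have h1 := habs i
      have h2 := hβσ i hi
      have h3 : (M : ℝ) * 1 ≤ M * β i := mul_le_mul_of_nonneg_left h2 (Nat.cast_nonneg _)
      have h4 := (abs_le.1 h1).1
      have h5 : (0 : ℝ) ≤ γ i := by linarith
      exact_mod_cast h5
  have hγc : ∀ i, (((γ i).toNat : ℕ) : ℤ) = γ i := fun i => Int.toNat_of_nonneg (hγ0 i)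
  refine ⟨fun i => (γ i).toNat, fun i hi h0 => ?_, ⟨fun k => ∑ l, b k l * (t l - M * d l),
    fun i => ?_⟩, fun i => ?_⟩
  · have h1 := hγσ i hi
    have h2 : t i = 0 := by simp only [t, h0, mul_zero, Int.ceil_zero]
    have h3 : γ i = t i := by exact_mod_cast h1
    change (γ i).toNat = 0
    rw [h3, h2]
    rfl
  · exact hγc i
  · have h1 : (((γ i).toNat : ℕ) : ℝ) = (γ i : ℝ) := by exact_mod_cast hγc i
    rw [h1]
    exact habs i

variable {V : Type*} [NormedAddCommGroup V] [NormedSpace ℂ V] {Γ : AffGrp V}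
  {c : ι → LineBundle Γ} {Hc : ι → V → V → ℂ}

theorem chern_pow' {L : LineBundle Γ} {H : V → V → ℂ} (hL : IsChernForm L H) (M : ℕ) :
    IsChernForm (L.pow M) fun v w => (M : ℂ) * H v w := by
  obtain ⟨hH, F, hF, hFe⟩ := hL
  refine ⟨⟨fun u v w => ?_, fun a v w => ?_, fun v w => ?_⟩, fun v => M * F v, hF.const_mul _,
    fun γ v => ?_⟩
  · rw [hH.add_left, mul_add]
  · rw [hH.smul_left]
    ring
  · rw [map_mul, Complex.conj_natCast, ← hH.symm]
  · change ‖L.e γ v ^ M‖ ^ 2 = _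
    have h1 : ‖L.e γ v ^ M‖ ^ 2 = (‖L.e γ v‖ ^ 2) ^ M := by
      rw [norm_pow, ← pow_mul, ← pow_mul, mul_comm]
    rw [h1, hFe, ← Real.exp_nat_mul]
    congr 1
    have h2 : ∀ z : ℂ, ((M : ℂ) * z).re = M * z.re := fun z => by
      have e1 : ((M : ℕ) : ℂ) = ((M : ℝ) : ℂ) := by push_cast; rfl
      rw [e1, Complex.re_ofReal_mul]
    simp only [h2]
    ring

/-- The data for the monomial sections. -/
structure Dat (u : ι → Fin n → ℤ) (S : Set (Set ι)) (Hc : ι → V → V → ℂ) (d : ι → ℤ)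
    (H : V → V → ℂ) (τ : Set ι) (σ : Set ι) (β : ι → ℝ) (H₀ : V → V → ℂ) : Prop where
  max : IsMax S σ
  sub : τ ⊆ σ
  nonneg : ∀ i, 0 ≤ β i
  zero : ∀ i ∈ τ, β i = 0
  one : ∀ i, i ∉ σ → 1 ≤ β i
  cl_eq : cl u (fun i => (d i : ℝ)) = cl u β
  pos : IsPositiveForm H₀
  dom : ∀ i, ∃ C : ℝ, 0 ≤ C ∧ ∀ v, |(Hc i v v).re| ≤ C * (H₀ v v).re
  le : ∀ v, (H₀ v v).re ≤ (H v v - ∑ i, (β i : ℂ) * Hc i v v).re

theorem Dat.exists_mul (hS : IsSmoothFan u S) {d : ι → ℤ} {H : V → V → ℂ} {τ σ : Set ι}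
    {β : ι → ℝ} {H₀ : V → V → ℂ} (D : Dat u S Hc d H τ σ β H₀) : ∃ K : ℕ, ∀ M : ℕ, K ≤ M →
      ∃ γ : ι → ℕ, (∀ i ∈ τ, γ i = 0) ∧ LinEquiv u (fun i => (γ i : ℤ)) (fun i => M * d i) ∧
        IsPositiveForm fun v w => (M : ℂ) * H v w - ∑ i, (γ i : ℂ) * Hc i v w := by
  obtain ⟨b, hb⟩ := exists_dual hS D.max
  obtain ⟨K, hK, hKM⟩ := rat_approx hb D.nonneg D.one D.cl_eq
  choose C hC0 hC using D.dom
  obtain ⟨K', hK'⟩ := exists_nat_gt (K + K * ∑ i, C i)
  have hC1 : 0 ≤ ∑ i, C i := Finset.sum_nonneg fun i _ => hC0 i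
  refine ⟨K', fun M hM => ?_⟩
  have hMr : (K' : ℝ) ≤ M := by exact_mod_cast hM
  have hKC : 0 ≤ K * ∑ i, C i := mul_nonneg hK hC1
  obtain ⟨γ, h1, h2, h3⟩ := hKM M (by linarith)
  refine ⟨γ, fun i hi => h1 i (D.sub hi) (D.zero i hi), h2, fun v hv => ?_⟩
  have h4 := D.le v
  have h5 := D.pos v hv
  have e1 : ∀ z : ℂ, ((M : ℂ) * z).re = M * z.re := fun z => by
    have e1 : ((M : ℕ) : ℂ) = ((M : ℝ) : ℂ) := by push_cast; rfl
    rw [e1, Complex.re_ofReal_mul]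
  have e2 : ∀ (k : ℕ) (z : ℂ), ((k : ℂ) * z).re = k * z.re := fun k z => by
    have e1 : ((k : ℕ) : ℂ) = ((k : ℝ) : ℂ) := by push_cast; rfl
    rw [e1, Complex.re_ofReal_mul]
  rw [Complex.sub_re, Complex.re_sum] at h4
  simp only [Complex.re_ofReal_mul] at h4
  change 0 < ((M : ℂ) * H v v - ∑ i, (γ i : ℂ) * Hc i v v).re
  rw [Complex.sub_re, Complex.re_sum, e1]
  simp only [e2]
  have h6 : ∑ i, (γ i : ℝ) * (Hc i v v).re ≤ M * ∑ i, β i * (Hc i v v).re +
      K * (∑ i, C i) * (H₀ v v).re := by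
    rw [Finset.mul_sum, Finset.mul_sum, Finset.sum_mul, ← Finset.sum_add_distrib]
    refine Finset.sum_le_sum fun i _ => ?_
    have h7 : ((γ i : ℝ) - M * β i) * (Hc i v v).re ≤ K * (C i * (H₀ v v).re) := by
      refine (le_abs_self _).trans ?_
      rw [abs_mul]
      exact mul_le_mul (h3 i) (hC i v) (abs_nonneg _) hK
    linarith
  have h8 : (M : ℝ) * (H₀ v v).re ≤ M * ((H v v).re - ∑ i, β i * (Hc i v v).re) :=
    mul_le_mul_of_nonneg_left h4 (Nat.cast_nonneg _)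
  have h9 : K * (∑ i, C i) * (H₀ v v).re < M * (H₀ v v).re :=
    mul_lt_mul_of_pos_right (by linarith) h5
  linarith

/-- Multiples of the line bundles with the data for all sets with at most one element are movable. -/
theorem movable_of [FiniteDimensional ℂ V] (hS : IsSmoothFan u S) (hΓ : IsTorusQuotient Γ)
    (hc : ∀ i, IsChernForm (c i) (Hc i)) {d : ι → ℤ} {L : LineBundle Γ} {H : V → V → ℂ}
    (hL : IsChernForm L H)
    (hD : ∀ τ : Set ι, τ.Subsingleton → ∃ σ β H₀, Dat u S Hc d H τ σ β H₀) :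
    ∃ m : ℕ, 0 < m ∧ CodimTwo (Cox V S) (baseLocus u c (fun i => m * d i) (L.pow m)) := by
  classical
  have h1 : ∀ τ : Set ι, τ.Subsingleton → ∃ K : ℕ, ∀ M : ℕ, K ≤ M →
      ∃ γ : ι → ℕ, (∀ i ∈ τ, γ i = 0) ∧ LinEquiv u (fun i => (γ i : ℤ)) (fun i => M * d i) ∧
        IsPositiveForm fun v w => (M : ℂ) * H v w - ∑ i, (γ i : ℂ) * Hc i v w := by
    intro τ hτ
    obtain ⟨σ, β, H₀, D⟩ := hD τ hτ
    exact D.exists_mul hS
  choose! K hK using h1
  let M : ℕ := 1 + ∑ τ : Set ι, K τ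
  have hM : ∀ τ : Set ι, K τ ≤ M := fun τ => by
    have := Finset.single_le_sum (f := K) (fun τ _ => Nat.zero_le _) (Finset.mem_univ τ)
    omega
  have hM0 : 0 < M := by omega
  have := Pool.Agent.W594.SYZ2.TQ.finite_Lin hΓ
  set N : ℕ := 4 * Nat.card (Pool.Agent.W594.SYZ2.TQ.Lin Γ) with hN
  have hN0 : 0 < N := by
    have : 0 < Nat.card (Pool.Agent.W594.SYZ2.TQ.Lin Γ) := Nat.card_pos
    omega
  have hB : ∀ q ∈ baseLocus u c (fun i => ((M * N : ℕ) : ℤ) * d i) (L.pow (M * N)),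
      ∃ k l, k ≠ l ∧ q.2 k = 0 ∧ q.2 l = 0 := by
    intro q hq
    by_contra hcon
    push Not at hcon
    have hτ : {i | q.2 i = 0}.Subsingleton := by
      intro k hk l hl
      by_contra hkl
      exact hcon k l hkl hk hl
    obtain ⟨γ, g1, g2, g3⟩ := hK _ hτ M (hM _)
    have hch := chern_tw (chern_pow' hL M) hc 1 γ
    have hpos : IsPositiveForm fun v w => ((1 : ℕ) : ℂ) * ((M : ℂ) * H v w -
        ∑ i, (γ i : ℂ) * Hc i v w) := by
      intro v hv
      have := g3 v hv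
      simpa using this
    obtain ⟨s, hs, hsq⟩ := Q47.EB.ample_gg hΓ hch hpos q.1
    have hsec := isSection_monomial g2 hs
    have h2 := hq (fun v => monomial (Finsupp.equivFunOnFinite.symm fun i => 1 * N * γ i) (s v)) (by
      have e1 : (fun i => ((1 * N : ℕ) : ℤ) * ((M : ℤ) * d i)) =
          fun i => ((M * N : ℕ) : ℤ) * d i := by
        funext i
        push_cast
        ring
      have e2 : (fun (γ : Γ) (v : V) => (L.pow M).e γ v ^ (1 * N)) = (L.pow (M * N)).e := by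
        funext γ v
        change (L.e γ v ^ M) ^ (1 * N) = L.e γ v ^ (M * N)
        rw [one_mul]
        exact (pow_mul _ _ _).symm
      rw [← e1, ← e2]
      exact hsec)
    rw [eval_monomial] at h2
    rcases mul_eq_zero.1 h2 with h3 | h3
    · exact hsq h3
    · rw [Finsupp.prod, Finset.prod_eq_zero_iff] at h3
      obtain ⟨i, hi, h4⟩ := h3
      have h5 : q.2 i = 0 := eq_zero_of_pow_eq_zero h4
      have h6 := g1 i h5
      rw [Finsupp.mem_support_iff] at hi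
      apply hi
      simp [Finsupp.equivFunOnFinite, h6]
  refine ⟨M * N, Nat.mul_pos hM0 hN0, ⟨(0, fun _ => 1), ?_, fun h => ?_⟩, fun p _ f hf h0 hne =>
    codim_two hB p f hf h0 hne⟩
  · change {i : ι | (1 : ℂ) = 0} ∈ S
    have h2 : {i : ι | (1 : ℂ) = 0} = ∅ := by
      ext i
      simp
    rw [h2]
    exact hS.empty_mem
  · obtain ⟨k, l, -, h2, -⟩ := hB _ h
    exact one_ne_zero h2

end Run7.h323.CC
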