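import Pool.Agent.Run7.h323.CC.YCore

/-!
# Closedness of the cones, and lattices commensurable with the lattice of integral classes
-/

set_option autoImplicit false
set_option linter.unusedSectionVars false

namespace Run7.h323.CC

open Filter Topology
open Pool.Agent.Y167 (cone cone_image cone_add cone_smul zero_mem_cone mem_cone_self cone_le
  cone_mono mem_cone_of_sum cone_sum cone_ind Cp cone_of_scaled CData)

section gen

variable {W : Type*} [AddCommGroup W] [Module ℝ W] [FiniteDimensional ℝ W]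
  {L : AddSubgroup W} {Nf : Set W} {y₀ : W}

theorem sum_mem_of {κ : Type*} (s : Finset κ) {f : κ → W}
    (add : ∀ x ∈ Nf, ∀ y ∈ Nf, x + y ∈ Nf) (zero : (0 : W) ∈ Nf) (hf : ∀ k ∈ s, f k ∈ Nf) :
    ∑ k ∈ s, f k ∈ Nf := by
  classical
  induction s using Finset.induction_on with
  | empty => simpa using zero
  | insert a s ha ih =>
    rw [Finset.sum_insert ha]
    exact add _ (hf a (Finset.mem_insert_self a s)) _
      (ih fun k hk => hf k (Finset.mem_insert_of_mem hk))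

/-- Interior points are in the rational hull. -/
theorem mem_Cp_of_int (hspan : Submodule.span ℝ (L : Set W) = ⊤)
    (add : ∀ x ∈ Nf, ∀ y ∈ Nf, x + y ∈ Nf) (smul : ∀ t : ℝ, 0 ≤ t → ∀ x ∈ Nf, t • x ∈ Nf)
    (y_L : y₀ ∈ L) (y_N : y₀ ∈ Nf) (y_int : ∀ x : W, ∃ C : ℝ, 0 < C ∧ C • y₀ - x ∈ Nf)
    {x : W} {t : ℝ} (ht : 0 < t) (hx : x - t • y₀ ∈ Nf) : x ∈ Cp L Nf := by
  classical
  obtain ⟨b, hbL, hbspan, hbli⟩ := exists_linearIndependent ℝ (L : Set W)
  have hbfin : Finite b := hbli.setFinite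
  have := Fintype.ofFinite b
  let e : Module.Basis b ℝ W := Module.Basis.mk hbli (by
    rw [Subtype.range_coe, hbspan, hspan])
  have he : ∀ i : b, e i = (i : W) := fun i => by simp [e]
  have zero : (0 : W) ∈ Nf := by
    have := smul 0 le_rfl _ y_N
    rwa [zero_smul] at this
  have hC1 : ∀ z : W, ∃ n : ℕ, ∀ m : ℝ, (n : ℝ) ≤ m → m • y₀ - z ∈ Nf := by
    intro z
    obtain ⟨C, -, h1⟩ := y_int z
    refine ⟨⌈C⌉₊, fun m hm => ?_⟩
    have h2 := add _ h1 _ (smul (m - C) (sub_nonneg.2 ((Nat.le_ceil C).trans hm)) _ y_N)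
    have h3 : C • y₀ - z + (m - C) • y₀ = m • y₀ - z := by module
    rwa [h3] at h2
  choose n₁ hn₁ using hC1
  obtain ⟨C, hC⟩ : ∃ C : ℕ, ∀ i : b, n₁ (i : W) ≤ C ∧ n₁ (-(i : W)) ≤ C := by
    refine ⟨∑ i : b, (n₁ (i : W) + n₁ (-(i : W))), fun i => ?_⟩
    have h1 : n₁ (i : W) + n₁ (-(i : W)) ≤ ∑ i : b, (n₁ (i : W) + n₁ (-(i : W))) :=
      Finset.single_le_sum (f := fun i : b => n₁ (i : W) + n₁ (-(i : W)))
        (fun i _ => Nat.zero_le _) (Finset.mem_univ i)
    omega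
  have hCm : ∀ i : b, (C : ℝ) • y₀ - (i : W) ∈ Nf := fun i =>
    hn₁ _ _ (by exact_mod_cast (hC i).1)
  have hCp : ∀ i : b, (i : W) + (C : ℝ) • y₀ ∈ Nf := fun i => by
    have h1 := hn₁ (-(i : W)) C (by exact_mod_cast (hC i).2)
    have h2 : (C : ℝ) • y₀ - -(i : W) = (i : W) + (C : ℝ) • y₀ := by module
    rwa [h2] at h1
  let r : b → ℝ := fun i => e.repr x i
  have hr : x = ∑ i, r i • (i : W) := by
    conv_lhs => rw [← e.sum_repr x]
    exact Finset.sum_congr rfl fun i _ => by rw [he]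
  let m : ℕ := Fintype.card b
  obtain ⟨N, hN⟩ := exists_nat_gt ((2 * C * m + 1) / t)
  have hN1 : 2 * C * m + 1 < N * t := by rwa [div_lt_iff₀ ht] at hN
  have hNr : (0 : ℝ) < N := by
    by_contra hcon
    push Not at hcon
    have h0 : (0 : ℝ) ≤ 2 * C * m := by positivity
    nlinarith
  let θ : b → ℝ := fun i => N * r i - ⌊(N : ℝ) * r i⌋
  have hθ0 : ∀ i, 0 ≤ θ i := fun i => sub_nonneg.2 (Int.floor_le _)
  have hθ1 : ∀ i, θ i ≤ 1 := fun i => by
    have := Int.lt_floor_add_one ((N : ℝ) * r i)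
    change (N : ℝ) * r i - ⌊(N : ℝ) * r i⌋ ≤ 1
    linarith
  have hθs : ∑ i, θ i ≤ m := by
    calc ∑ i, θ i ≤ ∑ _i : b, (1 : ℝ) := Finset.sum_le_sum fun i _ => hθ1 i
      _ = m := by simp [m]
  let z : W := ∑ i : b, (⌊(N : ℝ) * r i⌋ : ℝ) • (i : W) - ((C * m : ℕ) : ℝ) • y₀
  have hzL : z ∈ L := by
    refine L.sub_mem (L.sum_mem fun i _ => ?_) ?_
    · rw [Int.cast_smul_eq_zsmul]
      exact L.zsmul_mem (hbL i.2) _
    · rw [Nat.cast_smul_eq_nsmul]
      exact L.nsmul_mem y_L _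
  have hNx : (N : ℝ) • x = ∑ i : b, (⌊(N : ℝ) * r i⌋ : ℝ) • (i : W) + ∑ i, θ i • (i : W) := by
    conv_lhs => rw [hr]
    rw [Finset.smul_sum, ← Finset.sum_add_distrib]
    refine Finset.sum_congr rfl fun i _ => ?_
    rw [smul_smul, ← add_smul]
    congr 1
    simp only [θ]
    ring
  have hzN : z ∈ Nf := by
    have h1 : z = (N : ℝ) • (x - t • y₀) + ∑ i, θ i • ((C : ℝ) • y₀ - (i : W)) +
        (N * t - C * m - C * ∑ i, θ i) • y₀ := by
      have h2 : ∑ i, θ i • ((C : ℝ) • y₀ - (i : W)) = (C * ∑ i, θ i) • y₀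
          - ∑ i, θ i • (i : W) := by
        simp only [smul_sub, Finset.sum_sub_distrib, smul_smul, ← Finset.sum_smul]
        congr 2
        rw [Finset.mul_sum]
        exact Finset.sum_congr rfl fun i _ => by ring
      rw [h2, smul_sub, hNx]
      simp only [z, Nat.cast_mul]
      module
    rw [h1]
    refine add _ (add _ (smul _ hNr.le _ hx) _ (sum_mem_of _ add zero fun i _ =>
      smul _ (hθ0 i) _ (hCm i))) _ (smul _ ?_ _ y_N)
    have h3 : (C : ℝ) * ∑ i, θ i ≤ C * m := mul_le_mul_of_nonneg_left hθs (Nat.cast_nonneg _)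
    linarith
  have hxz : x = (N : ℝ)⁻¹ • z + ∑ i, (θ i / N) • ((i : W) + (C : ℝ) • y₀) +
      (C * (m - ∑ i, θ i) / N) • y₀ := by
    have h2 : ∑ i, (θ i / N) • ((i : W) + (C : ℝ) • y₀) = (N : ℝ)⁻¹ • ∑ i, θ i • (i : W)
        + (N : ℝ)⁻¹ • (C * ∑ i, θ i) • y₀ := by
      simp only [smul_add, Finset.sum_add_distrib, Finset.smul_sum, smul_smul, ← Finset.sum_smul]
      congr 1
      · exact Finset.sum_congr rfl fun i _ => by
          congr 1
          ring
      · congr 1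
        rw [Finset.mul_sum, Finset.mul_sum]
        exact Finset.sum_congr rfl fun i _ => by ring
    have h3 : x = (N : ℝ)⁻¹ • ((N : ℝ) • x) := by
      rw [smul_smul, inv_mul_cancel₀ hNr.ne', one_smul]
    rw [h2]
    conv_lhs => rw [h3, hNx]
    simp only [z, Nat.cast_mul]
    match_scalars <;> field_simp <;> ring
  refine ⟨insert z (insert y₀ (Finset.univ.image fun i : b => (i : W) + (C : ℝ) • y₀)),
    fun a ha => ?_, ?_⟩
  · rcases Finset.mem_insert.1 ha with rfl | ha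
    · exact ⟨hzL, hzN⟩
    · rcases Finset.mem_insert.1 ha with rfl | ha
      · exact ⟨y_L, y_N⟩
      · obtain ⟨i, -, rfl⟩ := Finset.mem_image.1 ha
        refine ⟨L.add_mem (hbL i.2) ?_, hCp i⟩
        rw [Nat.cast_smul_eq_nsmul]
        exact L.nsmul_mem y_L _
  · rw [hxz]
    refine cone_add (cone_add (cone_smul (mem_cone_self (Finset.mem_insert_self _ _))
      (inv_nonneg.2 hNr.le)) ?_) (cone_smul (mem_cone_self (Finset.mem_insert_of_mem
        (Finset.mem_insert_self _ _))) ?_)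
    · refine mem_cone_of_sum Finset.univ _ _ (fun i _ => ?_) (fun i _ => ?_)
      · exact Finset.mem_insert_of_mem (Finset.mem_insert_of_mem
          (Finset.mem_image_of_mem (fun i : b => (i : W) + (C : ℝ) • y₀) (Finset.mem_univ i)))
      · exact div_nonneg (hθ0 i) hNr.le
    · refine div_nonneg (mul_nonneg (Nat.cast_nonneg _) ?_) hNr.le
      linarith

/-- The closure of a cone with an interior point. -/
theorem closure_add [TopologicalSpace W] [IsTopologicalAddGroup W] [ContinuousSMul ℝ W]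
    [T2Space W] (add : ∀ x ∈ Nf, ∀ y ∈ Nf, x + y ∈ Nf)
    (smul : ∀ t : ℝ, 0 ≤ t → ∀ x ∈ Nf, t • x ∈ Nf)
    (y_N : y₀ ∈ Nf) (y_int : ∀ x : W, ∃ C : ℝ, 0 < C ∧ C • y₀ - x ∈ Nf) {x : W}
    (hx : x ∈ closure Nf) {ε : ℝ} (hε : 0 < ε) : x + ε • y₀ ∈ Nf := by
  classical
  let e := Module.finBasis ℝ W
  have zero : (0 : W) ∈ Nf := by
    have := smul 0 le_rfl _ y_N
    rwa [zero_smul] at this
  choose C hC0 hC using y_int
  set K : ℝ := 1 + ∑ i, (C (e i) + C (-(e i))) with hK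
  have hK1 : ∀ i, C (e i) ≤ K ∧ C (-(e i)) ≤ K := fun i => by
    have h1 : C (e i) + C (-(e i)) ≤ ∑ i, (C (e i) + C (-(e i))) :=
      Finset.single_le_sum (f := fun i => C (e i) + C (-(e i)))
        (fun i _ => add_nonneg (hC0 _).le (hC0 _).le) (Finset.mem_univ i)
    have h2 := hC0 (e i)
    have h3 := hC0 (-(e i))
    constructor <;> linarith
  have hK0 : 0 < K := by
    have : 0 ≤ ∑ i, (C (e i) + C (-(e i))) :=
      Finset.sum_nonneg fun i _ => add_nonneg (hC0 _).le (hC0 _).le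
    linarith
  have hKm : ∀ (i : Fin (Module.finrank ℝ W)) (s : ℝ), (K * |s|) • y₀ + s • e i ∈ Nf := by
    intro i s
    rcases le_total 0 s with h | h
    · have h1 := smul s h _ (add _ (hC (-(e i))) _ (smul (K - C (-(e i)))
        (sub_nonneg.2 (hK1 i).2) _ y_N))
      rw [abs_of_nonneg h]
      have h2 : s • (C (-(e i)) • y₀ - -(e i) + (K - C (-(e i))) • y₀) =
        (K * s) • y₀ + s • e i := by module
      rwa [h2] at h1
    · have h1 := smul (-s) (neg_nonneg.2 h) _ (add _ (hC (e i)) _ (smul (K - C (e i))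
        (sub_nonneg.2 (hK1 i).1) _ y_N))
      rw [abs_of_nonpos h]
      have h2 : (-s) • (C (e i) • y₀ - (e i) + (K - C (e i)) • y₀) =
        (K * -s) • y₀ + s • e i := by module
      rwa [h2] at h1
  let φ : W → ℝ := fun z => ∑ i, K * |e.coord i z|
  have hφc : Continuous φ := by
    refine continuous_finsetSum _ fun i _ => continuous_const.mul ?_
    exact (LinearMap.continuous_of_finiteDimensional (e.coord i)).abs
  have hopen : IsOpen {z : W | φ (x - z) < ε} :=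
    isOpen_lt (hφc.comp (continuous_const.sub continuous_id)) continuous_const
  obtain ⟨x', hx'1, hx'2⟩ := mem_closure_iff.1 hx _ hopen (by
    change φ (x - x) < ε
    simp only [φ, sub_self, map_zero, abs_zero, mul_zero, Finset.sum_const_zero]
    exact hε)
  change φ (x - x') < ε at hx'1
  have h1 : x + ε • y₀ = x' + ∑ i, ((K * |e.coord i (x - x')|) • y₀ + e.coord i (x - x') • e i) +
      (ε - φ (x - x')) • y₀ := by
    have h2 : ∑ i, e.coord i (x - x') • e i = x - x' := by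
      have := e.sum_repr (x - x')
      simpa using this
    rw [Finset.sum_add_distrib, ← Finset.sum_smul, h2]
    simp only [φ]
    module
  rw [h1]
  exact add _ (add _ hx'2 _ (sum_mem_of _ add zero fun i _ => hKm i _)) _
    (smul _ (by linarith) _ y_N)

/-- Data for a commensurable lattice. -/
theorem cdata_comm {ξ : W →ₗ[ℝ] ℝ} {Y : Finset W} (D : CData L Nf ξ y₀ Y)
    (hspan : Submodule.span ℝ (L : Set W) = ⊤) (M : AddSubgroup W) {k : ℕ} (hk : 0 < k)
    (hM1 : ∀ x ∈ L, (k : ℝ) • x ∈ M) (hM2 : ∀ x ∈ M, (k : ℝ) • x ∈ L) :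
    ∃ Y' : Finset W, CData M Nf ((k : ℝ) • ξ) ((k : ℝ) • y₀) Y' := by
  have hkr : (0 : ℝ) < k := by exact_mod_cast hk
  refine mk_cdata ?_ D.add D.smul (fun x hx => ?_) (fun x hx h0 => ?_) (hM1 _ D.y_L)
    (D.smul _ hkr.le _ D.y_N) (fun x => ?_) (fun η => ?_) (fun x hx => ?_)
  · rw [eq_top_iff, ← hspan, Submodule.span_le]
    intro x hx
    have h1 : x = (k : ℝ)⁻¹ • (k : ℝ) • x := by
      rw [smul_smul, inv_mul_cancel₀ hkr.ne', one_smul]
    rw [h1]
    exact Submodule.smul_mem _ _ (Submodule.subset_span (hM1 x hx))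
  · obtain ⟨m, hm⟩ := D.xi_int _ (hM2 x hx)
    refine ⟨m, ?_⟩
    rw [LinearMap.smul_apply, ← map_smul, hm]
  · rw [LinearMap.smul_apply, smul_eq_mul]
    exact mul_pos hkr (D.xi_pos x hx h0)
  · obtain ⟨C, hC, h1⟩ := D.y_int x
    refine ⟨C / k, by positivity, ?_⟩
    rwa [smul_smul, div_mul_cancel₀ _ hkr.ne']
  · obtain ⟨C, hC⟩ := D.dom η
    refine ⟨|C| / k, by positivity, fun x hx => ?_⟩
    have h0 : 0 ≤ ξ x := D.xi_nonneg hx
    calc |η x| ≤ C * ξ x := hC x hx
      _ ≤ |C| * ξ x := mul_le_mul_of_nonneg_right (le_abs_self C) h0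
      _ = |C| / k * ((k : ℝ) • ξ) x := by
        rw [LinearMap.smul_apply, smul_eq_mul]
        field_simp
  · obtain ⟨η, h1, h2⟩ := D.sep x hx
    refine ⟨(k : ℝ) • η, fun y hy => ?_, ?_⟩
    · obtain ⟨m, hm⟩ := h1 _ (hM2 y hy)
      refine ⟨m, ?_⟩
      rw [LinearMap.smul_apply, ← map_smul, hm]
    · rw [LinearMap.smul_apply, smul_eq_mul]
      exact mul_ne_zero hkr.ne' h2

end gen

end Run7.h323.CC
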