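import Pool.Agent.Run7.h323.CC.Clo

/-!
# The fundamental domain for groups which preserve a commensurable lattice
-/

set_option autoImplicit false
set_option linter.unusedSectionVars false

namespace Run7.h323.CC

open Filter Topology
open Pool.Agent.W594.SYZ2 Pool.Agent.TH735.AQ Q47.TB Run7.h323.TQ MvPolynomial
open Pool.Agent.Y167 (AffGrp IsClass N1 N1s Normalizes cone Rel opE lattE Integral intL mem_intL
  span_intL nef_add nef_smul CData exists_cdata exists_pull cone_image cone_add cone_smul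
  zero_mem_cone mem_cone_self cone_le cone_mono mem_cone_of_sum cone_sum cone_ind Cp
  nef_of_section exists_eff cone_of_scaled)

variable {V E : Type*} [NormedAddCommGroup V] [NormedSpace ℂ V] [FiniteDimensional ℂ V]
  [NormedAddCommGroup E] [NormedSpace ℂ E] [FiniteDimensional ℂ E] {Γ : AffGrp V}
  {j : E →ₗ[ℂ] V} {H₀ : V → V → ℂ} {p : Module.End ℂ E}
  {ι : Type*} [Fintype ι] {n : ℕ} {u : ι → Fin n → ℤ} {S : Set (Set ι)} {c : ι → LineBundle Γ}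
  {Hc : ι → V → V → ℂ} {κ : Type*} [Fintype κ]

/-- The condition `IsSum` is closed. -/
theorem isSum_limit (hS : IsSmoothFan u S) {x b : N1Y u Γ j} {τ : Set ι}
    (h : ∀ ε : ℝ, 0 < ε → IsSum u Hc j (x + ε • b) τ) : IsSum u Hc j x τ := by
  classical
  obtain ⟨a, ha0, ha⟩ := exists_pos hS
  choose β h1 h2 h3 h4 using fun m : ℕ => h (1 / ((m : ℝ) + 1)) (by positivity)
  set C : ℝ := |degA u a ha x.1| + |degA u a ha b.1| with hC
  have hbd : ∀ m i, β m i ≤ C := by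
    intro m i
    have e1 : degA u a ha (x + (1 / ((m : ℝ) + 1)) • b).1 = ∑ i, (a i : ℝ) * β m i := by
      rw [h3, degA_cl]
    have e2 : β m i ≤ ∑ i, (a i : ℝ) * β m i := by
      have e3 : (a i : ℝ) * β m i ≤ ∑ i, (a i : ℝ) * β m i :=
        Finset.single_le_sum (f := fun i => (a i : ℝ) * β m i)
          (fun i _ => mul_nonneg (Nat.cast_nonneg _) (h1 m i)) (Finset.mem_univ i)
      have e4 : (1 : ℝ) ≤ a i := by exact_mod_cast ha0 i
      have e5 := mul_le_mul_of_nonneg_right e4 (h1 m i)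
      linarith
    rw [← e1, Prod.fst_add, Prod.smul_fst, map_add, map_smul, smul_eq_mul] at e2
    have e6 := le_abs_self (degA u a ha x.1)
    have e7 := le_abs_self (degA u a ha b.1)
    have e8 := abs_nonneg (degA u a ha b.1)
    have e9 : (1 : ℝ) / ((m : ℝ) + 1) ≤ 1 := by
      rw [div_le_one (by positivity)]
      have : (0 : ℝ) ≤ m := Nat.cast_nonneg _
      linarith
    have e10 : 0 < (1 : ℝ) / ((m : ℝ) + 1) := by positivity
    have e11 : 1 / ((m : ℝ) + 1) * degA u a ha b.1 ≤ |degA u a ha b.1| :=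
      (mul_le_mul_of_nonneg_left e7 e10.le).trans (by nlinarith)
    linarith
  have hK : IsCompact (Set.univ.pi fun _ : ι => Set.Icc (0 : ℝ) C) :=
    isCompact_univ_pi fun _ => isCompact_Icc
  obtain ⟨β', hβ', φ, hφ, hlim⟩ := hK.tendsto_subseq (x := β)
    (fun m i _ => ⟨h1 m i, hbd m i⟩)
  have hlimi : ∀ i, Tendsto (fun m => β (φ m) i) atTop (𝓝 (β' i)) := fun i =>
    (tendsto_pi_nhds.1 hlim) i
  have hε : Tendsto (fun m : ℕ => 1 / (((φ m : ℕ) : ℝ) + 1)) atTop (𝓝 0) :=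
    tendsto_one_div_add_atTop_nhds_zero_nat.comp hφ.tendsto_atTop
  refine ⟨β', fun i => (hβ' i (Set.mem_univ i)).1, fun i hi => ?_, ?_, fun e => ?_⟩
  · refine tendsto_nhds_unique (hlimi i) ?_
    simp only [h2 _ i hi]
    exact tendsto_const_nhds
  · obtain ⟨dx, hdx⟩ := Submodule.Quotient.mk_surjective _ x.1
    obtain ⟨db, hdb⟩ := Submodule.Quotient.mk_surjective _ b.1
    have hclosed : IsClosed (principal u : Set (ι → ℝ)) :=
      Submodule.closed_of_finiteDimensional _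
    have hmem : dx - β' ∈ (principal u : Set (ι → ℝ)) := by
      have hl : Tendsto (fun m => dx + (1 / (((φ m : ℕ) : ℝ) + 1)) • db - β (φ m)) atTop
          (𝓝 (dx + (0 : ℝ) • db - β')) :=
        (tendsto_const_nhds.add (hε.smul_const db)).sub hlim
      rw [zero_smul, add_zero] at hl
      refine hclosed.mem_of_tendsto hl (Eventually.of_forall fun m => ?_)
      have h5 := h3 (φ m)
      rw [Prod.fst_add, Prod.smul_fst, ← hdx, ← hdb] at h5
      exact (Submodule.Quotient.eq (principal u)).1 h5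
    rw [← hdx]
    exact (Submodule.Quotient.eq (principal u)).2 hmem
  · have hl : Tendsto (fun m => ((x + (1 / (((φ m : ℕ) : ℝ) + 1)) • b).2.1 e e -
        ∑ i, (β (φ m) i : ℂ) * Hc i (j e) (j e)).re) atTop
        (𝓝 (x.2.1 e e - ∑ i, (β' i : ℂ) * Hc i (j e) (j e)).re) := by
      refine (Complex.continuous_re.tendsto _).comp ?_
      refine Tendsto.sub ?_ (tendsto_finsetSum _ fun i _ => ?_)
      · have h5 : Tendsto (fun m => x.2.1 e e + ((1 / (((φ m : ℕ) : ℝ) + 1) : ℝ)) • b.2.1 e e)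
            atTop (𝓝 (x.2.1 e e + (0 : ℝ) • b.2.1 e e)) :=
          tendsto_const_nhds.add (hε.smul_const _)
        rw [zero_smul, add_zero] at h5
        exact h5
      · exact ((Complex.continuous_ofReal.tendsto _).comp (hlimi i)).mul_const _
    exact ge_of_tendsto' hl fun m => h4 (φ m) e

/-- **The general result** for groups which preserve a commensurable lattice. -/
theorem coreL (hS : IsSmoothFan u S) (P : Pre Γ j) (hc : ∀ i, IsChernForm (c i) (Hc i))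
    {L : LineBundle Γ} {H : V → V → ℂ} (hL : IsChernForm L H) {d : ι → ℤ}
    (hA : IsAmple u S Hc d H) {Δ : EffDivY u c κ} (hnum : NumTrivialY Hc j Δ)
    (hklt : IsKltY S Δ) {𝒯 : Finset (Set ι)} (h𝒯 : 𝒯.Nonempty)
    (hmax : ∀ τ ∈ 𝒯, ∃ σ, IsMax S σ ∧ τ ⊆ σ) (M : AddSubgroup (N1Y u Γ j)) {k : ℕ} (hk : 0 < k)
    (hM1 : ∀ x ∈ intY u Γ j, (k : ℝ) • x ∈ M) (hM2 : ∀ x ∈ M, (k : ℝ) • x ∈ intY u Γ j)
    (𝒢 : Subgroup (N1Y u Γ j ≃ₗ[ℝ] N1Y u Γ j)) (h𝒢M : ∀ g ∈ 𝒢, ∀ x ∈ M, g x ∈ M)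
    (h𝒢N : ∀ g ∈ 𝒢, ∀ x ∈ NfT u Hc Γ j 𝒯 ∩ effCone u c j,
      g x ∈ NfT u Hc Γ j 𝒯 ∩ effCone u c j)
    (h𝒢 : ∀ (f : V ≃ᵃ[ℂ] V) (φ : ι → V → ℂ), IsLift u c f φ → (∀ v, ∃ e, f v = v + j e) →
      Fixes Δ f φ → ∀ g : N1Y u Γ j ≃ₗ[ℝ] N1Y u Γ j, IsPullback Hc f g → g ∈ 𝒢) :
    ∃ A : Finset (N1Y u Γ j), (∀ a ∈ A, a ∈ intY u Γ j ∧ a ∈ NfT u Hc Γ j 𝒯) ∧
      (∀ x, x ∈ NfT u Hc Γ j 𝒯 ∧ x ∈ effCone u c j ↔ ∃ g ∈ 𝒢, g x ∈ cone A) ∧
      ∀ g ∈ 𝒢, g ≠ 1 → ∃ φ : N1Y u Γ j →ₗ[ℝ] ℝ, φ ≠ 0 ∧ (∀ x ∈ cone A, 0 ≤ φ x) ∧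
        ∀ x ∈ cone A, φ (g x) ≤ 0 := by
  classical
  obtain ⟨σ₀, hσ₀, -⟩ := exists_max hS.empty_mem
  obtain ⟨b₀, hb⟩ := exists_dual hS hσ₀
  obtain ⟨β₀, H₀, hβ1, hβ2, R, hβ3⟩ := amp_data hc hL P hA hσ₀
  have hK : KerAll u Hc Γ j := fun e he q w => (ker_all hS R hc hnum hklt he).2 q w
  obtain ⟨p, hp⟩ := exists_proj R
  obtain ⟨A, hAm, hAc⟩ := exists_Am hS R hp hc hK hb 𝒯 h𝒯
  have D0 : Set0 u S c Hc j H₀ Δ := ⟨hS, R, hc, hnum, hklt⟩
  obtain ⟨N, hN, hlift⟩ := D0.exists_lift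
  obtain ⟨F, hF, hFc⟩ := other_part R hp N hN
  obtain ⟨ξ, Y, D⟩ := cdataY hc hL P R hS hA h𝒯 hmax
  have hkr : (0 : ℝ) < k := by exact_mod_cast hk
  have := finDimY (u := u) R
  -- interior points are effective
  have hint : ∀ x, (∃ t : ℝ, 0 < t ∧ x - t • yC u j hL d ∈ NfT u Hc Γ j 𝒯) →
      x ∈ NfT u Hc Γ j 𝒯 ∩ effCone u c j := by
    rintro x ⟨t, ht, hx⟩
    exact (mem_Cp hc hS h𝒯 hK R x).1
      (mem_Cp_of_int span_intY D.add D.smul D.y_L D.y_N D.y_int ht hx)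
  have h𝒢nef : ∀ g ∈ 𝒢, ∀ x ∈ NfT u Hc Γ j 𝒯, g x ∈ NfT u Hc Γ j 𝒯 := by
    intro g hg x hx τ hτ
    refine isSum_limit hS (b := g (yC u j hL d)) fun ε hε => ?_
    have h1 := (h𝒢N g hg _ (hint (x + ε • yC u j hL d) ⟨ε, hε, by
      rwa [add_sub_cancel_right]⟩)).1 τ hτ
    rwa [map_add, map_smul] at h1
  obtain ⟨Y', D'⟩ := cdata_comm D span_intY M hk hM1 hM2
  -- the scaled generators
  have hscale : ∀ (T : Finset (N1Y u Γ j)) (x : N1Y u Γ j), x ∈ cone T →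
      x ∈ cone (T.image fun a => (k : ℝ) • a) := fun T x hx =>
    cone_le (fun a ha => cone_of_scaled hkr
      (Finset.mem_image_of_mem (fun a => (k : ℝ) • a) ha)) hx
  have hscale' : ∀ (T : Finset (N1Y u Γ j)) (x : N1Y u Γ j),
      x ∈ cone (T.image fun a => (k : ℝ) • a) → x ∈ cone T := fun T x hx =>
    cone_le (fun a ha => by
      obtain ⟨a', ha', rfl⟩ := Finset.mem_image.1 ha
      exact cone_smul (mem_cone_self ha') hkr.le) hx
  obtain ⟨B, hB1, hB2, hB3⟩ := D'.domain 𝒢 h𝒢M h𝒢nef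
    ((A ∪ F.image (inX u Γ j)).image fun a => (k : ℝ) • a) (fun a ha => by
    obtain ⟨a', ha', rfl⟩ := Finset.mem_image.1 ha
    have h0 : a' ∈ intY u Γ j ∧ a' ∈ NfT u Hc Γ j 𝒯 := by
      rcases Finset.mem_union.1 ha' with h | h
      · exact ⟨(hAm a' h).1, (hAm a' h).2.1⟩
      · obtain ⟨a'', ha'', rfl⟩ := Finset.mem_image.1 h
        exact ⟨inr_int (hF a'' ha'').1, fun τ _ => IsSum.of_nef (hF a'' ha'').2.1 τ⟩
    exact ⟨hM1 _ h0.1, D.smul _ hkr.le _ h0.2⟩) (by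
    rintro x ⟨s', hs', hxs'⟩
    obtain ⟨s, hs, hxs⟩ : ∃ s : ℝ, 0 < s ∧ x - s • yC u j hL d ∈ NfT u Hc Γ j 𝒯 :=
      ⟨s' * k, by positivity, by rwa [smul_smul] at hxs'⟩
    obtain ⟨τ, hτ⟩ := h𝒯
    obtain ⟨β, -, -, h1, h2⟩ := (isSum_iff hc).1 (hxs τ hτ)
    set y := yC u j hL d with hy
    set β₁ : ι → ℝ := fun i => (β₀ i : ℝ) with hβ₁
    have hxN : x ∈ NfT u Hc Γ j 𝒯 := by
      have h3 := D.add _ hxs _ (D.smul s hs.le _ D.y_N)
      rwa [sub_add_cancel] at h3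
    have h3 : x.1 = cl u (β + s • β₁) := by
      have h4 : x = (x - s • y) + s • y := by abel
      have h5 : y.1 = cl u β₁ := hβ2
      calc x.1 = ((x - s • y) + s • y).1 := by rw [← h4]
        _ = cl u β + s • cl u β₁ := by rw [Prod.fst_add, Prod.smul_fst, h1, h5]
        _ = _ := by rw [cl_add, cl_smul]
    have h4 : sb hc x (β + s • β₁) = sb hc (x - s • y) β + s • sb hc y β₁ := by
      rw [← sb_smul, ← sb_add, sub_add_cancel]
    obtain ⟨w, f, hf, hcone⟩ := hFc (sb hc x (β + s • β₁)) ⟨s, hs, fun e => by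
      rw [h4]
      change _ ≤ ((sb hc (x - s • y) β).1 e e + s • (sb hc y β₁).1 e e).re
      rw [Complex.add_re, Complex.smul_re, hβ3, smul_eq_mul]
      have := h2 e
      linarith⟩
    obtain ⟨g, hg1, -, -, -⟩ := exists_pull (j := j) hf.norm hf.lin
    obtain ⟨φ, hφ1, hφ2⟩ := hlift w f hf
    refine ⟨ext hc hb g, ?_, hscale _ _ ?_⟩
    · refine h𝒢 f φ hφ1 (fun v => ?_) hφ2 _ fun x => ⟨rfl, fun d hd a b a' b' ha hb' => ?_⟩
      · obtain ⟨e, he⟩ := hf.disp v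
        exact ⟨_, he⟩
      · have h5 := congrArg (fun z : N1 Γ j => z.1 a b)
          (ext_sb hc hb (good_cfN R hp hc hK hf hg1) hd)
        change (sb hc (ext hc hb g x) d).1 a b = (g (sb hc x d)).1 a b at h5
        rw [hg1, sb_apply, sb_apply] at h5
        rw [hf.lin] at ha hb'
        rw [P.inj ha, P.inj hb']
        exact h5
    · rw [ext_eq R hp hc hK hb hf hg1]
      refine cone_add (cone_mono Finset.subset_union_left (hAc x hxN)) ?_
      have h5 := hcone g hg1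
      rw [← tt_eq R hp hc hK hb h3] at h5
      have h6 : ((0, g (tt R hp hc hb x)) : N1Y u Γ j) ∈ cone (F.image (inX u Γ j)) :=
        cone_image (inX u Γ j) h5
      exact cone_mono Finset.subset_union_right h6)
  have hcone : ∀ x, x ∈ cone (B.image fun a => (k : ℝ) • a) ↔ x ∈ cone B := fun x =>
    ⟨hscale' B x, hscale B x⟩
  have hCpM : ∀ x, x ∈ Cp M (NfT u Hc Γ j 𝒯) ↔
      x ∈ NfT u Hc Γ j 𝒯 ∧ x ∈ effCone u c j := by
    intro x
    rw [← mem_Cp hc hS h𝒯 hK R x]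
    constructor
    · rintro ⟨T, hT, hx⟩
      refine ⟨T.image fun a => (k : ℝ) • a, fun a ha => ?_, hscale T x hx⟩
      obtain ⟨a', ha', rfl⟩ := Finset.mem_image.1 ha
      exact ⟨hM2 _ (hT a' ha').1, D.smul _ hkr.le _ (hT a' ha').2⟩
    · rintro ⟨T, hT, hx⟩
      refine ⟨T.image fun a => (k : ℝ) • a, fun a ha => ?_, hscale T x hx⟩
      obtain ⟨a', ha', rfl⟩ := Finset.mem_image.1 ha
      exact ⟨hM1 _ (hT a' ha').1, D.smul _ hkr.le _ (hT a' ha').2⟩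
  refine ⟨B.image fun a => (k : ℝ) • a, fun a ha => ?_, fun x => ?_, fun g hg hg1 => ?_⟩
  · obtain ⟨a', ha', rfl⟩ := Finset.mem_image.1 ha
    exact ⟨hM2 _ (hB1 a' ha').1, D.smul _ hkr.le _ (hB1 a' ha').2⟩
  · rw [← hCpM, hB2]
    simp only [hcone]
  · obtain ⟨φ, h1, h2, h3⟩ := hB3 g hg hg1
    exact ⟨φ, h1, fun x hx => h2 x ((hcone x).1 hx), fun x hx => h3 x ((hcone x).1 hx)⟩

end Run7.h323.CC
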