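import Pool.Agent.Run7.h323.CC.Proj

/-!
# The covering of the cone of positive definite classes on `X`, with automorphisms congruent to one

These are variants of `Rel.exists_aut` and of the first part of the proof of `core₀` of
`Pool.Agent.Y167`.
-/

set_option autoImplicit false
set_option linter.unusedSectionVars false

namespace Run7.h323.CC

open Pool.Agent.W594.SYZ2 Pool.Agent.W594.SYZ2.TQ Pool.Agent.TH735.AQ Pool.Agent.TH128.SYZ
open Pool.Agent.Y167

variable {V E : Type*} [NormedAddCommGroup V] [NormedSpace ℂ V] [FiniteDimensional ℂ V]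
  [NormedAddCommGroup E] [NormedSpace ℂ E] [FiniteDimensional ℂ E] {Γ : Subgroup (V ≃ᵃ[ℂ] V)}
  {j : E →ₗ[ℂ] V} {H₀ : V → V → ℂ}

/-- The automorphism `f` of `X` is given by the unit `u` and it commutes with `Γ` up to translations by
`N` times the lattice. -/
structure GoodPair (Γ : Subgroup (V ≃ᵃ[ℂ] V)) (j : E →ₗ[ℂ] V) (N : ℕ) (u : E ≃ₗ[ℂ] E)
    (f : V ≃ᵃ[ℂ] V) : Prop where
  good : ∃ m, Pol.IsGood (lattE Γ j) (opE Γ j) m u
  norm : Normalizes Γ f
  lin : ∀ e, f.linear (j e) = j (u e)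
  disp : ∀ v, ∃ e, f v = v + j (u e - e)
  comm : ∀ γ ∈ Γ, ∃ c' ∈ lattE Γ j, ∀ v, f (γ v) = j ((N : ℝ) • c') + γ (f v)

theorem exists_aut' (R : Rel Γ j H₀) (N : ℕ) (hN : 0 < N) :
    ∃ m : ℕ, 0 < m ∧ ∀ u, Pol.IsGood (lattE Γ j) (opE Γ j) m u → ∃ f, GoodPair Γ j N u f := by
  obtain ⟨q, hq1, hq2, hq3, m₁, hm₁, hmq⟩ := R.exists_q
  obtain ⟨t₀, ht₀⟩ := exists_center R.tq
  set n := Nat.card (Lin Γ) with hn
  have hnpos : 0 < n := card_pos R.tq
  have hmr : (((m₁ * n : ℕ) : ℝ)) ≠ 0 := by positivity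
  refine ⟨m₁ * n * N, Nat.mul_pos (Nat.mul_pos hm₁ hnpos) hN, fun u hu => ?_⟩
  let ut : V ≃ₗ[ℂ] V :=
    { toFun := fun v => v + j (u (q v) - q v)
      map_add' := fun v w => by
        simp only [map_add, map_sub]
        abel
      map_smul' := fun c v => by
        simp only [map_smul, map_sub, RingHom.id_apply, smul_add, smul_sub]
      invFun := fun v => v + j (u.symm (q v) - q v)
      left_inv := fun v => by
        change (v + j (u (q v) - q v)) + j (u.symm (q (v + j (u (q v) - q v)))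
          - q (v + j (u (q v) - q v))) = v
        have h1 : q (v + j (u (q v) - q v)) = u (q v) := by
          rw [map_add, hq2]
          abel
        rw [h1, u.symm_apply_apply, add_assoc, ← map_add]
        have h2 : u (q v) - q v + (q v - u (q v)) = 0 := by abel
        rw [h2, map_zero, add_zero]
      right_inv := fun v => by
        change (v + j (u.symm (q v) - q v)) + j (u (q (v + j (u.symm (q v) - q v)))
          - q (v + j (u.symm (q v) - q v))) = v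
        have h1 : q (v + j (u.symm (q v) - q v)) = u.symm (q v) := by
          rw [map_add, hq2]
          abel
        rw [h1, u.apply_symm_apply, add_assoc, ← map_add]
        have h2 : u.symm (q v) - q v + (q v - u.symm (q v)) = 0 := by abel
        rw [h2, map_zero, add_zero] }
  have hut : ∀ v, ut v = v + j (u (q v) - q v) := fun v => rfl
  let f : V ≃ᵃ[ℂ] V :=
    AffineEquiv.constVAdd ℂ V t₀ * ut.toAffineEquiv * AffineEquiv.constVAdd ℂ V (-t₀)
  have hfv : ∀ v, f v = t₀ + ut (-t₀ + v) := fun v => rfl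
  have hflin : ∀ v, f.linear v = ut v := fun v => rfl
  -- commutation
  have hug : ∀ γ ∈ Γ, ∀ v, ut (γ.linear v) = γ.linear (ut v) := by
    intro γ hγ v
    obtain ⟨x, hx1, hx2⟩ := R.exists_opE γ hγ
    rw [hut, hut, hq3 γ hγ x hx2, hu.unit.comm x hx1, map_add, ← map_sub, hx2]
  have hc : ∀ γ ∈ Γ, ∃ c' ∈ lattE Γ j, ut (γ t₀ - t₀) - (γ t₀ - t₀) = j ((N : ℝ) • c') := by
    intro γ hγ
    have h1 := hmq _ (ht₀ γ hγ)
    have h2 : (m₁ : ℝ) • q ((n : ℝ) • (γ t₀ - t₀)) = ((m₁ * n : ℕ) : ℝ) • q (γ t₀ - t₀) := by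
      have h3 : q ((n : ℝ) • (γ t₀ - t₀)) = (n : ℝ) • q (γ t₀ - t₀) := by
        rw [← Complex.coe_smul, map_smul, Complex.coe_smul]
      rw [h3, smul_smul]
      push_cast
      rfl
    rw [h2] at h1
    obtain ⟨c', hc', h3⟩ := hu.cong _ h1
    refine ⟨c', hc', ?_⟩
    rw [hut, add_sub_cancel_left]
    congr 1
    have h4 : u (((m₁ * n : ℕ) : ℝ) • q (γ t₀ - t₀)) - ((m₁ * n : ℕ) : ℝ) • q (γ t₀ - t₀)
        = ((m₁ * n : ℕ) : ℝ) • (u (q (γ t₀ - t₀)) - q (γ t₀ - t₀)) := by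
      rw [← Complex.coe_smul, map_smul, Complex.coe_smul, smul_sub]
      rfl
    rw [h4] at h3
    have h5 : ((m₁ * n * N : ℕ) : ℝ) • c' = ((m₁ * n : ℕ) : ℝ) • ((N : ℝ) • c') := by
      rw [smul_smul]
      push_cast
      rfl
    rw [h5] at h3
    exact smul_right_injective E hmr h3
  have hNl : ∀ c' ∈ lattE Γ j, (N : ℝ) • c' ∈ lattE Γ j := fun c' hc' => by
    rw [Nat.cast_smul_eq_nsmul]
    exact (lattE Γ j).nsmul_mem hc' N
  have hkey : ∀ γ ∈ Γ, ∃ c' ∈ lattE Γ j, ∀ v, f (γ v) = j ((N : ℝ) • c') + γ (f v) := by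
    intro γ hγ
    obtain ⟨c', hc', h1⟩ := hc γ hγ
    refine ⟨c', hc', fun v => ?_⟩
    have h2 : γ v = γ t₀ + γ.linear (-t₀ + v) := by
      have : v = t₀ + (-t₀ + v) := by abel
      conv_lhs => rw [this, act_add]
    have h3 : -t₀ + γ v = (γ t₀ - t₀) + γ.linear (-t₀ + v) := by rw [h2]; abel
    rw [hfv, hfv, h3, map_add, hug γ hγ, act_add]
    have h4 : ut (γ t₀ - t₀) = j ((N : ℝ) • c') + (γ t₀ - t₀) := by rw [← h1]; abel
    rw [h4]
    abel
  refine ⟨f, ⟨m₁ * n * N, hu⟩, fun γ => ⟨fun hγ => ?_, fun hγ' => ?_⟩, fun e => ?_,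
    fun v => ⟨q (-t₀ + v), ?_⟩, hkey⟩
  · obtain ⟨c', hc', h1⟩ := hkey γ hγ
    have h2 : f * γ * f⁻¹ = AffineEquiv.constVAdd ℂ V (j ((N : ℝ) • c')) * γ := by
      apply AffineEquiv.ext
      intro v
      change f (γ (f.symm v)) = j ((N : ℝ) • c') + γ v
      rw [h1, f.apply_symm_apply]
    rw [h2]
    exact Γ.mul_mem (hNl c' hc') hγ
  · obtain ⟨c', hc', h1⟩ := hkey _ hγ'
    have h2 : γ = AffineEquiv.constVAdd ℂ V (j (-u.symm ((N : ℝ) • c'))) * (f * γ * f⁻¹) := by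
      apply AffineEquiv.ext
      intro v
      apply f.injective
      change f (γ v) = f (j (-u.symm ((N : ℝ) • c')) + (f * γ * f⁻¹) v)
      have h3 : f (j (-u.symm ((N : ℝ) • c')) + (f * γ * f⁻¹) v)
          = f ((f * γ * f⁻¹) v) + ut (j (-u.symm ((N : ℝ) • c'))) := by
        rw [add_comm, act_add, hflin]
      have h4 : ut (j (-u.symm ((N : ℝ) • c'))) = -j ((N : ℝ) • c') := by
        rw [hut, hq2, ← map_add]
        have h5 : -u.symm ((N : ℝ) • c') + (u (-u.symm ((N : ℝ) • c')) - -u.symm ((N : ℝ) • c'))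
            = -((N : ℝ) • c') := by
          rw [map_neg, u.apply_symm_apply]
          abel
        rw [h5, map_neg]
      rw [h3, h4, h1]
      change f (γ v) = j ((N : ℝ) • c') + f (γ (f.symm (f v))) + -j ((N : ℝ) • c')
      rw [f.symm_apply_apply]
      abel
    rw [h2]
    refine Γ.mul_mem ?_ hγ'
    have h3 : -u.symm ((N : ℝ) • c') ∈ lattE Γ j :=
      (lattE Γ j).neg_mem (hu.unit.symm _ (hNl c' hc'))
    exact h3
  · rw [hflin, hut, hq2, map_sub]
    abel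
  · rw [hfv, hut]
    abel

/-- Each positive definite class is moved into a finitely generated cone. -/
theorem cov_X (R : Rel Γ j H₀) (N : ℕ) (hN : 0 < N) :
    ∃ F : Finset (N1 Γ j), (∀ a ∈ F, Integral a ∧ a ∈ nefCone Γ j) ∧
      ∀ x : N1 Γ j, (∃ t : ℝ, 0 < t ∧ ∀ e, t * (H₀ (j e) (j e)).re ≤ (x.1 e e).re) →
        ∃ (u : E ≃ₗ[ℂ] E) (f : V ≃ᵃ[ℂ] V), GoodPair Γ j N u f ∧
          ∃ y ∈ cone F, ∀ v w, y.1 v w = x.1 (u v) (u w) := by
  classical
  obtain ⟨d, b, P⟩ := R.pol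
  obtain ⟨F, hF, hFc⟩ := P.red
  obtain ⟨m₀, hm₀, hauts⟩ := exists_aut' R N hN
  obtain ⟨𝓡, h𝓡f, h𝓡U, h𝓡⟩ := P.fin_idx (finite_opE R) (by
    rintro x ⟨γ, hγ, hx⟩ v hv
    change j (x v) ∈ latt Γ
    rw [hx]
    exact latt_inv γ hγ hv) m₀ hm₀
  have hcl : ∀ z r, z ∈ F → r ∈ 𝓡 → ∃ (a : N1 Γ j) (m : ℕ), 0 < m ∧ Integral a ∧
      a ∈ nefCone Γ j ∧ ∀ u w, a.1 u w = m * z (r u) (r w) := by
    intro z r hz hr
    obtain ⟨hz1, hz2⟩ := hF z hz
    have hrU := h𝓡U r hr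
    have h1 : Pol.IsInt (lattE Γ j) (opE Γ j) (fun u w => z (r u) (r w)) := by
      refine ⟨⟨?_, ?_, ?_⟩, ?_, ?_⟩
      · intro u v w
        rw [map_add, hz1.herm.add_left]
      · intro c v w
        rw [map_smul, hz1.herm.smul_left]
      · intro v w
        exact hz1.herm.symm _ _
      · intro g hg u w
        rw [hrU.comm g hg, hrU.comm g hg, hz1.inv g hg]
      · intro u hu w hw
        exact hz1.int _ (hrU.map u hu) _ (hrU.map w hw)
    obtain ⟨m, hm, L, H, hL, h2, -⟩ := R.exists_class h1 (fun v => hz2 (r v))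
    obtain ⟨a, ha1, ha2⟩ := exists_int (j := j) (L := L) (h := fun u w => H (j u) (j w))
      ⟨H, hL, fun _ _ => rfl⟩
    refine ⟨a, m, hm, ha2, fun u => ?_, fun u w => ?_⟩
    · rw [ha1]
      change 0 ≤ (H (j u) (j u)).re
      rw [h2]
      have e1 : (m : ℂ) = ((m : ℝ) : ℂ) := by push_cast; rfl
      rw [e1, Complex.re_ofReal_mul]
      exact mul_nonneg (Nat.cast_nonneg _) (hz2 (r u))
    · rw [ha1]
      exact h2 u w
  choose! af mf hmf haf1 haf2 haf3 using hcl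
  refine ⟨(F ×ˢ h𝓡f.toFinset).image fun p => af p.1 p.2, ?_, ?_⟩
  · intro a ha
    obtain ⟨p, hp, rfl⟩ := Finset.mem_image.1 ha
    rw [Finset.mem_product, h𝓡f.mem_toFinset] at hp
    exact ⟨haf1 _ _ hp.1 hp.2, haf2 _ _ hp.1 hp.2⟩
  · rintro x ⟨t, ht, hxt⟩
    obtain ⟨u, hu1, hu2, hu3, c, hc, hx⟩ := hFc x.1 (mem_span_int R x) ⟨t, ht, hxt⟩
    obtain ⟨r, hr, u', hu', hur⟩ := h𝓡 u ⟨hu1, hu2, hu3⟩
    obtain ⟨f, hf⟩ := hauts u'.symm hu'.inv
    refine ⟨u'.symm, f, hf, ∑ z ∈ F, (c z / mf z r) • af z r, ?_, fun v w => ?_⟩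
    · refine mem_cone_of_sum F _ _ (fun z hz => ?_) (fun z _ => div_nonneg (hc z) (by positivity))
      exact Finset.mem_image.2 ⟨(z, r), by
        rw [Finset.mem_product, h𝓡f.mem_toFinset]
        exact ⟨hz, hr⟩, rfl⟩
    · have h2 : (∑ z ∈ F, (c z / mf z r) • af z r : N1 Γ j).1
          = ∑ z ∈ F, (c z / mf z r) • (af z r).1 := by
        rw [Submodule.coe_sum]
        rfl
      rw [hx, h2]
      simp only [Finset.sum_apply, Pi.smul_apply]
      refine Finset.sum_congr rfl fun z hz => ?_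
      rw [hur, hur, u'.apply_symm_apply, u'.apply_symm_apply, haf3 z r hz hr, Complex.real_smul]
      have hm : ((mf z r : ℕ) : ℂ) ≠ 0 := by
        have := hmf z r hz hr
        exact_mod_cast this.ne'
      push_cast
      field_simp

end Run7.h323.CC
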