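import Pool.Agent.Y167.Cone
import Pool.Agent.Y167.ConeDef

/-!
# Intersections of finitely generated rational cones
-/

set_option autoImplicit false

namespace Run7.h323.CC

open Pool.Agent.Y167 Finset

variable {W : Type*} [AddCommGroup W] [Module ℝ W]

/-- The part of a cone where finitely many integral linear forms are nonnegative. -/
theorem cut_many (L : AddSubgroup W) (S : Finset W) (hS : ∀ a ∈ S, a ∈ L)
    (Φ : Finset (W →ₗ[ℝ] ℝ)) (hΦ : ∀ φ ∈ Φ, ∀ x ∈ L, ∃ n : ℤ, φ x = n) :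
    ∃ S' : Finset W, (∀ a ∈ S', a ∈ L) ∧
      ∀ x, x ∈ cone S' ↔ x ∈ cone S ∧ ∀ φ ∈ Φ, 0 ≤ φ x := by
  classical
  induction Φ using Finset.induction_on with
  | empty => exact ⟨S, hS, fun x => by simp⟩
  | insert φ Φ _ ih =>
    obtain ⟨S1, hS1, h1⟩ := ih fun ψ hψ => hΦ ψ (Finset.mem_insert_of_mem hψ)
    obtain ⟨S2, hS2, h2⟩ := cone_cut S1 φ (fun a => a ∈ L) hS1 (by
      intro a ha b hb hpa hpb
      obtain ⟨m, hm⟩ := hΦ φ (Finset.mem_insert_self _ _) a (hS1 a ha)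
      obtain ⟨n, hn⟩ := hΦ φ (Finset.mem_insert_self _ _) b (hS1 b hb)
      rw [hm, hn]
      refine L.sub_mem ?_ ?_
      · rw [Int.cast_smul_eq_zsmul]; exact L.zsmul_mem (hS1 b hb) m
      · rw [Int.cast_smul_eq_zsmul]; exact L.zsmul_mem (hS1 a ha) n)
    refine ⟨S2, hS2, fun x => ?_⟩
    rw [h2, h1, Finset.forall_mem_insert]
    tauto

/-- Elements of the cone of an image are images. -/
theorem cone_image_inv {W' : Type*} [AddCommGroup W'] [Module ℝ W'] [DecidableEq W']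
    (g : W →ₗ[ℝ] W') {S : Finset W} {x : W'} (hx : x ∈ cone (S.image g)) :
    ∃ y ∈ cone S, g y = x := by
  refine cone_ind (p := fun x => ∃ y ∈ cone S, g y = x) ⟨0, zero_mem_cone S, map_zero g⟩ ?_ ?_ ?_ hx
  · rintro x y ⟨a, ha, rfl⟩ ⟨b, hb, rfl⟩
    exact ⟨a + b, cone_add ha hb, map_add g a b⟩
  · rintro t x ht ⟨a, ha, rfl⟩
    exact ⟨t • a, cone_smul ha ht, map_smul g t a⟩
  · intro a ha
    obtain ⟨b, hb, rfl⟩ := Finset.mem_image.1 ha
    exact ⟨b, mem_cone_self hb, rfl⟩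

/-- The intersection of two finitely generated rational cones. -/
theorem cone_inter (L : AddSubgroup W) (Φ : Finset (W →ₗ[ℝ] ℝ))
    (hΦ : ∀ φ ∈ Φ, ∀ x ∈ L, ∃ n : ℤ, φ x = n) (hsep : ∀ x, (∀ φ ∈ Φ, φ x = 0) → x = 0)
    (A B : Finset W) (hA : ∀ a ∈ A, a ∈ L) (hB : ∀ b ∈ B, b ∈ L) :
    ∃ C : Finset W, (∀ a ∈ C, a ∈ L) ∧ ∀ x, x ∈ cone C ↔ x ∈ cone A ∧ x ∈ cone B := by
  classical
  let ia : W →ₗ[ℝ] W × W := LinearMap.prod LinearMap.id LinearMap.id
  let ib : W →ₗ[ℝ] W × W := LinearMap.prod 0 (-LinearMap.id)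
  let S₀ : Finset (W × W) := A.image ia ∪ B.image ib
  have hS₀ : ∀ a ∈ S₀, a ∈ L.prod L := by
    intro a ha
    rcases Finset.mem_union.1 ha with h | h
    · obtain ⟨b, hb, rfl⟩ := Finset.mem_image.1 h
      exact ⟨hA b hb, hA b hb⟩
    · obtain ⟨b, hb, rfl⟩ := Finset.mem_image.1 h
      exact ⟨L.zero_mem, L.neg_mem (hB b hb)⟩
  let Ψ : Finset (W × W →ₗ[ℝ] ℝ) := Φ.image (fun φ => φ ∘ₗ LinearMap.snd ℝ W W) ∪
    Φ.image (fun φ => -(φ ∘ₗ LinearMap.snd ℝ W W))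
  obtain ⟨S', hS', h1⟩ := cut_many (L.prod L) S₀ hS₀ Ψ (by
    intro ψ hψ x hx
    rcases Finset.mem_union.1 hψ with h | h
    · obtain ⟨φ, hφ, rfl⟩ := Finset.mem_image.1 h
      exact hΦ φ hφ x.2 hx.2
    · obtain ⟨φ, hφ, rfl⟩ := Finset.mem_image.1 h
      obtain ⟨n, hn⟩ := hΦ φ hφ x.2 hx.2
      exact ⟨-n, by rw [LinearMap.neg_apply, LinearMap.comp_apply, LinearMap.snd_apply, hn]
                    push_cast
                    ring⟩)
  have hS₀c : ∀ z ∈ cone S₀, ∃ a ∈ cone A, ∃ b ∈ cone B, z = (a, a - b) := by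
    intro z hz
    refine cone_ind (p := fun z => ∃ a ∈ cone A, ∃ b ∈ cone B, z = (a, a - b))
      ⟨0, zero_mem_cone A, 0, zero_mem_cone B, by rw [sub_zero]; rfl⟩ ?_ ?_ ?_ hz
    · rintro x y ⟨a, ha, b, hb, rfl⟩ ⟨a', ha', b', hb', rfl⟩
      refine ⟨a + a', cone_add ha ha', b + b', cone_add hb hb', ?_⟩
      rw [Prod.mk_add_mk]
      congr 1
      abel
    · rintro t x ht ⟨a, ha, b, hb, rfl⟩
      refine ⟨t • a, cone_smul ha ht, t • b, cone_smul hb ht, ?_⟩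
      rw [Prod.smul_mk, smul_sub]
    · intro z hz
      rcases Finset.mem_union.1 hz with h | h
      · obtain ⟨a, ha, rfl⟩ := Finset.mem_image.1 h
        refine ⟨a, mem_cone_self ha, 0, zero_mem_cone B, ?_⟩
        rw [sub_zero]
        rfl
      · obtain ⟨b, hb, rfl⟩ := Finset.mem_image.1 h
        refine ⟨0, zero_mem_cone A, b, mem_cone_self hb, ?_⟩
        rw [zero_sub]
        rfl
  have hz2 : ∀ z : W × W, (∀ ψ ∈ Ψ, 0 ≤ ψ z) ↔ z.2 = 0 := by
    intro z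
    constructor
    · intro h
      refine hsep _ fun φ hφ => ?_
      have e1 := h _ (Finset.mem_union_left _ (Finset.mem_image_of_mem
        (fun φ : W →ₗ[ℝ] ℝ => φ ∘ₗ LinearMap.snd ℝ W W) hφ))
      have e2 := h _ (Finset.mem_union_right _ (Finset.mem_image_of_mem
        (fun φ : W →ₗ[ℝ] ℝ => -(φ ∘ₗ LinearMap.snd ℝ W W)) hφ))
      rw [LinearMap.neg_apply, LinearMap.comp_apply, LinearMap.snd_apply] at e2
      rw [LinearMap.comp_apply, LinearMap.snd_apply] at e1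
      linarith
    · intro h ψ hψ
      rcases Finset.mem_union.1 hψ with h' | h'
      · obtain ⟨φ, hφ, rfl⟩ := Finset.mem_image.1 h'
        rw [LinearMap.comp_apply, LinearMap.snd_apply, h, map_zero]
      · obtain ⟨φ, hφ, rfl⟩ := Finset.mem_image.1 h'
        rw [LinearMap.neg_apply, LinearMap.comp_apply, LinearMap.snd_apply, h, map_zero, neg_zero]
  refine ⟨S'.image (LinearMap.fst ℝ W W), ?_, fun x => ⟨fun hx => ?_, ?_⟩⟩
  · intro a ha
    obtain ⟨b, hb, rfl⟩ := Finset.mem_image.1 ha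
    exact (hS' b hb).1
  · obtain ⟨z, hz, rfl⟩ := cone_image_inv _ hx
    obtain ⟨h2, h3⟩ := (h1 z).1 hz
    obtain ⟨a, ha, b, hb, rfl⟩ := hS₀c z h2
    have h4 : a - b = 0 := (hz2 _).1 h3
    rw [sub_eq_zero] at h4
    exact ⟨ha, h4 ▸ hb⟩
  · rintro ⟨hxA, hxB⟩
    have h2 : ((x, 0) : W × W) ∈ cone S' := by
      refine (h1 _).2 ⟨?_, (hz2 _).2 rfl⟩
      have e1 : ((x, 0) : W × W) = ia x + ib x := by
        change (x, 0) = (x, x) + (0, -x)
        rw [Prod.mk_add_mk, add_zero, add_neg_cancel]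
      rw [e1]
      exact cone_add (cone_mono Finset.subset_union_left (cone_image ia hxA))
        (cone_mono Finset.subset_union_right (cone_image ib hxB))
    exact cone_image (LinearMap.fst ℝ W W) h2

/-- The intersection of finitely many finitely generated rational cones. -/
theorem cone_inters (L : AddSubgroup W) (Φ : Finset (W →ₗ[ℝ] ℝ))
    (hΦ : ∀ φ ∈ Φ, ∀ x ∈ L, ∃ n : ℤ, φ x = n) (hsep : ∀ x, (∀ φ ∈ Φ, φ x = 0) → x = 0)
    {κ : Type*} (s : Finset κ) (hs : s.Nonempty) (A : κ → Finset W)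
    (hA : ∀ k ∈ s, ∀ a ∈ A k, a ∈ L) :
    ∃ C : Finset W, (∀ a ∈ C, a ∈ L) ∧ ∀ x, x ∈ cone C ↔ ∀ k ∈ s, x ∈ cone (A k) := by
  classical
  induction hs using Finset.Nonempty.cons_induction with
  | singleton k =>
    exact ⟨A k, hA k (Finset.mem_singleton_self k), fun x => by simp⟩
  | cons k s hk _ ih =>
    obtain ⟨C, hC, h1⟩ := ih fun k' hk' => hA k' (Finset.mem_cons_of_mem hk')
    obtain ⟨C', hC', h2⟩ := cone_inter L Φ hΦ hsep (A k) C (hA k (Finset.mem_cons_self k s)) hC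
    refine ⟨C', hC', fun x => ?_⟩
    rw [h2, h1, Finset.forall_mem_cons]

end Run7.h323.CC
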