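import Pool.Agent.Y167.Stm
import Pool.Agent.Run7.h323.TQ.Defs

/-!
# Cones of divisors on toric bundles over quotients of complex tori: definitions

`X = V / Γ` is the quotient of a complex torus by a finite group, `Y → X` the toric bundle given by the
smooth complete fan with the rays `u i`, `i ∈ ι`, and the cones `σ ∈ S`, and by the line bundles `c i`
on `X` with the Chern forms `Hc i`; see `Pool.Agent.Q47.TB.Defs`. `X → Z` is a fibration, given by a
linear map with kernel `E`, embedded by `j : E → V`; see `Pool.Agent.Y167.Defs`.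
-/

set_option autoImplicit false

namespace Run7.h323.CC

open Pool.Agent.W594.SYZ2 Pool.Agent.TH735.AQ Q47.TB Run7.h323.TQ MvPolynomial
open Pool.Agent.Y167 (AffGrp IsClass N1 Normalizes cone)

variable {V E : Type*} [NormedAddCommGroup V] [NormedSpace ℂ V]
  [NormedAddCommGroup E] [NormedSpace ℂ E] {Γ : AffGrp V} {ι : Type*} [Fintype ι] {n : ℕ}

/-- The real divisors `∑ d_i D_i` on the toric variety which are linearly equivalent to zero. -/
def principal (u : ι → Fin n → ℤ) : Submodule ℝ (ι → ℝ) where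
  carrier := {d | ∃ q : Fin n → ℝ, ∀ i, d i = ∑ k, q k * u i k}
  add_mem' := by
    rintro d e ⟨q, hq⟩ ⟨p, hp⟩
    refine ⟨q + p, fun i => ?_⟩
    rw [Pi.add_apply, hq, hp, ← Finset.sum_add_distrib]
    exact Finset.sum_congr rfl fun k _ => by rw [Pi.add_apply]; ring
  zero_mem' := ⟨0, fun i => by simp⟩
  smul_mem' := by
    rintro t d ⟨q, hq⟩
    refine ⟨t • q, fun i => ?_⟩
    rw [Pi.smul_apply, hq, smul_eq_mul, Finset.mul_sum]
    exact Finset.sum_congr rfl fun k _ => by rw [Pi.smul_apply, smul_eq_mul]; ring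

/-- The space `N^1(F)` of the toric variety `F`: the real divisors `∑ d_i D_i` modulo linear
equivalence. -/
abbrev Cl (u : ι → Fin n → ℤ) : Type _ := (ι → ℝ) ⧸ principal u

/-- The class of `∑ d_i D_i`. -/
def cl (u : ι → Fin n → ℤ) (d : ι → ℝ) : Cl u := Submodule.Quotient.mk d

/-- The space `N^1(Y/Z) = N^1(F) ⊕ N^1(X/Z)`. The class of `O_Y(d; L)` is the pair of the class of
`∑ d_i D_i` and the class of `L`. -/
abbrev N1Y (u : ι → Fin n → ℤ) (Γ : AffGrp V) (j : E →ₗ[ℂ] V) : Type _ := Cl u × N1 Γ j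

variable (u : ι → Fin n → ℤ) (S : Set (Set ι)) (c : ι → LineBundle Γ) (Hc : ι → V → V → ℂ)
  (j : E →ₗ[ℂ] V)

/-- `x` is the class of `O_Y(d; L)`. -/
def IsClassY (d : ι → ℤ) (L : LineBundle Γ) (x : N1Y u Γ j) : Prop :=
  x.1 = cl u (fun i => (d i : ℝ)) ∧ IsClass j L x.2.1

/-- The integral classes: the classes of line bundles. -/
def integral (Γ : AffGrp V) : Set (N1Y u Γ j) :=
  {x | ∃ (d : ι → ℤ) (L : LineBundle Γ), IsClassY u j d L x}

/-- The class `x` is the sum of the class of `∑ β_i D_i` and of the class of a nef divisor on `X`,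
where the `β_i` are nonnegative real numbers with `β_i = 0` for `i ∈ τ`. -/
def IsSum (x : N1Y u Γ j) (τ : Set ι) : Prop :=
  ∃ β : ι → ℝ, (∀ i, 0 ≤ β i) ∧ (∀ i ∈ τ, β i = 0) ∧ x.1 = cl u β ∧
    ∀ e : E, 0 ≤ (x.2.1 e e - ∑ i, (β i : ℂ) * Hc i (j e) (j e)).re

/-- The nef cone. For the maximal cone `σ` the number `β_i`, `i ∉ σ`, of `IsSum` is the degree of the
class on a curve in the fibres of `Y → X`, and `x - ∑ β_i D_i` is the restriction of `x` to the section
`x_i = 0`, `i ∈ σ`, of `Y → X`. -/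
def nefCone : Set (N1Y u Γ j) := {x | ∀ σ, IsMax S σ → IsSum u Hc j x σ}

/-- The classes of effective Cartier divisors: the classes of line bundles which have a section, not
identically zero. -/
def effective : Set (N1Y u Γ j) :=
  {x | ∃ (d : ι → ℤ) (L : LineBundle Γ) (F : V → MvPolynomial ι ℂ), IsClassY u j d L x ∧
    IsSection u c d L.e F ∧ ∃ v, F v ≠ 0}

/-- The effective cone: the convex cone spanned by the classes of effective divisors. -/
def effCone : Set (N1Y u Γ j) :=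
  {x | ∃ T : Finset (N1Y u Γ j), ↑T ⊆ effective u c j ∧ x ∈ cone T}

/-- `O_Y(d; L)` is ample, where `H` is the Chern form of `L`: it is ample on the fibres and its
restrictions to the sections `x_i = 0`, `i ∈ σ`, of `Y → X` are ample. -/
def IsAmple (d : ι → ℤ) (H : V → V → ℂ) : Prop :=
  ∀ σ, IsMax S σ → ∃ β : ι → ℕ, (∀ i, β i = 0 ↔ i ∈ σ) ∧ LinEquiv u (fun i => (β i : ℤ)) d ∧
    IsPositiveForm fun v w => H v w - ∑ i, (β i : ℂ) * Hc i v w

/-- An effective divisor with real coefficients on `Y`: `Δ = ∑ r_k D_k`, where `D_k` is defined by the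
section `F k` of `O_Y(d k; L k)`, which is not identically zero, and `H k` is the Chern form of
`L k`. -/
structure EffDivY (κ : Type*) where
  d : κ → ι → ℤ
  L : κ → LineBundle Γ
  H : κ → V → V → ℂ
  F : κ → V → MvPolynomial ι ℂ
  r : κ → ℝ
  chern : ∀ k, IsChernForm (L k) (H k)
  sect : ∀ k, IsSection u c (d k) (L k).e (F k)
  ne_zero : ∀ k, ∃ v, F k v ≠ 0
  nonneg : ∀ k, 0 ≤ r k

variable {u c} {κ : Type*} [Fintype κ]

/-- `K_Y + Δ` is numerically trivial over `Z`: here `K = O_X(m K_X)` is a line bundle, `ρ` defines the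
ramification divisor of `V → X`, and `HK` is the Chern form of `K`; the canonical divisor of `Y` is
`K_X - ∑ D_i`, and `D_i` is a divisor of `O_Y(1_i; c_i)`. -/
def NumTrivialY (Δ : EffDivY u c κ) : Prop :=
  ∃ (m : ℕ) (ρ : V → ℂ) (K : LineBundle Γ) (HK : V → V → ℂ), 1 ≤ m ∧ IsRamification Γ ρ ∧
    IsLogPluricanonical K m ρ (fun _ => 1) ∧ IsChernForm K HK ∧
      cl u (fun i => ∑ k, Δ.r k * Δ.d k i - 1) = 0 ∧
      ∀ a b : E, HK (j a) (j b) + m * (∑ k, (Δ.r k : ℂ) * Δ.H k (j a) (j b)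
        - ∑ i, Hc i (j a) (j b)) = 0

/-- The restriction of the pair `(Y, Δ)` to some fibre of `Y → X` is Kawamata log terminal: the
function `∏ |F_k| ^ (-2 r_k)` is locally integrable on the set of the Cox coordinates of points. (If
`(Y, Δ)` is Kawamata log terminal then so are the restrictions to the general fibres.) -/
def IsKltY (Δ : EffDivY u c κ) : Prop :=
  ∃ v, ∀ x : ι → ℂ, {i | x i = 0} ∈ S →
    ∃ r > 0, ∫⁻ y in Metric.ball x r, ∏ k, ‖eval y (Δ.F k v)‖ₑ ^ (-(2 * Δ.r k)) < ⊤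

variable (u c)

/-- The map `(v, x) ↦ (f v, φ(v) x)` induces an automorphism of `Y`. -/
structure IsLift (f : V ≃ᵃ[ℂ] V) (φ : ι → V → ℂ) : Prop where
  norm : Normalizes Γ f
  holo : ∀ i, Differentiable ℂ (φ i)
  ne_zero : ∀ i v, φ i v ≠ 0
  eq : ∀ γ γ' : Γ, (γ' : V ≃ᵃ[ℂ] V) = f * γ * f⁻¹ → ∀ v, ∃ t : ι → ℂˣ,
    (∀ k, ∏ i, t i ^ u i k = 1) ∧ ∀ i,
      φ i ((γ : V ≃ᵃ[ℂ] V) v) * (c i).e γ v = t i * ((c i).e γ' (f v) * φ i v)

variable {u c}

/-- The automorphism of `Y` induced by `(v, x) ↦ (f v, φ(v) x)` maps the components `D_k` of `Δ` to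
themselves. -/
def Fixes (Δ : EffDivY u c κ) (f : V ≃ᵃ[ℂ] V) (φ : ι → V → ℂ) : Prop :=
  ∀ k, Δ.r k ≠ 0 → ∃ ε : V → ℂ, (∀ v, ε v ≠ 0) ∧
    ∀ v x, eval (fun i => φ i v * x i) (Δ.F k (f v)) = ε v * eval x (Δ.F k v)

variable {j}

/-- `g` is the pullback on `N^1(Y/Z)` by an automorphism of `Y` induced by `(v, x) ↦ (f v, φ(v) x)`. It
fixes the classes on the fibres, and the restrictions `L ⊗ ∏ c_i ^ (-d_i)` of `O_Y(d; L)` are pulled
back by `f`. -/
def IsPullback (f : V ≃ᵃ[ℂ] V) (g : N1Y u Γ j ≃ₗ[ℝ] N1Y u Γ j) : Prop :=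
  ∀ (x : N1Y u Γ j), (g x).1 = x.1 ∧ ∀ d : ι → ℝ, x.1 = cl u d → ∀ a b a' b' : E,
    j a' = f.linear (j a) → j b' = f.linear (j b) →
      (g x).2.1 a b - ∑ i, (d i : ℂ) * Hc i (j a) (j b) =
        x.2.1 a' b' - ∑ i, (d i : ℂ) * Hc i (j a') (j b')

end Run7.h323.CC
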