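import Pool.Agent.Run7.h323.TQ.Fan
import Pool.Agent.Run7.h323.CC.Defs

/-!
# Bases given by the maximal cones of a smooth complete fan
-/

set_option autoImplicit false
set_option linter.unusedSectionVars false

namespace Run7.h323.CC

open Q47.TB Run7.h323.TQ

variable {ι : Type*} [Fintype ι] {n : ℕ}

/-- The rays of a maximal cone generate the lattice. -/
theorem max_basis {u : ι → Fin n → ℤ} {S : Set (Set ι)} (hS : IsSmoothFan u S) {σ : Set ι}
    (hσ : IsMax S σ) (w₀ : Fin n → ℤ) :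
    ∃ b : ι → ℤ, (∀ i, i ∉ σ → b i = 0) ∧ ∀ k, ∑ i, b i * u i k = w₀ k := by
  classical
  let e₀ : ι → ℕ := fun i => if i ∈ σ then 1 else 0
  let s : Fin n → ℤ := fun k => ∑ i, (e₀ i : ℤ) * u i k
  let w : ℕ → Fin n → ℤ := fun N k => w₀ k + N * s k
  choose a ha using fun N => (hS.rep (w N)).exists
  obtain ⟨N, N', hlt, hle⟩ := wellQuasiOrdered_le a
  let e : ι → ℕ := fun i => a N' i - a N i
  have he : ∀ i, (e i : ℤ) = (a N' i : ℤ) - a N i := fun i => by
    have h0 : a N i ≤ a N' i := hle i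
    simp only [e]
    omega
  have h1 : ∀ k, ∑ i, (e i : ℤ) * u i k = ((N' - N : ℕ) : ℤ) * s k := by
    intro k
    have h2 := (ha N').2 k
    have h3 := (ha N).2 k
    simp only [he, sub_mul, Finset.sum_sub_distrib, h2, h3, w]
    rw [Nat.cast_sub hlt.le]
    ring
  have hsupp : {i | e i ≠ 0} ⊆ {i | a N' i ≠ 0} := by
    intro i hi
    have hi' : e i ≠ 0 := hi
    change a N' i ≠ 0
    simp only [e] at hi'
    omega
  have h2 : {i | e i ≠ 0} ∈ S := hS.face _ (ha N').1 _ hsupp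
  let e' : ι → ℕ := fun i => (N' - N) * e₀ i
  have h3 : {i | e' i ≠ 0} = σ := by
    ext i
    have hN : N' - N ≠ 0 := by omega
    simp only [Set.mem_ofPred_eq, e', e₀]
    split_ifs with h <;> simp [h, hN]
  have h4 : ∀ k, ∑ i, (e' i : ℤ) * u i k = ((N' - N : ℕ) : ℤ) * s k := by
    intro k
    simp only [s, Finset.mul_sum, e']
    push_cast
    exact Finset.sum_congr rfl fun i _ => by ring
  have h5 : e = e' := (hS.rep fun k => ((N' - N : ℕ) : ℤ) * s k).unique ⟨h2, h1⟩
    ⟨by rw [h3]; exact hσ.1, h4⟩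
  have h6 : {i | a N' i ≠ 0} = σ := by
    refine hσ.2 _ (ha N').1 ?_
    rw [← h3, ← h5]
    exact hsupp
  refine ⟨fun i => a N' i - N' * e₀ i, fun i hi => ?_, fun k => ?_⟩
  · have h7 : a N' i = 0 := by
      by_contra h9
      exact hi (h6 ▸ (show i ∈ {i | a N' i ≠ 0} from h9))
    simp [h7, e₀, hi]
  · have h7 := (ha N').2 k
    calc ∑ i, ((a N' i : ℤ) - N' * e₀ i) * u i k
        = ∑ i, (a N' i : ℤ) * u i k - N' * ∑ i, (e₀ i : ℤ) * u i k := by
          rw [Finset.mul_sum, ← Finset.sum_sub_distrib]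
          exact Finset.sum_congr rfl fun i _ => by ring
      _ = w₀ k := by
          rw [h7]
          simp only [w, s]
          ring

/-- The rays of a cone are linearly independent. -/
theorem cone_indep {u : ι → Fin n → ℤ} {S : Set (Set ι)} (hS : IsSmoothFan u S) {σ : Set ι}
    (hσ : σ ∈ S) {b : ι → ℤ} (hb : ∀ i, i ∉ σ → b i = 0) (h0 : ∀ k, ∑ i, b i * u i k = 0) :
    b = 0 := by
  classical
  have h1 : (fun i => (b i).toNat) = fun i => (-b i).toNat := by
    refine (hS.rep fun k => ∑ i, ((b i).toNat : ℤ) * u i k).unique ⟨?_, fun k => rfl⟩ ⟨?_, fun k => ?_⟩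
    · refine hS.face σ hσ _ fun i hi => ?_
      by_contra h
      exact hi (by rw [hb i h]; rfl)
    · refine hS.face σ hσ _ fun i hi => ?_
      by_contra h
      exact hi (by rw [hb i h]; rfl)
    · have h2 : ∀ i, ((-b i).toNat : ℤ) = ((b i).toNat : ℤ) - b i := fun i => by omega
      simp only [h2, sub_mul, Finset.sum_sub_distrib]
      rw [h0, sub_zero]
  funext i
  have h2 := congrFun h1 i
  simp only [Pi.zero_apply]
  omega

/-- The dual basis of a maximal cone: `e_k = ∑ b k i • u i`. -/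
structure IsDual (u : ι → Fin n → ℤ) (σ : Set ι) (b : Fin n → ι → ℤ) : Prop where
  supp : ∀ k i, i ∉ σ → b k i = 0
  rep : ∀ k l, ∑ i, b k i * u i l = if l = k then 1 else 0
  dual' : ∀ i ∈ σ, ∀ l, (l = i → ∑ k, u i k * b k l = 1) ∧ (l ≠ i → ∑ k, u i k * b k l = 0)

theorem IsDual.dual [DecidableEq ι] {u : ι → Fin n → ℤ} {σ : Set ι} {b : Fin n → ι → ℤ}
    (hb : IsDual u σ b) (i : ι) (hi : i ∈ σ) (l : ι) :
    ∑ k, u i k * b k l = if l = i then 1 else 0 := by
  split_ifs with h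
  · exact (hb.dual' i hi l).1 h
  · exact (hb.dual' i hi l).2 h

theorem exists_dual {u : ι → Fin n → ℤ} {S : Set (Set ι)} (hS : IsSmoothFan u S) {σ : Set ι}
    (hσ : IsMax S σ) : ∃ b, IsDual u σ b := by
  classical
  choose b hb1 hb2 using fun k : Fin n => max_basis hS hσ (fun l => if l = k then 1 else 0)
  refine ⟨b, hb1, hb2, fun i hi => ?_⟩
  have h1 : (fun l => ∑ k, u i k * b k l - if l = i then (1 : ℤ) else 0) = 0 := by
    refine cone_indep hS hσ.1 (fun l hl => ?_) fun k' => ?_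
    · have h2 : l ≠ i := fun h => hl (h ▸ hi)
      rw [if_neg h2, sub_zero]
      exact Finset.sum_eq_zero fun k _ => by rw [hb1 k l hl, mul_zero]
    · calc ∑ l, (∑ k, u i k * b k l - if l = i then (1 : ℤ) else 0) * u l k'
          = ∑ k, u i k * ∑ l, b k l * u l k' - ∑ l, (if l = i then (1 : ℤ) else 0) * u l k' := by
            simp only [sub_mul, Finset.sum_sub_distrib, Finset.sum_mul, Finset.mul_sum]
            rw [Finset.sum_comm]
            congr 1
            exact Finset.sum_congr rfl fun k _ => Finset.sum_congr rfl fun l _ => by ring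
        _ = 0 := by
            simp only [hb2]
            simp
  intro l
  have h2 := congrFun h1 l
  simp only [Pi.zero_apply] at h2
  refine ⟨fun h => ?_, fun h => ?_⟩
  · rw [if_pos h] at h2
    linarith
  · rw [if_neg h] at h2
    linarith

/-- The linear map to the multiple of the class which is zero along `σ`. -/
noncomputable def resL (u : ι → Fin n → ℤ) (b : Fin n → ι → ℤ) : (ι → ℝ) →ₗ[ℝ] (ι → ℝ) where
  toFun d := fun i => d i - ∑ k, (∑ l, (b k l : ℝ) * d l) * u i k
  map_add' d e := by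
    funext i
    simp only [Pi.add_apply, mul_add, Finset.sum_add_distrib, add_mul]
    ring
  map_smul' t d := by
    funext i
    simp only [Pi.smul_apply, smul_eq_mul, RingHom.id_apply, mul_sub]
    congr 1
    rw [Finset.mul_sum]
    refine Finset.sum_congr rfl fun k _ => ?_
    have : ∑ l, (b k l : ℝ) * (t * d l) = t * ∑ l, (b k l : ℝ) * d l := by
      rw [Finset.mul_sum]
      exact Finset.sum_congr rfl fun l _ => by ring
    rw [this]
    ring

theorem resL_apply (u : ι → Fin n → ℤ) (b : Fin n → ι → ℤ) (d : ι → ℝ) (i : ι) :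
    resL u b d i = d i - ∑ k, (∑ l, (b k l : ℝ) * d l) * u i k := rfl

theorem cl_eq_cl {u : ι → Fin n → ℤ} {d e : ι → ℝ} :
    cl u d = cl u e ↔ ∃ q : Fin n → ℝ, ∀ i, d i - e i = ∑ k, q k * u i k :=
  Submodule.Quotient.eq (principal u)

theorem cl_resL (u : ι → Fin n → ℤ) (b : Fin n → ι → ℤ) (d : ι → ℝ) :
    cl u (resL u b d) = cl u d := by
  rw [cl_eq_cl]
  refine ⟨fun k => -∑ l, (b k l : ℝ) * d l, fun i => ?_⟩
  rw [resL_apply]
  simp only [neg_mul, Finset.sum_neg_distrib]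
  ring

theorem IsDual.principal {u : ι → Fin n → ℤ} {σ : Set ι} {b : Fin n → ι → ℤ} (hb : IsDual u σ b)
    (q : Fin n → ℝ) (k : Fin n) : ∑ l, (b k l : ℝ) * ∑ m, q m * u l m = q k := by
  have h1 : ∀ m, ∑ l, (b k l : ℝ) * u l m = if m = k then 1 else 0 := fun m => by
    have := hb.rep k m
    have h2 : ((∑ l, b k l * u l m : ℤ) : ℝ) = ((if m = k then 1 else 0 : ℤ) : ℝ) := by rw [this]
    push_cast at h2
    exact h2
  calc ∑ l, (b k l : ℝ) * ∑ m, q m * u l m = ∑ m, q m * ∑ l, (b k l : ℝ) * u l m := by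
        simp only [Finset.mul_sum]
        rw [Finset.sum_comm]
        exact Finset.sum_congr rfl fun m _ => Finset.sum_congr rfl fun l _ => by ring
    _ = q k := by
        simp only [h1]
        simp

/-- The divisor in a class which is zero along `σ`. -/
noncomputable def betaQ {u : ι → Fin n → ℤ} {σ : Set ι} {b : Fin n → ι → ℤ} (hb : IsDual u σ b) :
    Cl u →ₗ[ℝ] (ι → ℝ) :=
  (principal u).liftQ (resL u b) (by
    rintro d ⟨q, hq⟩
    rw [LinearMap.mem_ker]
    funext i
    rw [resL_apply, Pi.zero_apply]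
    have h1 : ∀ k, ∑ l, (b k l : ℝ) * d l = q k := fun k => by
      simp only [hq]
      exact hb.principal q k
    simp only [h1]
    rw [hq, sub_self])

theorem betaQ_cl {u : ι → Fin n → ℤ} {σ : Set ι} {b : Fin n → ι → ℤ} (hb : IsDual u σ b)
    (d : ι → ℝ) : betaQ hb (cl u d) = resL u b d := rfl

theorem cl_betaQ {u : ι → Fin n → ℤ} {σ : Set ι} {b : Fin n → ι → ℤ} (hb : IsDual u σ b)
    (x : Cl u) : cl u (betaQ hb x) = x := by
  obtain ⟨d, rfl⟩ := Submodule.Quotient.mk_surjective _ x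
  exact cl_resL u b d

theorem resL_of_zero {u : ι → Fin n → ℤ} {σ : Set ι} {b : Fin n → ι → ℤ} (hb : IsDual u σ b)
    {d : ι → ℝ} (hd : ∀ i ∈ σ, d i = 0) : resL u b d = d := by
  funext i
  rw [resL_apply]
  have h1 : ∀ k, ∑ l, (b k l : ℝ) * d l = 0 := fun k => by
    refine Finset.sum_eq_zero fun l _ => ?_
    by_cases h : l ∈ σ
    · rw [hd l h, mul_zero]
    · rw [hb.supp k l h]
      simp
  simp only [h1, zero_mul, Finset.sum_const_zero, sub_zero]

theorem betaQ_unique {u : ι → Fin n → ℤ} {σ : Set ι} {b : Fin n → ι → ℤ} (hb : IsDual u σ b)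
    {x : Cl u} {d : ι → ℝ} (hx : x = cl u d) (hd : ∀ i ∈ σ, d i = 0) : betaQ hb x = d := by
  rw [hx, betaQ_cl, resL_of_zero hb hd]

theorem resL_zero {u : ι → Fin n → ℤ} {σ : Set ι} {b : Fin n → ι → ℤ} (hb : IsDual u σ b)
    (d : ι → ℝ) {i : ι} (hi : i ∈ σ) : resL u b d i = 0 := by
  classical
  rw [resL_apply]
  have h1 : ∀ l, ∑ k, (u i k : ℝ) * b k l = if l = i then 1 else 0 := fun l => by
    have := hb.dual i hi l
    have h2 : ((∑ k, u i k * b k l : ℤ) : ℝ) = ((if l = i then 1 else 0 : ℤ) : ℝ) := by rw [this]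
    push_cast at h2
    exact h2
  have h2 : ∑ k, (∑ l, (b k l : ℝ) * d l) * u i k = ∑ l, d l * ∑ k, (u i k : ℝ) * b k l := by
    simp only [Finset.mul_sum, Finset.sum_mul]
    rw [Finset.sum_comm]
    exact Finset.sum_congr rfl fun m _ => Finset.sum_congr rfl fun l _ => by ring
  rw [h2]
  simp only [h1]
  simp

theorem betaQ_zero {u : ι → Fin n → ℤ} {σ : Set ι} {b : Fin n → ι → ℤ} (hb : IsDual u σ b)
    (x : Cl u) {i : ι} (hi : i ∈ σ) : betaQ hb x i = 0 := by
  obtain ⟨d, rfl⟩ := Submodule.Quotient.mk_surjective _ x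
  exact resL_zero hb d hi

theorem resL_int {u : ι → Fin n → ℤ} {b : Fin n → ι → ℤ} (d : ι → ℤ) (i : ι) :
    ∃ m : ℤ, resL u b (fun i => (d i : ℝ)) i = m := by
  refine ⟨d i - ∑ k, (∑ l, b k l * d l) * u i k, ?_⟩
  rw [resL_apply]
  push_cast
  rfl

/-- There is a positive relation between the rays. -/
theorem exists_pos {u : ι → Fin n → ℤ} {S : Set (Set ι)} (hS : IsSmoothFan u S) :
    ∃ a : ι → ℕ, (∀ i, 0 < a i) ∧ ∀ k, ∑ i, (a i : ℤ) * u i k = 0 := by
  obtain ⟨a, ⟨-, ha⟩, -⟩ := hS.rep fun k => -∑ i, u i k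
  refine ⟨fun i => a i + 1, fun i => Nat.succ_pos _, fun k => ?_⟩
  have h1 := ha k
  push_cast
  simp only [add_mul, one_mul, Finset.sum_add_distrib]
  rw [h1, neg_add_cancel]

/-- The fan is complete over the real numbers. -/
theorem real_complete {u : ι → Fin n → ℤ} {S : Set (Set ι)} (hS : IsSmoothFan u S)
    (w : Fin n → ℝ) : ∃ a : ι → ℝ, (∀ i, 0 ≤ a i) ∧ {i | a i ≠ 0} ∈ S ∧
      ∀ k, ∑ i, a i * u i k = w k := by
  classical
  -- integral approximations
  choose a ha using fun m : ℕ => (hS.rep fun k => ⌊(m : ℝ) * w k⌋).exists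
  have hτ : ∀ m, ∃ σ, IsMax S σ ∧ {i | a m i ≠ 0} ⊆ σ := fun m => exists_max (ha m).1
  choose τ hτ1 hτ2 using hτ
  obtain ⟨σ, hσ⟩ : ∃ σ : Set ι, {m | τ m = σ}.Infinite := by
    by_contra hcon
    push Not at hcon
    have h1 : (Set.univ : Set ℕ) ⊆ ⋃ σ : Set ι, {m | τ m = σ} := fun m _ => by
      simp
    exact Set.infinite_univ ((Set.finite_iUnion hcon).subset h1)
  have hσ1 : IsMax S σ := by
    obtain ⟨m, hm⟩ := hσ.nonempty
    have hm : τ m = σ := hm
    exact hm ▸ hτ1 m
  obtain ⟨b, hb⟩ := exists_dual hS hσ1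
  have hval : ∀ m, τ m = σ → ∀ i, ∑ k, ((⌊(m : ℝ) * w k⌋ : ℤ) : ℝ) * b k i = a m i := by
    intro m hm i
    have h1 : ∀ k, ((⌊(m : ℝ) * w k⌋ : ℤ) : ℝ) = ∑ l, (a m l : ℝ) * u l k := fun k => by
      rw [← (ha m).2 k]
      push_cast
      rfl
    calc ∑ k, ((⌊(m : ℝ) * w k⌋ : ℤ) : ℝ) * b k i
        = ∑ l, (a m l : ℝ) * ((∑ k, u l k * b k i : ℤ) : ℝ) := by
          simp only [h1, Finset.sum_mul]
          rw [Finset.sum_comm]
          refine Finset.sum_congr rfl fun l _ => ?_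
          push_cast
          rw [Finset.mul_sum]
          exact Finset.sum_congr rfl fun k _ => by ring
      _ = ∑ l, (a m l : ℝ) * ((if i = l then 1 else 0 : ℤ) : ℝ) := by
          refine Finset.sum_congr rfl fun l _ => ?_
          by_cases hl : l ∈ σ
          · rw [hb.dual l hl i]
          · have h2 : a m l = 0 := by
              by_contra h3
              exact hl (hm ▸ hτ2 m (show l ∈ {i | a m i ≠ 0} from h3))
            rw [h2]
            simp
      _ = a m i := by simp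
  let α : ι → ℝ := fun i => ∑ k, w k * b k i
  have hα : ∀ i, 0 ≤ α i := by
    intro i
    by_contra hcon
    push Not at hcon
    set C : ℝ := ∑ k, |(b k i : ℝ)| with hC
    have hC0 : 0 ≤ C := Finset.sum_nonneg fun k _ => abs_nonneg _
    obtain ⟨m, hm1, hm2⟩ : ∃ m : ℕ, τ m = σ ∧ C / (-α i) < m := by
      obtain ⟨m₀, hm₀⟩ := exists_nat_gt (C / (-α i))
      obtain ⟨m, hm, hlt⟩ := hσ.exists_gt m₀
      exact ⟨m, hm, hm₀.trans (by exact_mod_cast hlt)⟩
    have h1 := hval m hm1 i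
    have h2 : (m : ℝ) * α i ≥ a m i - C := by
      rw [← h1]
      have h3 : (m : ℝ) * α i - ∑ k, ((⌊(m : ℝ) * w k⌋ : ℤ) : ℝ) * b k i
          = ∑ k, ((m : ℝ) * w k - ((⌊(m : ℝ) * w k⌋ : ℤ) : ℝ)) * b k i := by
        simp only [α, Finset.mul_sum, sub_mul, Finset.sum_sub_distrib]
        congr 1
        exact Finset.sum_congr rfl fun k _ => by ring
      have h4 : |∑ k, ((m : ℝ) * w k - ((⌊(m : ℝ) * w k⌋ : ℤ) : ℝ)) * b k i| ≤ C := by
        refine (Finset.abs_sum_le_sum_abs _ _).trans (Finset.sum_le_sum fun k _ => ?_)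
        rw [abs_mul]
        refine mul_le_of_le_one_left (abs_nonneg _) ?_
        rw [abs_le]
        constructor
        · linarith [Int.floor_le ((m : ℝ) * w k)]
        · linarith [Int.lt_floor_add_one ((m : ℝ) * w k)]
      have h5 := (abs_le.1 h4).1
      linarith
    have h3 : (0 : ℝ) ≤ a m i := Nat.cast_nonneg _
    rw [div_lt_iff₀ (by linarith)] at hm2
    linarith
  refine ⟨α, hα, hS.face σ hσ1.1 _ fun i hi => ?_, fun l => ?_⟩
  · by_contra h
    refine hi (Finset.sum_eq_zero fun k _ => ?_)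
    rw [hb.supp k i h]
    simp
  · have h1 : ∀ k, ∑ i, (b k i : ℝ) * u i l = if l = k then 1 else 0 := fun k => by
      have h2 : ((∑ i, b k i * u i l : ℤ) : ℝ) = ((if l = k then 1 else 0 : ℤ) : ℝ) := by
        rw [hb.rep k l]
      push_cast at h2
      exact h2
    calc ∑ i, α i * u i l = ∑ k, w k * ∑ i, (b k i : ℝ) * u i l := by
          simp only [α, Finset.sum_mul, Finset.mul_sum]
          rw [Finset.sum_comm]
          exact Finset.sum_congr rfl fun k _ => Finset.sum_congr rfl fun i _ => by ring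
      _ = w l := by
          simp only [h1]
          simp

end Run7.h323.CC
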