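import Pool.Agent.Run7.h323.CC.YFin

/-!
# The cone theorem for toric bundles, in terms of `NY`
-/

set_option autoImplicit false
set_option linter.unusedSectionVars false

namespace Run7.h323.CC

open Pool.Agent.W594.SYZ2 Pool.Agent.TH735.AQ Q47.TB Run7.h323.TQ
open Pool.Agent.Y167 (AffGrp)
open Pool.Agent.Y167.CC (LinGrp Preserves IsFundDomain)

variable {V E : Type*} [NormedAddCommGroup V] [NormedSpace ℂ V] [FiniteDimensional ℂ V]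
  [NormedAddCommGroup E] [NormedSpace ℂ E] [FiniteDimensional ℂ E] {Γ : AffGrp V}
  {j : E →ₗ[ℂ] V} {ι : Type*} [Fintype ι] {n : ℕ} {u : ι → Fin n → ℤ} {S : Set (Set ι)}
  {c : ι → LineBundle Γ} {Hc : ι → V → V → ℂ} {κ : Type*} [Fintype κ]

theorem isConj_iff {f : V ≃ᵃ[ℂ] V} {γ γ' : Elt Γ} :
    IsConj f γ γ' ↔ (γ' : V ≃ᵃ[ℂ] V) = f * γ * f⁻¹ := by
  constructor
  · intro h
    ext v
    have := h (f⁻¹ v)
    have h2 : f (f⁻¹ v) = v := f.apply_symm_apply v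
    simp only [ap, act] at this
    rw [h2] at this
    exact this
  · intro h v
    have h2 : f⁻¹ (f v) = v := f.symm_apply_apply v
    simp only [ap, act, h]
    change f ((γ : V ≃ᵃ[ℂ] V) (f⁻¹ (f v))) = f ((γ : V ≃ᵃ[ℂ] V) v)
    rw [h2]

theorem isAut_of_isLift {f : V ≃ᵃ[ℂ] V} {φ : ι → V → ℂ} (h : IsLift u c f φ) : IsAut u c f φ := by
  refine ⟨fun γ => ⟨⟨f * γ * f⁻¹, (h.norm _).1 γ.2⟩, isConj_iff.2 rfl⟩, fun γ' => ?_, h.holo,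
    h.ne_zero, fun γ γ' hγ v => h.eq γ γ' (isConj_iff.1 hγ) v⟩
  have h1 : f * (f⁻¹ * γ' * f) * f⁻¹ = (γ' : V ≃ᵃ[ℂ] V) := by group
  refine ⟨⟨f⁻¹ * γ' * f, (h.norm _).2 (by rw [h1]; exact γ'.2)⟩, isConj_iff.2 ?_⟩
  exact h1.symm

theorem isPullback_of_isPull {f : V ≃ᵃ[ℂ] V} {g : N1Y u Γ j ≃ₗ[ℝ] N1Y u Γ j}
    (h : IsPullback Hc f g) : IsPull (u := u) (Γ := Γ) (j := j) Hc f g := by
  intro x
  obtain ⟨h1, h2⟩ := h x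
  refine ⟨h1, fun d hd a b a' b' ha hb => ?_⟩
  exact h2 d hd a b a' b' ha hb

/-- The cone theorem for `NY`. -/
theorem mainNY (hS : IsSmoothFan u S) (P : Pre Γ j) (hc : ∀ i, IsChernForm (c i) (Hc i))
    (hproj : IsProjective u S Γ Hc) {Δ : EffDivY u c κ} (hnum : NumTrivialY Hc j Δ)
    (hklt : IsKltY S Δ) {𝒯 : Set (Set ι)} (h𝒯 : 𝒯.Nonempty)
    (hmax : ∀ τ ∈ 𝒯, ∃ σ, IsMax S σ ∧ τ ⊆ σ) (𝒢 : LinGrp (NY u Γ j))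
    (h𝒢L : Preserves 𝒢 (integralY u j Γ))
    (h𝒢N : Preserves 𝒢 (toNY {x : N1Y u Γ j | ∀ τ ∈ 𝒯, IsSum u Hc j x τ}))
    (h𝒢 : HasAll 𝒢 fun g => ∃ f φ, IsAut u c f φ ∧ (∀ v, ∃ e, f v = v + j e) ∧ Fixes Δ f φ ∧
      IsPull Hc f g) :
    HasDomain 𝒢 (integralY u j Γ)
      (toNY {x : N1Y u Γ j | ∀ τ ∈ 𝒯, IsSum u Hc j x τ} ∩ effY u j c) ∧
    toNY {x : N1Y u Γ j | ∀ τ ∈ 𝒯, IsSum u Hc j x τ} ∩ effY u j c =
      convexHull ℝ (toNY {x : N1Y u Γ j | ∀ τ ∈ 𝒯, IsSum u Hc j x τ} ∩ rationalY u j Γ) ∧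
    FiniteFaces 𝒢 (toNY {x : N1Y u Γ j | ∀ τ ∈ 𝒯, IsSum u Hc j x τ} ∩ effY u j c) :=
  mainT hS P hc hproj hnum hklt h𝒯 hmax 𝒢 h𝒢L h𝒢N fun f φ h1 h2 h3 g hg =>
    h𝒢 g ⟨f, φ, isAut_of_isLift h1, h2, h3, isPullback_of_isPull hg⟩

end Run7.h323.CC
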