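import Pool.Agent.Run7.h323.CC.CoreL
import Pool.Agent.Run7.h323.CC.Fin

/-!
# The cone theorem for groups which preserve a commensurable lattice, in terms of `NY`
-/

set_option autoImplicit false
set_option linter.unusedSectionVars false

namespace Run7.h323.CC

open Filter Topology
open Pool.Agent.W594.SYZ2 Pool.Agent.TH735.AQ Q47.TB Run7.h323.TQ
open Pool.Agent.Y167 (AffGrp N1 cone Cp mem_cone_self IsFace)
open Pool.Agent.Y167.CC (LinGrp Preserves IsFundDomain)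

variable {V E : Type*} [NormedAddCommGroup V] [NormedSpace ℂ V] [FiniteDimensional ℂ V]
  [NormedAddCommGroup E] [NormedSpace ℂ E] [FiniteDimensional ℂ E] {Γ : AffGrp V}
  {j : E →ₗ[ℂ] V} {ι : Type*} [Fintype ι] {n : ℕ} {u : ι → Fin n → ℤ} {S : Set (Set ι)}
  {c : ι → LineBundle Γ} {Hc : ι → V → V → ℂ} {κ : Type*} [Fintype κ]

theorem t2_Cl : T2Space (Cl u) := by
  have : IsClosed (principal u : Set (ι → ℝ)) := Submodule.closed_of_finiteDimensional _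
  infer_instance

theorem NfT_eq (𝒯 : Set (Set ι)) : NfT u Hc Γ j (Set.toFinite 𝒯).toFinset =
    {x : N1Y u Γ j | ∀ τ ∈ 𝒯, IsSum u Hc j x τ} := by
  ext x
  simp only [NfT, Set.mem_ofPred_eq, (Set.toFinite 𝒯).mem_toFinset]

/-- The cones are closed. -/
theorem closure_NfT (hS : IsSmoothFan u S) (P : Pre Γ j) (hc : ∀ i, IsChernForm (c i) (Hc i))
    (hproj : IsProjective u S Γ Hc) {𝒯 : Set (Set ι)} (h𝒯 : 𝒯.Nonempty)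
    (hmax : ∀ τ ∈ 𝒯, ∃ σ, IsMax S σ ∧ τ ⊆ σ) :
    closure {x : N1Y u Γ j | ∀ τ ∈ 𝒯, IsSum u Hc j x τ} ⊆ {x | ∀ τ ∈ 𝒯, IsSum u Hc j x τ} := by
  classical
  obtain ⟨d, L, H, hL, hA⟩ := hproj
  have hfin : 𝒯.Finite := Set.toFinite _
  obtain ⟨σ₀, hσ₀, -⟩ := exists_max hS.empty_mem
  obtain ⟨-, H₀, -, -, R, -⟩ := amp_data hc hL P hA hσ₀
  obtain ⟨ξ, Y, D⟩ := cdataY hc hL P R hS hA
    (𝒯 := (Set.toFinite 𝒯).toFinset) (by rwa [(Set.toFinite 𝒯).toFinset_nonempty])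
    (fun τ hτ => hmax τ ((Set.toFinite 𝒯).mem_toFinset.1 hτ))
  have := finDimY (u := u) R
  have := t2_Cl (u := u)
  rw [← NfT_eq]
  intro x hx τ hτ
  exact isSum_limit hS (b := yC u j hL d) fun ε hε =>
    closure_add D.add D.smul D.y_N D.y_int hx hε τ hτ

/-- The cone theorem for `NY` and a commensurable lattice. -/
theorem mainM (hS : IsSmoothFan u S) (P : Pre Γ j) (hc : ∀ i, IsChernForm (c i) (Hc i))
    (hproj : IsProjective u S Γ Hc) {Δ : EffDivY u c κ} (hnum : NumTrivialY Hc j Δ)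
    (hklt : IsKltY S Δ) {𝒯 : Set (Set ι)} (h𝒯 : 𝒯.Nonempty)
    (hmax : ∀ τ ∈ 𝒯, ∃ σ, IsMax S σ ∧ τ ⊆ σ) (M : AddSubgroup (NY u Γ j)) {k : ℕ} (hk : 0 < k)
    (hM1 : ∀ x ∈ integralY u j Γ, (k : ℝ) • x ∈ M)
    (hM2 : ∀ x ∈ M, (k : ℝ) • x ∈ integralY u j Γ)
    (𝒢 : LinGrp (NY u Γ j)) (h𝒢M : ∀ g ∈ 𝒢, ∀ x ∈ M, g x ∈ M)
    (h𝒢N : Preserves 𝒢 (toNY {x : N1Y u Γ j | ∀ τ ∈ 𝒯, IsSum u Hc j x τ} ∩ effY u j c))
    (h𝒢 : HasAll 𝒢 fun g => ∃ f φ, IsAut u c f φ ∧ (∀ v, ∃ e, f v = v + j e) ∧ Fixes Δ f φ ∧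
      IsPull Hc f g) :
    HasDomain 𝒢 (integralY u j Γ)
      (toNY {x : N1Y u Γ j | ∀ τ ∈ 𝒯, IsSum u Hc j x τ} ∩ effY u j c) ∧
    FiniteFaces 𝒢 (toNY {x : N1Y u Γ j | ∀ τ ∈ 𝒯, IsSum u Hc j x τ} ∩ effY u j c) := by
  classical
  obtain ⟨d, L, H, hL, hA⟩ := hproj
  obtain ⟨B, hB1, hB2, hB3⟩ := coreL hS P hc hL hA hnum hklt
    (𝒯 := (Set.toFinite 𝒯).toFinset) (by rwa [(Set.toFinite 𝒯).toFinset_nonempty])
    (fun τ hτ => hmax τ ((Set.toFinite 𝒯).mem_toFinset.1 hτ)) M hk hM1 hM2 𝒢 h𝒢M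
    (by rw [NfT_eq]; exact h𝒢N)
    (fun f φ h1 h2 h3 g hg => h𝒢 g ⟨f, φ, isAut_of_isLift h1, h2, h3, isPullback_of_isPull hg⟩)
  rw [NfT_eq] at hB1 hB2
  have hfd : IsFundDomain (W := N1Y u Γ j) 𝒢
      ({x : N1Y u Γ j | ∀ τ ∈ 𝒯, IsSum u Hc j x τ} ∩ effCone u c j) (cone B) :=
    fund_of_domain hB2 hB3
  have hcone : cone B ⊆ {x : N1Y u Γ j | ∀ τ ∈ 𝒯, IsSum u Hc j x τ} ∩ effCone u c j := by
    intro x hx
    exact (hB2 x).2 ⟨1, 𝒢.one_mem, hx⟩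
  refine ⟨⟨B, fun a ha => (hB1 a ha).1, hcone, hfd⟩, ?_⟩
  obtain ⟨σ₀, hσ₀, -⟩ := exists_max hS.empty_mem
  obtain ⟨-, H₀, -, -, R, -⟩ := amp_data hc hL P hA hσ₀
  have := finDimY (u := u) R
  have hadd : ∀ x ∈ {x : N1Y u Γ j | ∀ τ ∈ 𝒯, IsSum u Hc j x τ}, ∀ y ∈
      {x : N1Y u Γ j | ∀ τ ∈ 𝒯, IsSum u Hc j x τ}, x + y ∈
      {x : N1Y u Γ j | ∀ τ ∈ 𝒯, IsSum u Hc j x τ} := fun x hx y hy τ hτ =>
    IsSum.add hc (hx τ hτ) (hy τ hτ)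
  exact Pool.Agent.Y167.finite_faces (W := N1Y u Γ j)
    (A := {x : N1Y u Γ j | ∀ τ ∈ 𝒯, IsSum u Hc j x τ} ∩ effCone u c j)
      (fun x hx y hy => ⟨hadd x hx.1 y hy.1, eff_add hx.2 hy.2⟩)
      (fun x hx t ht => ⟨fun τ hτ => IsSum.smul hc (hx.1 τ hτ) ht, eff_smul hx.2 ht⟩) 𝒢 h𝒢N hcone
      fun x hx => by
        rw [hfd.1] at hx
        simp only [Set.mem_iUnion, Set.mem_image, exists_prop] at hx
        exact hx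

end Run7.h323.CC
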