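import Pool.Agent.Y167.Main

/-!
# Generalities on the data of `Pool.Agent.Y167.CData`
-/

set_option autoImplicit false

namespace Run7.h323.CC

open Pool.Agent.Y167

variable {W : Type*} [AddCommGroup W] [Module ℝ W]

/-- Finitely many of the forms separate the points. -/
theorem fin_sep [FiniteDimensional ℝ W] {L : AddSubgroup W}
    (hsep : ∀ x : W, x ≠ 0 → ∃ η : W →ₗ[ℝ] ℝ, (∀ y ∈ L, ∃ n : ℤ, η y = n) ∧ η x ≠ 0) :
    ∃ Φ : Finset (W →ₗ[ℝ] ℝ), (∀ φ ∈ Φ, ∀ x ∈ L, ∃ n : ℤ, φ x = n) ∧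
      ∀ x, (∀ φ ∈ Φ, φ x = 0) → x = 0 := by
  classical
  obtain ⟨t, ht, htspan, htli⟩ := exists_linearIndependent ℝ
    {η : W →ₗ[ℝ] ℝ | ∀ y ∈ L, ∃ n : ℤ, η y = n}
  have htfin : t.Finite := htli.setFinite
  refine ⟨htfin.toFinset, fun φ hφ x hx => ht (htfin.mem_toFinset.1 hφ) x hx, fun x hx => ?_⟩
  by_contra hne
  obtain ⟨η, hη, hηx⟩ := hsep x hne
  apply hηx
  have h1 : η ∈ Submodule.span ℝ t := by
    rw [htspan]
    exact Submodule.subset_span hη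
  have h2 : Submodule.span ℝ t ≤ LinearMap.ker (Module.Dual.eval ℝ W x) := by
    rw [Submodule.span_le]
    intro y hy
    exact hx y (htfin.mem_toFinset.2 hy)
  exact h2 h1

/-- The points of a discrete lattice in a bounded part of the cone. -/
theorem fin_small {L : AddSubgroup W} {Nf : Set W} {ξ : W →ₗ[ℝ] ℝ}
    {Φ : Finset (W →ₗ[ℝ] ℝ)} (hΦ : ∀ φ ∈ Φ, ∀ x ∈ L, ∃ n : ℤ, φ x = n)
    (hsep : ∀ x, (∀ φ ∈ Φ, φ x = 0) → x = 0)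
    (hdom : ∀ η : W →ₗ[ℝ] ℝ, ∃ C : ℝ, 0 ≤ C ∧ ∀ x ∈ Nf, |η x| ≤ C * ξ x) (C : ℝ) :
    {x | x ∈ L ∧ x ∈ Nf ∧ ξ x ≤ C}.Finite := by
  classical
  choose K hK0 hK using hdom
  let f : W → (Φ → ℝ) := fun x φ => φ.1 x
  refine Set.Finite.of_finite_image (f := f) ?_ ?_
  · refine (Set.Finite.pi' (t := fun φ : Φ => ((fun z : ℤ => (z : ℝ)) ''
      {z : ℤ | |(z : ℝ)| ≤ K φ.1 * C})) fun φ => (finite_abs _).image _).subset ?_
    rintro _ ⟨x, ⟨hxL, hxN, hxC⟩, rfl⟩ φ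
    obtain ⟨n, hn⟩ := hΦ φ.1 φ.2 x hxL
    refine ⟨n, ?_, hn.symm⟩
    change |(n : ℝ)| ≤ K φ.1 * C
    rw [← hn]
    exact (hK φ.1 x hxN).trans (mul_le_mul_of_nonneg_left hxC (hK0 φ.1))
  · rintro x - y - hxy
    have h1 : x - y = 0 := hsep _ fun φ hφ => by
      have := congrFun hxy ⟨φ, hφ⟩
      simp only [f] at this
      rw [map_sub, this, sub_self]
    exact sub_eq_zero.1 h1

/-- Construction of the data. -/
theorem mk_cdata [FiniteDimensional ℝ W] {L : AddSubgroup W} {Nf : Set W} {ξ : W →ₗ[ℝ] ℝ} {y₀ : W}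
    (hspan : Submodule.span ℝ (L : Set W) = ⊤)
    (add : ∀ x ∈ Nf, ∀ y ∈ Nf, x + y ∈ Nf)
    (smul : ∀ t : ℝ, 0 ≤ t → ∀ x ∈ Nf, t • x ∈ Nf)
    (xi_int : ∀ x ∈ L, ∃ n : ℤ, ξ x = n)
    (xi_pos : ∀ x ∈ Nf, x ≠ 0 → 0 < ξ x)
    (y_L : y₀ ∈ L) (y_N : y₀ ∈ Nf)
    (y_int : ∀ x : W, ∃ C : ℝ, 0 < C ∧ C • y₀ - x ∈ Nf)
    (dom : ∀ η : W →ₗ[ℝ] ℝ, ∃ C : ℝ, 0 ≤ C ∧ ∀ x ∈ Nf, |η x| ≤ C * ξ x)
    (sep : ∀ x : W, x ≠ 0 → ∃ η : W →ₗ[ℝ] ℝ, (∀ y ∈ L, ∃ n : ℤ, η y = n) ∧ η x ≠ 0) :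
    ∃ Y : Finset W, CData L Nf ξ y₀ Y := by
  classical
  obtain ⟨Φ, hΦ, hΦs⟩ := fin_sep sep
  obtain ⟨t, ht, htspan, htli⟩ := exists_linearIndependent ℝ (L : Set W)
  have htfin : t.Finite := htli.setFinite
  have hchoose : ∀ x : W, ∃ n : ℕ, (n : ℝ) • y₀ - x ∈ Nf := by
    intro x
    obtain ⟨C, hC, h1⟩ := y_int x
    refine ⟨⌈C⌉₊, ?_⟩
    have h2 := add _ h1 _ (smul ((⌈C⌉₊ : ℝ) - C) (sub_nonneg.2 (Nat.le_ceil C)) _ y_N)
    have h3 : C • y₀ - x + ((⌈C⌉₊ : ℝ) - C) • y₀ = (⌈C⌉₊ : ℝ) • y₀ - x := by module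
    rwa [h3] at h2
  choose nf hnf using hchoose
  refine ⟨insert y₀ (htfin.toFinset.image fun x => (nf x : ℝ) • y₀ - x),
    { add := add
      smul := smul
      xi_int := xi_int
      xi_pos := xi_pos
      fin := fin_small hΦ hΦs dom
      y_L := y_L
      y_N := y_N
      y_int := y_int
      dom := fun η => by
        obtain ⟨C, -, h⟩ := dom η
        exact ⟨C, h⟩
      sep := sep
      Y_mem := fun y hy => ?_
      Y_span := fun φ hφ => ?_ }⟩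
  · rcases Finset.mem_insert.1 hy with rfl | h
    · exact ⟨y_L, y_N⟩
    · obtain ⟨x, hx, rfl⟩ := Finset.mem_image.1 h
      rw [htfin.mem_toFinset] at hx
      refine ⟨L.sub_mem ?_ (ht hx), hnf x⟩
      rw [Nat.cast_smul_eq_nsmul]
      exact L.nsmul_mem y_L _
  · have h0 : φ y₀ = 0 := hφ _ (Finset.mem_insert_self _ _)
    have h1 : ∀ x ∈ t, φ x = 0 := by
      intro x hx
      have h2 := hφ ((nf x : ℝ) • y₀ - x)
        (Finset.mem_insert_of_mem (Finset.mem_image_of_mem _ (htfin.mem_toFinset.2 hx)))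
      rw [map_sub, map_smul, h0, smul_zero, zero_sub, neg_eq_zero] at h2
      exact h2
    have h2 : (⊤ : Submodule ℝ W) ≤ LinearMap.ker φ := by
      rw [← hspan, ← htspan, Submodule.span_le]
      intro x hx
      exact h1 x hx
    exact LinearMap.ker_eq_top.1 (top_le_iff.1 h2)

end Run7.h323.CC
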