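import Pool.Agent.Y167.Main

/-!
# The projection to the common fixed space of the reflections

`p` is the average of the group generated by the reflections among the linear parts of the elements
of `Γ`, restricted to `E`.
-/

set_option autoImplicit false
set_option linter.unusedSectionVars false

namespace Run7.h323.CC

open Pool.Agent.W594.SYZ2 Pool.Agent.W594.SYZ2.TQ Pool.Agent.TH735.AQ Pool.Agent.TH128.SYZ
open Pool.Agent.Y167

variable {V E : Type*} [NormedAddCommGroup V] [NormedSpace ℂ V] [FiniteDimensional ℂ V]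
  [NormedAddCommGroup E] [NormedSpace ℂ E] [FiniteDimensional ℂ E] {Γ : Subgroup (V ≃ᵃ[ℂ] V)}
  {j : E →ₗ[ℂ] V} {H₀ : V → V → ℂ}

/-- The operator is a reflection, or trivial. -/
def IsRefl (x : Module.End ℂ E) : Prop := ∃ (n : E) (ℓ : E →ₗ[ℂ] ℂ), ∀ e, x e - e = ℓ e • n

theorem opE_mul {x y : Module.End ℂ E} (hx : x ∈ opE Γ j) (hy : y ∈ opE Γ j) : x * y ∈ opE Γ j := by
  obtain ⟨γ, hγ, hx⟩ := hx
  obtain ⟨δ, hδ, hy⟩ := hy
  refine ⟨γ * δ, Γ.mul_mem hγ hδ, fun e => ?_⟩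
  rw [Module.End.mul_apply, hx, hy]
  rfl

theorem opE_one : (1 : Module.End ℂ E) ∈ opE Γ j := ⟨1, Γ.one_mem, fun _ => rfl⟩

theorem opE_inv (R : Rel Γ j H₀) {x : Module.End ℂ E} (hx : x ∈ opE Γ j) :
    ∃ y ∈ opE Γ j, x * y = 1 ∧ y * x = 1 := by
  obtain ⟨γ, hγ, hx⟩ := hx
  obtain ⟨y, hy1, hy2⟩ := R.exists_opE γ⁻¹ (Γ.inv_mem hγ)
  have h1 : ∀ v, γ.linear ((γ⁻¹ : V ≃ᵃ[ℂ] V).linear v) = v := fun v => by
    have : (γ * γ⁻¹ : V ≃ᵃ[ℂ] V).linear v = v := by
      rw [mul_inv_cancel]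
      rfl
    exact this
  have h2 : ∀ v, (γ⁻¹ : V ≃ᵃ[ℂ] V).linear (γ.linear v) = v := fun v => by
    have : (γ⁻¹ * γ : V ≃ᵃ[ℂ] V).linear v = v := by
      rw [inv_mul_cancel]
      rfl
    exact this
  refine ⟨y, hy1, LinearMap.ext fun e => R.inj ?_, LinearMap.ext fun e => R.inj ?_⟩
  · rw [Module.End.mul_apply, hx, hy2, h1]
    rfl
  · rw [Module.End.mul_apply, hy2, hx, h2]
    rfl

/-- The monoid generated by the reflections. -/
def reflM (Γ : Subgroup (V ≃ᵃ[ℂ] V)) (j : E →ₗ[ℂ] V) : Submonoid (Module.End ℂ E) :=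
  Submonoid.closure {x | x ∈ opE Γ j ∧ IsRefl x}

theorem reflM_sub {x : Module.End ℂ E} (hx : x ∈ reflM Γ j) : x ∈ opE Γ j := by
  have h : reflM Γ j ≤ (⟨⟨opE Γ j, fun hx hy => opE_mul hx hy⟩, opE_one⟩ :
      Submonoid (Module.End ℂ E)) := Submonoid.closure_le.2 fun x hx => hx.1
  exact h hx

theorem reflM_fix {e : E} (he : ∀ x ∈ opE Γ j, IsRefl x → x e = e) {x : Module.End ℂ E}
    (hx : x ∈ reflM Γ j) : x e = e := by
  induction hx using Submonoid.closure_induction with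
  | mem x hx => exact he x hx.1 hx.2
  | one => rfl
  | mul x y _ _ h1 h2 => rw [Module.End.mul_apply, h2, h1]

/-- The projection with its properties. -/
structure IsProj (Γ : Subgroup (V ≃ᵃ[ℂ] V)) (j : E →ₗ[ℂ] V) (p : Module.End ℂ E) : Prop where
  fix : ∀ x ∈ opE Γ j, IsRefl x → ∀ e, x (p e) = p e
  id : ∀ e, (∀ x ∈ opE Γ j, IsRefl x → x e = e) → p e = e
  left : ∀ h : E → E → ℂ, IsHermitian h → (∀ g ∈ opE Γ j, ∀ a b, h (g a) (g b) = h a b) →
    ∀ a b, h (p a) b = h (p a) (p b)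
  comm : ∀ g ∈ opE Γ j, ∀ e, g (p e) = p (g e)
  rat : ∃ N : ℕ, 0 < N ∧ ∀ v ∈ lattE Γ j, (N : ℝ) • p v ∈ lattE Γ j
  unit : ∀ u : E ≃ₗ[ℂ] E, (∀ g ∈ opE Γ j, ∀ e, u (g e) = g (u e)) → ∀ e, u (p e) = p (u e)

theorem IsProj.proj {p : Module.End ℂ E} (hp : IsProj Γ j p) (e : E) : p (p e) = p e :=
  hp.id _ fun x hx hr => hp.fix x hx hr e

theorem IsProj.right {p : Module.End ℂ E} (hp : IsProj Γ j p) {h : E → E → ℂ} (hh : IsHermitian h)
    (hi : ∀ g ∈ opE Γ j, ∀ a b, h (g a) (g b) = h a b) (a b : E) : h a (p b) = h (p a) (p b) := by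
  rw [hh.symm (p b) a, hh.symm (p b) (p a), hp.left h hh hi b a]

theorem exists_proj (R : Rel Γ j H₀) : ∃ p, IsProj Γ j p := by
  classical
  have hfin : Finite (reflM Γ j) :=
    ((finite_opE R).subset fun x hx => reflM_sub hx).to_subtype
  have := Fintype.ofFinite (reflM Γ j)
  set N := Fintype.card (reflM Γ j) with hN
  have hN0 : 0 < N := Fintype.card_pos_iff.2 ⟨1⟩
  have hNc : ((N : ℕ) : ℂ) ≠ 0 := by exact_mod_cast hN0.ne'
  let s : Module.End ℂ E := ∑ w : reflM Γ j, w.1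
  let p : Module.End ℂ E := ((N : ℂ)⁻¹) • s
  have hs : ∀ e, s e = ∑ w : reflM Γ j, w.1 e := fun e => by
    simp only [s, LinearMap.sum_apply]
  have hpe : ∀ e, p e = ((N : ℂ)⁻¹) • ∑ w : reflM Γ j, w.1 e := fun e => by
    change ((N : ℂ)⁻¹) • s e = _
    rw [hs]
  have hleft : ∀ w : reflM Γ j, ∀ e, w.1 (s e) = s e := by
    intro w e
    rw [hs, map_sum]
    have hinj : Function.Injective fun w' : reflM Γ j => w * w' := by
      intro a b hab
      obtain ⟨y, -, -, hy⟩ := opE_inv R (reflM_sub w.2)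
      have h1 : w.1 * a.1 = w.1 * b.1 := congrArg Subtype.val hab
      apply Subtype.ext
      calc a.1 = y * w.1 * a.1 := by rw [hy, one_mul]
        _ = y * w.1 * b.1 := by rw [mul_assoc, h1, ← mul_assoc]
        _ = b.1 := by rw [hy, one_mul]
    have hbij := Finite.injective_iff_bijective.1 hinj
    exact Fintype.sum_bijective _ hbij (fun w' => w.1 (w'.1 e)) (fun w' => w'.1 e) fun w' => rfl
  have hNr : ∀ e : E, (N : ℂ) • p e = s e := fun e => by
    change (N : ℂ) • ((N : ℂ)⁻¹) • s e = s e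
    rw [smul_smul, mul_inv_cancel₀ hNc, one_smul]
  have hwp : ∀ w : reflM Γ j, ∀ e, w.1 (p e) = p e := by
    intro w e
    change w.1 ((N : ℂ)⁻¹ • s e) = (N : ℂ)⁻¹ • s e
    rw [map_smul, hleft]
  have hid : ∀ e, (∀ x ∈ opE Γ j, IsRefl x → x e = e) → p e = e := by
    intro e he
    rw [hpe, Finset.sum_congr rfl fun w _ => reflM_fix he w.2, Finset.sum_const, Finset.card_univ,
      ← hN, ← Nat.cast_smul_eq_nsmul ℂ, smul_smul, inv_mul_cancel₀ hNc, one_smul]
  have hfix : ∀ x ∈ opE Γ j, IsRefl x → ∀ e, x (p e) = p e := fun x hx hr e =>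
    hwp ⟨x, Submonoid.subset_closure ⟨hx, hr⟩⟩ e
  have hsumr : ∀ (h : E → E → ℂ), IsHermitian h → ∀ (a : E) (t : Finset (reflM Γ j)) (b : E),
      h a (∑ w ∈ t, w.1 b) = ∑ w ∈ t, h a (w.1 b) := by
    intro h hh a t b
    induction t using Finset.induction_on with
    | empty => simp [h_zero_right hh]
    | insert w t hw ih => rw [Finset.sum_insert hw, Finset.sum_insert hw, h_add_right hh, ih]
  have hlft : ∀ h : E → E → ℂ, IsHermitian h → (∀ g ∈ opE Γ j, ∀ a b, h (g a) (g b) = h a b) →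
      ∀ a b, h (p a) b = h (p a) (p b) := by
    intro h hh hi a b
    have h1 : h (p a) (s b) = (N : ℂ) * h (p a) b := by
      rw [hs, hsumr h hh]
      have h2 : ∀ w : reflM Γ j, h (p a) (w.1 b) = h (p a) b := by
        intro w
        have := hi w.1 (reflM_sub w.2) (p a) b
        rwa [hwp] at this
      rw [Finset.sum_congr rfl fun w _ => h2 w, Finset.sum_const, Finset.card_univ, ← hN,
        nsmul_eq_mul]
    have h3 : h (p a) (p b) = starRingEnd ℂ ((N : ℂ)⁻¹) * h (p a) (s b) := by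
      change h (p a) ((N : ℂ)⁻¹ • s b) = _
      rw [h_smul_right hh]
    rw [h3, h1, map_inv₀, Complex.conj_natCast, ← mul_assoc, inv_mul_cancel₀ hNc, one_mul]
  refine ⟨p, hfix, hid, hlft, ?_, ⟨N, hN0, fun v hv => ?_⟩, ?_⟩
  · -- commutation: `p` is the orthogonal projection to a stable subspace
    intro g hg e
    obtain ⟨d, b, P⟩ := R.pol
    obtain ⟨g', hg', h1, h2⟩ := opE_inv R hg
    set h : E → E → ℂ := fun u w => H₀ (j u) (j w) with hh
    have hinv : ∀ g ∈ opE Γ j, ∀ a b, h (g a) (g b) = h a b := by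
      rintro g ⟨γ, hγ, hg⟩ a b
      simp only [hh]
      rw [hg, hg, R.inv γ hγ]
    have hstab : ∀ g ∈ opE Γ j, ∀ e, p (g (p e)) = g (p e) := by
      intro g hg e
      apply hid
      intro x hx hr
      obtain ⟨g', hg', h1, h2⟩ := opE_inv R hg
      have h3 : IsRefl (g' * x * g) := by
        obtain ⟨n, ℓ, hn⟩ := hr
        refine ⟨g' n, ℓ ∘ₗ g, fun f => ?_⟩
        have h4 : g' (g f) = f := by
          rw [← Module.End.mul_apply, h2]
          rfl
        change g' (x (g f)) - f = ℓ (g f) • g' n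
        rw [← map_smul, ← hn, map_sub, h4]
      have h5 := hfix _ (opE_mul (opE_mul hg' hx) hg) h3 e
      have h6 : g (g' (x (g (p e)))) = x (g (p e)) := by
        rw [← Module.End.mul_apply, h1]
        rfl
      rw [← h6]
      exact congrArg g h5
    have hext : ∀ w, h (g (p e)) w = h (p (g e)) w := by
      intro w
      -- both sides only depend on `p w`
      have e1 : h (p (g e)) w = h (g e) (p w) := by
        rw [hlft h P.herm hinv, P.herm.symm (p w) (p (g e)), P.herm.symm (p w) (g e)]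
        congr 1
        rw [← hlft h P.herm hinv]
      have e2 : h (g (p e)) w = h (g (p e)) (p w) := by
        rw [← hstab g hg e, hlft h P.herm hinv]
      have e3 : h (g (p e)) (p w) = h (g e) (p w) := by
        have h4 : g (g' (p w)) = p w := by
          rw [← Module.End.mul_apply, h1]
          rfl
        rw [← h4, hinv g hg, hinv g hg]
        have h7 := hstab g' hg' w
        rw [← h7, P.herm.symm (p (g' (p w))) (p e), P.herm.symm (p (g' (p w))) e]
        congr 1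
        exact (hlft h P.herm hinv _ _).symm
      rw [e1, e2, e3]
    exact P.ext_left hext
  · have h1 : (N : ℝ) • p v = s v := by
      rw [← hNr]
      rw [← Complex.coe_smul]
      norm_num
    rw [h1, hs]
    refine (lattE Γ j).sum_mem fun w _ => ?_
    obtain ⟨γ, hγ, hx⟩ := reflM_sub w.2
    change j (w.1 v) ∈ latt Γ
    rw [hx]
    exact latt_inv γ hγ hv
  · intro u hu e
    rw [hpe, hpe, map_smul, map_sum]
    congr 1
    exact Finset.sum_congr rfl fun w _ => hu w.1 (reflM_sub w.2) e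

/-- The vectors which are fixed by the reflections are parallel to all mirrors. -/
theorem mirrorFixed_of (R : Rel Γ j H₀) {e : E} (he : ∀ x ∈ opE Γ j, IsRefl x → x e = e) :
    MirrorFixed Γ (j e) := by
  rintro γ hγ - ⟨ℓ, hℓ, c, hfix⟩
  obtain ⟨x, hx1, hx2⟩ := R.exists_opE γ hγ
  have hex : ∃ v₁, ℓ v₁ = 1 := by
    have h1 : ∃ v, ℓ v ≠ 0 := by
      by_contra hcon
      push Not at hcon
      exact hℓ (LinearMap.ext hcon)
    obtain ⟨v, hv⟩ := h1
    exact ⟨(ℓ v)⁻¹ • v, by rw [map_smul, smul_eq_mul, inv_mul_cancel₀ hv]⟩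
  obtain ⟨v₁, hv₁⟩ := hex
  have hker : ∀ v, ℓ v = 0 → γ.linear v = v := by
    intro v hv
    have h1 := hfix (c • v₁) (by rw [map_smul, hv₁, smul_eq_mul, mul_one])
    have h2 := hfix (c • v₁ + v) (by rw [map_add, map_smul, hv₁, smul_eq_mul, mul_one, hv, add_zero])
    rw [act_add, h1] at h2
    exact add_left_cancel h2
  have hdec : ∀ v, γ.linear v - v = ℓ v • (γ.linear v₁ - v₁) := by
    intro v
    have h1 := hker (v - ℓ v • v₁) (by rw [map_sub, map_smul, hv₁, smul_eq_mul, mul_one, sub_self])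
    rw [map_sub, map_smul] at h1
    have h2 : γ.linear v = v - ℓ v • v₁ + ℓ v • γ.linear v₁ := by rw [← h1]; abel
    rw [h2, smul_sub]
    abel
  have hrank : IsRefl x := by
    by_cases h0 : ∀ e, ℓ (j e) = 0
    · refine ⟨0, 0, fun e => R.inj ?_⟩
      rw [map_sub, hx2, hdec, h0, zero_smul, smul_zero, map_zero]
    · push Not at h0
      obtain ⟨e₁, he₁⟩ := h0
      refine ⟨(ℓ (j e₁))⁻¹ • (x e₁ - e₁), ℓ ∘ₗ j, fun e => R.inj ?_⟩
      rw [map_sub, hx2, hdec]
      change _ = j (ℓ (j e) • (ℓ (j e₁))⁻¹ • (x e₁ - e₁))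
      rw [map_smul, map_smul, map_sub, hx2, hdec (j e₁), smul_smul (ℓ (j e₁))⁻¹,
        inv_mul_cancel₀ he₁, one_smul]
  rw [← hx2, he x hx1 hrank]

end Run7.h323.CC
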