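import Pool.Agent.Run7.h323.CC.Klt
import Pool.Agent.Run7.h323.CC.Fan
import Pool.Agent.Run7.h323.CC.Proj
import Pool.Agent.Run7.h323.TQ.Main

/-!
# The Chern forms of the twists vanish in the directions parallel to all mirrors
-/

set_option autoImplicit false
set_option linter.unusedSectionVars false

namespace Run7.h323.CC

open Pool.Agent.W594.SYZ2 Pool.Agent.W594.SYZ2.TQ Pool.Agent.TH735.AQ Pool.Agent.TH128.SYZ
open Q47.TB Run7.h323.TQ MvPolynomial
open Pool.Agent.Y167 (AffGrp IsClass N1 Normalizes cone Rel opE lattE mirror_zero nef_of_section)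

variable {V E : Type*} [NormedAddCommGroup V] [NormedSpace ℂ V] [FiniteDimensional ℂ V]
  [NormedAddCommGroup E] [NormedSpace ℂ E] [FiniteDimensional ℂ E] {Γ : AffGrp V}
  {j : E →ₗ[ℂ] V} {H₀ : V → V → ℂ} {ι : Type*} [Fintype ι] {n : ℕ}
  {u : ι → Fin n → ℤ} {S : Set (Set ι)} {c : ι → LineBundle Γ} {Hc : ι → V → V → ℂ}
  {κ : Type*} [Fintype κ]

/-- The Chern form of `∏ c_i ^ ⟨q, u_i⟩`. -/
noncomputable def Cf (u : ι → Fin n → ℤ) (Hc : ι → V → V → ℂ) (q : Fin n → ℝ) (v w : V) : ℂ :=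
  ∑ i, ((∑ k, q k * u i k : ℝ) : ℂ) * Hc i v w

/-- The exponent `α` occurs in `F k`. -/
def Occ (Δ : EffDivY u c κ) (k : κ) (α : ι →₀ ℕ) : Prop := ∃ v, coeff α (Δ.F k v) ≠ 0

/-- The differences of the exponents. -/
def Diff (Δ : EffDivY u c κ) (q : Fin n → ℝ) : Prop :=
  ∃ k, Δ.r k ≠ 0 ∧ ∃ α β : ι →₀ ℕ, Occ Δ k α ∧ Occ Δ k β ∧
    ∀ i, (α i : ℝ) - β i = ∑ l, q l * u i l

omit [FiniteDimensional ℂ V] in
theorem exists_q {Δ : EffDivY u c κ} (hnum : cl u (fun i => ∑ k, Δ.r k * Δ.d k i - 1) = 0) (v : V)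
    {α : κ → (ι →₀ ℕ)} (hα : ∀ k, Δ.r k ≠ 0 → α k ∈ (Δ.F k v).support) :
    ∃ q : Fin n → ℝ, ∀ i, ∑ k, Δ.r k * α k i - 1 = ∑ l, q l * u i l := by
  classical
  have h0 : ∃ q : Fin n → ℝ, ∀ i, ∑ k, Δ.r k * Δ.d k i - 1 = ∑ l, q l * u i l := by
    have h1 : (Submodule.Quotient.mk (fun i => ∑ k, Δ.r k * Δ.d k i - 1) : Cl u) = 0 := hnum
    rw [Submodule.Quotient.mk_eq_zero] at h1
    exact h1
  obtain ⟨q₀, hq₀⟩ := h0
  have h1 : ∀ k, ∃ p : Fin n → ℝ, Δ.r k ≠ 0 → ∀ i, (α k i : ℝ) = Δ.d k i + ∑ l, p l * u i l := by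
    intro k
    by_cases hk : Δ.r k = 0
    · exact ⟨0, fun h => absurd hk h⟩
    · obtain ⟨p, hp⟩ := (Δ.sect k).deg v (α k) (hα k hk)
      refine ⟨fun l => p l, fun _ i => ?_⟩
      have h2 := hp i
      have h3 : ((α k i : ℤ) : ℝ) = ((Δ.d k i + ∑ l, p l * u i l : ℤ) : ℝ) :=
        congrArg (fun z : ℤ => (z : ℝ)) h2
      push_cast at h3
      exact h3
  choose p hp using h1
  refine ⟨fun l => q₀ l + ∑ k, Δ.r k * p k l, fun i => ?_⟩
  have h2 : ∀ k, Δ.r k * α k i = Δ.r k * Δ.d k i + Δ.r k * ∑ l, p k l * u i l := by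
    intro k
    by_cases hk : Δ.r k = 0
    · rw [hk]
      ring
    · rw [hp k hk i]
      ring
  rw [Finset.sum_congr rfl fun k _ => h2 k, Finset.sum_add_distrib]
  have h3 : ∑ k, Δ.r k * ∑ l, p k l * u i l = ∑ l, (∑ k, Δ.r k * p k l) * u i l := by
    simp only [Finset.mul_sum, Finset.sum_mul]
    rw [Finset.sum_comm]
    exact Finset.sum_congr rfl fun l _ => Finset.sum_congr rfl fun k _ => by ring
  rw [h3]
  simp only [add_mul, Finset.sum_add_distrib]
  rw [← hq₀ i]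
  ring

omit [FiniteDimensional ℂ V] in
/-- Kawamata log terminal pairs: for each direction some exponents are on the negative side. -/
theorem exists_neg (hS : IsSmoothFan u S) {Δ : EffDivY u c κ} {v : V}
    (hklt : ∀ x : ι → ℂ, {i | x i = 0} ∈ S →
      ∃ r > 0, ∫⁻ y in Metric.ball x r, ∏ k, ‖eval y (Δ.F k v)‖ₑ ^ (-(2 * Δ.r k)) < ⊤)
    {w : Fin n → ℝ} (hw : w ≠ 0) :
    ∃ α : κ → (ι →₀ ℕ), (∀ k, Δ.r k ≠ 0 → α k ∈ (Δ.F k v).support) ∧
      ∀ q : Fin n → ℝ, (∀ i, ∑ k, Δ.r k * α k i - 1 = ∑ l, q l * u i l) → ∑ l, q l * w l < 0 := by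
  obtain ⟨a, ha0, ha, haw⟩ := real_complete hS w
  have hne : ∃ i, a i ≠ 0 := by
    by_contra hcon
    push Not at hcon
    apply hw
    funext k
    rw [← haw k]
    exact Finset.sum_eq_zero fun i _ => by rw [hcon i, zero_mul]
  obtain ⟨α, hα, hlt⟩ := weights_klt hS.empty_mem Δ.nonneg hklt a ha0 ha hne
  refine ⟨α, hα, fun q hq => ?_⟩
  have h1 : ∑ l, q l * w l = ∑ i, a i * (∑ k, Δ.r k * α k i - 1) := by
    calc ∑ l, q l * w l = ∑ l, q l * ∑ i, a i * u i l := by simp only [haw]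
      _ = ∑ i, a i * ∑ l, q l * u i l := by
          simp only [Finset.mul_sum]
          rw [Finset.sum_comm]
          exact Finset.sum_congr rfl fun i _ => Finset.sum_congr rfl fun l _ => by ring
      _ = _ := Finset.sum_congr rfl fun i _ => by rw [hq]
  have h2 : ∑ i, a i * (∑ k, Δ.r k * α k i - 1) =
      ∑ k, Δ.r k * ∑ i, a i * α k i - ∑ i, a i := by
    simp only [mul_sub, Finset.sum_sub_distrib, mul_one, Finset.mul_sum]
    congr 1
    rw [Finset.sum_comm]
    exact Finset.sum_congr rfl fun i _ => Finset.sum_congr rfl fun k _ => by ring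
  rw [h1, h2]
  linarith

/-- The differences of the exponents span. -/
theorem diff_span (hS : IsSmoothFan u S) {Δ : EffDivY u c κ}
    (hnum : cl u (fun i => ∑ k, Δ.r k * Δ.d k i - 1) = 0) {v : V}
    (hklt : ∀ x : ι → ℂ, {i | x i = 0} ∈ S →
      ∃ r > 0, ∫⁻ y in Metric.ball x r, ∏ k, ‖eval y (Δ.F k v)‖ₑ ^ (-(2 * Δ.r k)) < ⊤)
    {w : Fin n → ℝ} (hw : ∀ q, Diff Δ q → ∑ l, q l * w l = 0) : w = 0 := by
  classical
  by_contra hne
  obtain ⟨α, hα, h1⟩ := exists_neg hS hklt hne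
  obtain ⟨β, hβ, h2⟩ := exists_neg hS hklt (w := -w) (neg_ne_zero.2 hne)
  obtain ⟨q, hq⟩ := exists_q hnum v hα
  obtain ⟨p, hp⟩ := exists_q hnum v hβ
  have h3 := h1 q hq
  have h4 := h2 p hp
  have h4' : 0 < ∑ l, p l * w l := by
    simp only [Pi.neg_apply, mul_neg, Finset.sum_neg_distrib] at h4
    linarith
  -- the difference is a combination of differences of exponents
  have h5 : ∀ k, ∃ t : Fin n → ℝ, Δ.r k ≠ 0 → Diff Δ t ∧
      ∀ i, (α k i : ℝ) - β k i = ∑ l, t l * u i l := by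
    intro k
    by_cases hk : Δ.r k = 0
    · exact ⟨0, fun h => absurd hk h⟩
    · obtain ⟨p1, hp1⟩ := (Δ.sect k).deg v (α k) (hα k hk)
      obtain ⟨p2, hp2⟩ := (Δ.sect k).deg v (β k) (hβ k hk)
      have h6 : ∀ i, (α k i : ℝ) - β k i = ∑ l, ((p1 l : ℝ) - p2 l) * u i l := by
        intro i
        have e1 : ((α k i : ℤ) : ℝ) = ((Δ.d k i + ∑ l, p1 l * u i l : ℤ) : ℝ) :=
          congrArg (fun z : ℤ => (z : ℝ)) (hp1 i)
        have e2 : ((β k i : ℤ) : ℝ) = ((Δ.d k i + ∑ l, p2 l * u i l : ℤ) : ℝ) :=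
          congrArg (fun z : ℤ => (z : ℝ)) (hp2 i)
        push_cast at e1 e2
        rw [e1, e2]
        simp only [sub_mul, Finset.sum_sub_distrib]
        ring
      exact ⟨fun l => p1 l - p2 l, fun _ => ⟨⟨k, hk, α k, β k, ⟨v, mem_support_iff.1 (hα k hk)⟩,
        ⟨v, mem_support_iff.1 (hβ k hk)⟩, h6⟩, h6⟩⟩
  choose t ht using h5
  have h6 : ∀ i, ∑ l, (q l - p l - ∑ k, Δ.r k * t k l) * u i l = 0 := by
    intro i
    have e1 : ∑ l, (∑ k, Δ.r k * t k l) * u i l = ∑ k, Δ.r k * ((α k i : ℝ) - β k i) := by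
      have e2 : ∀ k, Δ.r k * ((α k i : ℝ) - β k i) = Δ.r k * ∑ l, t k l * u i l := by
        intro k
        by_cases hk : Δ.r k = 0
        · rw [hk, zero_mul, zero_mul]
        · rw [(ht k hk).2 i]
      rw [Finset.sum_congr rfl fun k _ => e2 k]
      simp only [Finset.mul_sum, Finset.sum_mul]
      rw [Finset.sum_comm]
      exact Finset.sum_congr rfl fun l _ => Finset.sum_congr rfl fun k _ => by ring
    simp only [sub_mul, Finset.sum_sub_distrib]
    rw [← hq i, ← hp i, e1]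
    simp only [mul_sub, Finset.sum_sub_distrib]
    ring
  -- so it vanishes
  have h7 : ∀ s : Fin n → ℝ, (∀ i, ∑ l, s l * u i l = 0) → s = 0 := by
    intro s hs
    obtain ⟨σ, hσ, -⟩ := exists_max hS.empty_mem
    obtain ⟨b, hb⟩ := exists_dual hS hσ
    funext k
    have := hb.principal s k
    simp only [hs, mul_zero, Finset.sum_const_zero] at this
    exact this.symm
  have h8 := h7 (fun l => q l - p l - ∑ k, Δ.r k * t k l) h6
  have h9 : ∀ l, q l - p l = ∑ k, Δ.r k * t k l := fun l => by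
    have := congrFun h8 l
    simp only [Pi.zero_apply] at this
    linarith
  have h10 : ∑ l, q l * w l - ∑ l, p l * w l = 0 := by
    rw [← Finset.sum_sub_distrib]
    have e1 : ∀ l, q l * w l - p l * w l = ∑ k, Δ.r k * (t k l * w l) := fun l => by
      rw [← sub_mul, h9 l, Finset.sum_mul]
      exact Finset.sum_congr rfl fun k _ => by ring
    rw [Finset.sum_congr rfl fun l _ => e1 l, Finset.sum_comm]
    refine Finset.sum_eq_zero fun k _ => ?_
    by_cases hk : Δ.r k = 0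
    · simp [hk]
    · rw [← Finset.mul_sum, hw _ (ht k hk).1, mul_zero]
  linarith

/-- The Chern form of the coefficient of `x ^ α` is positive semidefinite. -/
theorem occ_nef (hΓ : IsTorusQuotient Γ) (hc : ∀ i, IsChernForm (c i) (Hc i))
    {Δ : EffDivY u c κ} {k : κ} {α : ι →₀ ℕ} (hα : Occ Δ k α) :
    IsNefForm fun v w => Δ.H k v w - ∑ i, (α i : ℂ) * Hc i v w := by
  have h1 := chern_tw (Δ.chern k) hc 1 fun i => α i
  have h2 := nef_of_section hΓ h1 (coeff_section (Δ.sect k) α) hα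
  intro v
  have := h2 v
  simpa using this

theorem herm_sub (hc : ∀ i, IsChernForm (c i) (Hc i)) {Δ : EffDivY u c κ} (k : κ) (α : ι →₀ ℕ) :
    IsHermitian fun v w => Δ.H k v w - ∑ i, (α i : ℂ) * Hc i v w := by
  have h1 := (chern_tw (Δ.chern k) hc 1 fun i => α i).1
  have h2 : (fun v w => ((1 : ℕ) : ℂ) * (Δ.H k v w - ∑ i, ((α i : ℕ) : ℂ) * Hc i v w)) =
      fun v w => Δ.H k v w - ∑ i, (α i : ℂ) * Hc i v w := by
    funext v w
    rw [Nat.cast_one, one_mul]
  rwa [h2] at h1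

/-- In the directions parallel to all mirrors the forms of the coefficients and of the twists
vanish. -/
theorem ker_all (hS : IsSmoothFan u S) (R : Rel Γ j H₀) (hc : ∀ i, IsChernForm (c i) (Hc i))
    {Δ : EffDivY u c κ} (hnum : NumTrivialY Hc j Δ) (hklt : IsKltY S Δ) {e : E}
    (he : ∀ x ∈ opE Γ j, IsRefl x → x e = e) :
    (∀ k, Δ.r k ≠ 0 → ∀ α, Occ Δ k α → ∀ w, Δ.H k (j e) w - ∑ i, (α i : ℂ) * Hc i (j e) w = 0) ∧
      ∀ (q : Fin n → ℝ) (w : V), Cf u Hc q (j e) w = 0 := by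
  classical
  obtain ⟨m, ρ, K, HK, hm, hρ, hK, hHK, hcl, hnum'⟩ := hnum
  obtain ⟨v, hklt⟩ := hklt
  have hm0 : (m : ℂ) ≠ 0 := by
    have : m ≠ 0 := by omega
    exact_mod_cast this
  have hmir := mirror_zero R.tq hHK hρ hm hK (mirrorFixed_of R he)
  -- the vector `w` of the values on `e`
  set w : Fin n → ℝ := fun l => ∑ i, (u i l : ℝ) * (Hc i (j e) (j e)).re with hw
  have hΛ : ∀ q : Fin n → ℝ, (Cf u Hc q (j e) (j e)).re = ∑ l, q l * w l := by
    intro q
    simp only [Cf, Complex.re_sum, Complex.re_ofReal_mul, hw, Finset.mul_sum, Finset.sum_mul]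
    rw [Finset.sum_comm]
    exact Finset.sum_congr rfl fun l _ => Finset.sum_congr rfl fun i _ => by ring
  have hkey : ∀ (α : κ → (ι →₀ ℕ)) (q : Fin n → ℝ),
      (∀ i, ∑ k, Δ.r k * α k i - 1 = ∑ l, q l * u i l) →
      ∑ k, Δ.r k * (Δ.H k (j e) (j e) - ∑ i, (α k i : ℂ) * Hc i (j e) (j e)).re =
        -∑ l, q l * w l := by
    intro α q hq
    rw [← hΛ q]
    have h1 := hnum' e e
    have h2 : ∑ k, (Δ.r k : ℂ) * (Δ.H k (j e) (j e) - ∑ i, (α k i : ℂ) * Hc i (j e) (j e)) =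
        -(Cf u Hc q (j e) (j e)) - HK (j e) (j e) / m := by
      have h3 : Cf u Hc q (j e) (j e) = ∑ i, ((∑ k, (Δ.r k : ℂ) * α k i) - 1) *
          Hc i (j e) (j e) := by
        simp only [Cf]
        refine Finset.sum_congr rfl fun i _ => ?_
        rw [← hq i]
        push_cast
        ring
      have h4 : ∑ k, (Δ.r k : ℂ) * (Δ.H k (j e) (j e) - ∑ i, (α k i : ℂ) * Hc i (j e) (j e)) =
          ∑ k, (Δ.r k : ℂ) * Δ.H k (j e) (j e) -
            ∑ i, (∑ k, (Δ.r k : ℂ) * α k i) * Hc i (j e) (j e) := by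
        simp only [mul_sub, Finset.sum_sub_distrib, Finset.mul_sum, Finset.sum_mul]
        congr 1
        rw [Finset.sum_comm]
        exact Finset.sum_congr rfl fun i _ => Finset.sum_congr rfl fun k _ => by ring
      rw [h3, h4]
      simp only [sub_mul, Finset.sum_sub_distrib, one_mul]
      field_simp
      linear_combination h1
    have h5 := congrArg Complex.re h2
    rw [Complex.re_sum] at h5
    simp only [Complex.re_ofReal_mul] at h5
    rw [h5, Complex.sub_re, Complex.neg_re, Complex.div_natCast_re, hmir, zero_div, sub_zero]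
  have hnn : ∀ k (α : ι →₀ ℕ), Occ Δ k α →
      0 ≤ (Δ.H k (j e) (j e) - ∑ i, (α i : ℂ) * Hc i (j e) (j e)).re := fun k α hα =>
    occ_nef R.tq hc hα (j e)
  have hw0 : w = 0 := by
    by_contra hne
    obtain ⟨α, hα, h1⟩ := exists_neg hS hklt (w := -w) (neg_ne_zero.2 hne)
    obtain ⟨q, hq⟩ := exists_q hcl v hα
    have h2 := h1 q hq
    simp only [Pi.neg_apply, mul_neg, Finset.sum_neg_distrib] at h2
    have h3 := hkey α q hq
    have h4 : 0 ≤ ∑ k, Δ.r k *
        (Δ.H k (j e) (j e) - ∑ i, (α k i : ℂ) * Hc i (j e) (j e)).re := by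
      refine Finset.sum_nonneg fun k _ => ?_
      by_cases hk : Δ.r k = 0
      · rw [hk, zero_mul]
      · exact mul_nonneg (Δ.nonneg k) (hnn k _ ⟨v, mem_support_iff.1 (hα k hk)⟩)
    linarith
  have hΛ0 : ∀ q : Fin n → ℝ, (Cf u Hc q (j e) (j e)).re = 0 := fun q => by
    rw [hΛ, hw0]
    simp
  have hsup : ∀ k, ∃ α : ι →₀ ℕ, Δ.r k ≠ 0 → α ∈ (Δ.F k v).support := by
    intro k
    by_cases hk : Δ.r k = 0
    · exact ⟨0, fun h => absurd hk h⟩
    · -- the polynomial is not zero, by the inequality for any weight or directly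
      by_contra hcon
      push Not at hcon
      have hF0 : Δ.F k v = 0 := by
        rw [← support_eq_empty]
        ext α
        constructor
        · intro h
          exact absurd h (hcon α).2
        · intro h
          simp at h
      have h1 : {i : ι | (fun _ => (1 : ℂ)) i = 0} ∈ S := by
        have : {i : ι | (fun _ : ι => (1 : ℂ)) i = 0} = ∅ := by
          ext i
          simp
        rw [this]
        exact hS.empty_mem
      obtain ⟨r, hr, h2⟩ := hklt _ h1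
      have hrk : 0 < Δ.r k := lt_of_le_of_ne (Δ.nonneg k) (Ne.symm hk)
      have h3 : (fun y : ι → ℂ => ∏ k, ‖eval y (Δ.F k v)‖ₑ ^ (-(2 * Δ.r k))) =
          fun _ => (⊤ : ENNReal) := by
        funext y
        rw [← Finset.mul_prod_erase Finset.univ _ (Finset.mem_univ k)]
        have h4 : ‖eval y (Δ.F k v)‖ₑ ^ (-(2 * Δ.r k)) = ⊤ := by
          rw [hF0, map_zero, enorm_zero, ENNReal.zero_rpow_of_neg (by linarith)]
        rw [h4, ENNReal.top_mul]
        refine Finset.prod_ne_zero_iff.2 fun k' _ h => ?_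
        rcases ENNReal.rpow_eq_zero_iff.1 h with ⟨-, h2⟩ | ⟨h1, -⟩
        · have := Δ.nonneg k'
          linarith
        · exact enorm_ne_top h1
      rw [h3, MeasureTheory.lintegral_const, MeasureTheory.Measure.restrict_apply_univ,
        ENNReal.top_mul] at h2
      · exact absurd h2 (lt_irrefl _)
      · exact (Metric.measure_ball_pos MeasureTheory.volume _ hr).ne'
  choose α₀ hα₀ using hsup
  obtain ⟨q₀, hq₀⟩ := exists_q hcl v hα₀
  have hz0 : ∀ k, Δ.r k ≠ 0 →
      (Δ.H k (j e) (j e) - ∑ i, (α₀ k i : ℂ) * Hc i (j e) (j e)).re = 0 := by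
    intro k hk
    have h1 := hkey α₀ q₀ hq₀
    rw [hw0] at h1
    simp only [Pi.zero_apply, mul_zero, Finset.sum_const_zero, neg_zero] at h1
    have h2 := (Finset.sum_eq_zero_iff_of_nonneg fun k _ => by
      by_cases hk : Δ.r k = 0
      · rw [hk, zero_mul]
      · exact mul_nonneg (Δ.nonneg k) (hnn k _ ⟨v, mem_support_iff.1 (hα₀ k hk)⟩)).1 h1 k
        (Finset.mem_univ k)
    exact (mul_eq_zero.1 h2).resolve_left hk
  -- the linear equivalence of exponents
  have hlin : ∀ k (α β : ι →₀ ℕ), Occ Δ k α → Occ Δ k β →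
      ∃ q : Fin n → ℝ, ∀ i, (α i : ℝ) - β i = ∑ l, q l * u i l := by
    rintro k α β ⟨v1, h1⟩ ⟨v2, h2⟩
    obtain ⟨p1, hp1⟩ := (Δ.sect k).deg v1 α (mem_support_iff.2 h1)
    obtain ⟨p2, hp2⟩ := (Δ.sect k).deg v2 β (mem_support_iff.2 h2)
    refine ⟨fun l => p1 l - p2 l, fun i => ?_⟩
    have e1 : ((α i : ℤ) : ℝ) = ((Δ.d k i + ∑ l, p1 l * u i l : ℤ) : ℝ) :=
      congrArg (fun z : ℤ => (z : ℝ)) (hp1 i)
    have e2 : ((β i : ℤ) : ℝ) = ((Δ.d k i + ∑ l, p2 l * u i l : ℤ) : ℝ) :=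
      congrArg (fun z : ℤ => (z : ℝ)) (hp2 i)
    push_cast at e1 e2
    rw [e1, e2]
    simp only [sub_mul, Finset.sum_sub_distrib]
    ring
  have hdiff : ∀ (α β : ι →₀ ℕ) (q : Fin n → ℝ), (∀ i, (α i : ℝ) - β i = ∑ l, q l * u i l) →
      ∀ a b : V, ∑ i, (α i : ℂ) * Hc i a b - ∑ i, (β i : ℂ) * Hc i a b = Cf u Hc q a b := by
    intro α β q hq a b
    rw [← Finset.sum_sub_distrib, Cf]
    refine Finset.sum_congr rfl fun i _ => ?_
    rw [← hq i]
    push_cast
    ring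
  have hA : ∀ k, Δ.r k ≠ 0 → ∀ α, Occ Δ k α → ∀ w,
      Δ.H k (j e) w - ∑ i, (α i : ℂ) * Hc i (j e) w = 0 := by
    intro k hk α hα w'
    obtain ⟨q, hq⟩ := hlin k α (α₀ k) hα ⟨v, mem_support_iff.1 (hα₀ k hk)⟩
    have h1 : (Δ.H k (j e) (j e) - ∑ i, (α i : ℂ) * Hc i (j e) (j e)).re = 0 := by
      have h2 := hdiff α (α₀ k) q hq (j e) (j e)
      have h3 : Δ.H k (j e) (j e) - ∑ i, (α i : ℂ) * Hc i (j e) (j e) =
          (Δ.H k (j e) (j e) - ∑ i, (α₀ k i : ℂ) * Hc i (j e) (j e)) -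
            Cf u Hc q (j e) (j e) := by
        rw [← h2]
        ring
      rw [h3, Complex.sub_re, hz0 k hk, hΛ0, sub_zero]
    exact h_isotropic (herm_sub hc k α) (occ_nef R.tq hc hα) (j e) h1 w'
  refine ⟨hA, ?_⟩
  -- the subspace of the `q`
  let Q : Submodule ℝ (Fin n → ℝ) :=
    { carrier := {q | ∀ w, Cf u Hc q (j e) w = 0}
      add_mem' := by
        intro p q hp hq w
        have h1 : Cf u Hc (p + q) (j e) w = Cf u Hc p (j e) w + Cf u Hc q (j e) w := by
          simp only [Cf, Pi.add_apply, add_mul, Finset.sum_add_distrib, Complex.ofReal_add]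
        rw [h1, hp w, hq w, add_zero]
      zero_mem' := fun w => by simp [Cf]
      smul_mem' := by
        intro t q hq w
        have h1 : Cf u Hc (t • q) (j e) w = t * Cf u Hc q (j e) w := by
          simp only [Cf]
          rw [Finset.mul_sum]
          refine Finset.sum_congr rfl fun i _ => ?_
          have h2 : ∑ k, (t • q) k * (u i k : ℝ) = t * ∑ k, q k * u i k := by
            rw [Finset.mul_sum]
            exact Finset.sum_congr rfl fun k _ => by rw [Pi.smul_apply, smul_eq_mul, mul_assoc]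
          rw [h2]
          push_cast
          ring
        rw [h1, hq w, mul_zero] }
  have hQ : Q = ⊤ := by
    by_contra hne
    obtain ⟨f, hf0, hf⟩ := Submodule.exists_le_ker_of_lt_top Q (lt_top_iff_ne_top.2 hne)
    apply hf0
    have h1 : (fun l => f (Pi.single l 1)) = (0 : Fin n → ℝ) := by
      refine diff_span hS hcl hklt fun q hq => ?_
      obtain ⟨k, hk, α, β, hα, hβ, hαβ⟩ := hq
      have h2 : q ∈ Q := fun w => by
        rw [← hdiff α β q hαβ]
        have e1 := hA k hk α hα w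
        have e2 := hA k hk β hβ w
        linear_combination e2 - e1
      have h3 : f q = 0 := hf h2
      rw [← h3, f.pi_apply_eq_sum_univ q]
      refine Finset.sum_congr rfl fun l _ => ?_
      rw [smul_eq_mul]
      congr 2
      funext l'
      rw [Pi.single_apply]
      by_cases h : l = l'
      · rw [if_pos h, if_pos h.symm]
      · rw [if_neg h, if_neg (Ne.symm h)]
    refine LinearMap.pi_ext' fun l => LinearMap.ext_ring ?_
    exact congrFun h1 l
  intro q w'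
  have : q ∈ Q := by
    rw [hQ]
    exact Submodule.mem_top
  exact this w'

end Run7.h323.CC
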