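import Pool.Agent.Run7.h323.TQ.Wt

/-!
# Kawamata log terminal products of powers of polynomials: the inequality for real weights
-/

set_option autoImplicit false

namespace Run7.h323.CC

open Q47.TB MvPolynomial MeasureTheory Filter Topology Run7.h323.TQ

variable {ι : Type*} [Fintype ι]

/-- The bound on a polydisc with real weights. -/
theorem eval_le_real {f : MvPolynomial ι ℂ} {a : ι → ℝ} {w : ℝ}
    (hw : ∀ α ∈ f.support, w ≤ ∑ i, a i * α i) {t : ℝ} (ht0 : 0 < t) (ht1 : t ≤ 1) {y : ι → ℂ}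
    (hy : ∀ i, ‖y i‖ ≤ 2 * t ^ a i) : ‖eval y f‖ ≤ bd f * t ^ w := by
  rw [eval_eq', bd, Finset.sum_mul]
  refine (norm_sum_le _ _).trans (Finset.sum_le_sum fun α hα => ?_)
  rw [norm_mul, norm_prod, mul_assoc]
  refine mul_le_mul_of_nonneg_left ?_ (norm_nonneg _)
  have h0 : ∀ i, 0 ≤ t ^ a i := fun i => (Real.rpow_pos_of_pos ht0 _).le
  have h1 : ∏ i, ‖y i ^ α i‖ ≤ ∏ i, (2 * t ^ a i) ^ α i := by
    refine Finset.prod_le_prod (fun i _ => norm_nonneg _) fun i _ => ?_
    rw [norm_pow]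
    exact pow_le_pow_left₀ (norm_nonneg _) (hy i) _
  refine h1.trans ?_
  simp only [mul_pow, Finset.prod_mul_distrib]
  refine mul_le_mul_of_nonneg_left ?_ (Finset.prod_nonneg fun i _ => by positivity)
  have h2 : ∏ i, (t ^ a i) ^ α i = t ^ ∑ i, a i * α i := by
    rw [Real.rpow_sum_of_pos ht0]
    exact Finset.prod_congr rfl fun i _ => by rw [Real.rpow_mul ht0.le, Real.rpow_natCast]
  rw [h2]
  exact Real.rpow_le_rpow_of_exponent_ge ht0 ht1 (hw α hα)

/-- The small polydiscs with real weights. -/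
def boxr (x : ι → ℂ) (a : ι → ℝ) (r t : ℝ) : Set (ι → ℂ) :=
  Set.univ.pi fun i => Metric.ball (x i) (r * t ^ a i)

theorem volume_boxr (x : ι → ℂ) (a : ι → ℝ) {r t : ℝ} (hr : 0 < r) (ht : 0 < t) :
    volume (boxr x a r t) =
      ENNReal.ofReal ((∏ _i : ι, (r ^ 2 * Real.pi)) * t ^ (2 * ∑ i, a i)) := by
  rw [boxr, volume_pi_pi]
  have h0 : ∀ i, 0 < t ^ a i := fun i => Real.rpow_pos_of_pos ht _
  have h1 : ∀ i, volume (Metric.ball (x i) (r * t ^ a i)) =
      ENNReal.ofReal ((r ^ 2 * Real.pi) * (t ^ a i) ^ 2) := by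
    intro i
    have := h0 i
    rw [Complex.volume_ball, ← ENNReal.ofReal_pow (by positivity)]
    have h2 : ((NNReal.pi : NNReal) : ENNReal) = ENNReal.ofReal Real.pi := by
      rw [ENNReal.ofReal, ← NNReal.coe_real_pi, Real.toNNReal_coe]
    rw [h2, ← ENNReal.ofReal_mul (by positivity)]
    congr 1
    ring
  simp only [h1]
  rw [← ENNReal.ofReal_prod_of_nonneg fun i _ => by have := h0 i; positivity]
  congr 1
  rw [Finset.prod_mul_distrib]
  congr 1
  rw [Finset.mul_sum, Real.rpow_sum_of_pos ht]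
  refine Finset.prod_congr rfl fun i _ => ?_
  rw [mul_comm 2 (a i), Real.rpow_mul ht.le, Real.rpow_two]

theorem weights_klt {S : Set (Set ι)} (hS0 : ∅ ∈ S) {κ : Type*} [Fintype κ]
    {f : κ → MvPolynomial ι ℂ} {r : κ → ℝ} (hr : ∀ k, 0 ≤ r k)
    (hf : ∀ x : ι → ℂ, {i | x i = 0} ∈ S →
      ∃ ρ > 0, ∫⁻ y in Metric.ball x ρ, ∏ k, ‖eval y (f k)‖ₑ ^ (-(2 * r k)) < ⊤)
    (a : ι → ℝ) (ha0 : ∀ i, 0 ≤ a i) (ha : {i | a i ≠ 0} ∈ S) (hne : ∃ i, a i ≠ 0) :
    ∃ α : κ → (ι →₀ ℕ), (∀ k, r k ≠ 0 → α k ∈ (f k).support) ∧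
      ∑ k, r k * ∑ i, a i * α k i < ∑ i, a i := by
  classical
  -- the polynomials are not zero
  have hpos : ∀ (k : κ) (y : ι → ℂ), ‖eval y (f k)‖ₑ ^ (-(2 * r k)) ≠ 0 := by
    intro k y h
    rcases ENNReal.rpow_eq_zero_iff.1 h with ⟨-, h2⟩ | ⟨h1, -⟩
    · have := hr k
      linarith
    · exact enorm_ne_top h1
  have hf0 : ∀ k, r k ≠ 0 → f k ≠ 0 := by
    intro k hk hfk
    have h1 : {i : ι | (fun _ => (1 : ℂ)) i = 0} ∈ S := by
      have : {i : ι | (fun _ : ι => (1 : ℂ)) i = 0} = ∅ := by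
        ext i
        simp
      rw [this]
      exact hS0
    obtain ⟨ρ, hρ, h2⟩ := hf _ h1
    have hrk : 0 < r k := lt_of_le_of_ne (hr k) (Ne.symm hk)
    have h3 : (fun y : ι → ℂ => ∏ k, ‖eval y (f k)‖ₑ ^ (-(2 * r k))) = fun _ => (⊤ : ENNReal) := by
      funext y
      rw [← Finset.mul_prod_erase Finset.univ _ (Finset.mem_univ k)]
      have h4 : ‖eval y (f k)‖ₑ ^ (-(2 * r k)) = ⊤ := by
        rw [hfk, map_zero, enorm_zero, ENNReal.zero_rpow_of_neg (by linarith)]
      rw [h4, ENNReal.top_mul]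
      exact Finset.prod_ne_zero_iff.2 fun k' _ => hpos k' y
    rw [h3, lintegral_const, Measure.restrict_apply_univ, ENNReal.top_mul] at h2
    · exact absurd h2 (lt_irrefl _)
    · exact (Metric.measure_ball_pos volume _ hρ).ne'
  -- the exponents
  have hα : ∀ k, ∃ α : ι →₀ ℕ, r k ≠ 0 → α ∈ (f k).support ∧
      ∀ α' ∈ (f k).support, ∑ i, a i * α i ≤ ∑ i, a i * α' i := by
    intro k
    by_cases hk : r k = 0
    · exact ⟨0, fun h => absurd hk h⟩
    · obtain ⟨α, h1, h2⟩ := Finset.exists_min_image (f k).support (fun α => ∑ i, a i * α i)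
        (support_nonempty.2 (hf0 k hk))
      exact ⟨α, fun _ => ⟨h1, h2⟩⟩
  choose α hα using hα
  refine ⟨α, fun k hk => (hα k hk).1, ?_⟩
  by_contra hcon
  push Not at hcon
  set s := ∑ i, a i with hs
  have hs0 : 0 < s := by
    obtain ⟨i, hi⟩ := hne
    exact Finset.sum_pos' (fun i _ => ha0 i)
      ⟨i, Finset.mem_univ i, lt_of_le_of_ne (ha0 i) (Ne.symm hi)⟩
  set w : κ → ℝ := fun k => ∑ i, a i * α k i with hw
  let x : ι → ℂ := fun i => if a i = 0 then 1 else 0
  have hx : {i | x i = 0} ∈ S := by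
    have : {i | x i = 0} = {i | a i ≠ 0} := by
      ext i
      simp only [Set.mem_ofPred_eq, x]
      split_ifs with h <;> simp [h]
    rw [this]
    exact ha
  obtain ⟨r₀, hr₀, hfin⟩ := hf x hx
  set ρ : ℝ := min r₀ 1 with hρ
  have hρ0 : 0 < ρ := lt_min hr₀ one_pos
  have hρ1 : ρ ≤ 1 := min_le_right _ _
  set g : (ι → ℂ) → ENNReal := fun y => ∏ k, ‖eval y (f k)‖ₑ ^ (-(2 * r k)) with hg
  have hbox : ∀ t : ℝ, 0 < t → t ≤ 1 → boxr x a ρ t ⊆ Metric.ball x r₀ := by
    intro t ht0 ht1 y hy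
    rw [Metric.mem_ball, dist_pi_lt_iff hr₀]
    intro i
    have h1 : dist (y i) (x i) < ρ * t ^ a i := hy i (Set.mem_univ i)
    have h2 : t ^ a i ≤ 1 := Real.rpow_le_one ht0.le ht1 (ha0 i)
    calc dist (y i) (x i) < ρ * t ^ a i := h1
      _ ≤ ρ * 1 := mul_le_mul_of_nonneg_left h2 hρ0.le
      _ ≤ r₀ := by rw [mul_one]; exact min_le_left _ _
  let B : κ → ℝ := fun k => if r k = 0 then 1 else bd (f k)
  have hB0 : ∀ k, 0 < B k := by
    intro k
    simp only [B]
    split_ifs with h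
    · exact one_pos
    · exact bd_pos (hf0 k h)
  set C : ENNReal := ENNReal.ofReal ((∏ k, B k ^ (-(2 * r k))) * ∏ _i : ι, (ρ ^ 2 * Real.pi)) with hC
  have hC0 : 0 < C := ENNReal.ofReal_pos.2 (mul_pos
    (Finset.prod_pos fun k _ => Real.rpow_pos_of_pos (hB0 k) _)
    (Finset.prod_pos fun i _ => by positivity))
  have hlow : ∀ t : ℝ, 0 < t → t ≤ 1 → C ≤ ∫⁻ y in boxr x a ρ t, g y := by
    intro t ht0 ht1
    have h1 : ∀ y ∈ boxr x a ρ t, ENNReal.ofReal (∏ k, (B k * t ^ w k) ^ (-(2 * r k))) ≤ g y := by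
      intro y hy
      rw [ENNReal.ofReal_prod_of_nonneg fun k _ => by
        have := hB0 k
        have := Real.rpow_pos_of_pos ht0 (w k)
        positivity]
      refine Finset.prod_le_prod' fun k _ => ?_
      have hBk := hB0 k
      have htw := Real.rpow_pos_of_pos ht0 (w k)
      by_cases hk : r k = 0
      · rw [hk]
        simp
      · have h2 : ‖eval y (f k)‖ ≤ B k * t ^ w k := by
          have hBe : B k = bd (f k) := if_neg hk
          rw [hBe]
          refine eval_le_real (a := a) (hα k hk).2 ht0 ht1 fun i => ?_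
          have h3 : dist (y i) (x i) < ρ * t ^ a i := hy i (Set.mem_univ i)
          rw [dist_eq_norm] at h3
          have h4 : ‖y i‖ ≤ ‖y i - x i‖ + ‖x i‖ := by
            simpa using norm_add_le (y i - x i) (x i)
          have h00 : 0 < t ^ a i := Real.rpow_pos_of_pos ht0 _
          have h5 : ‖x i‖ ≤ t ^ a i := by
            simp only [x]
            split_ifs with h
            · rw [h]
              simp
            · rw [norm_zero]
              exact h00.le
          have h6 : ρ * t ^ a i ≤ t ^ a i := mul_le_of_le_one_left h00.le hρ1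
          linarith
        have h3 : ‖eval y (f k)‖ₑ ≤ ENNReal.ofReal (B k * t ^ w k) := by
          rw [← ofReal_norm]
          exact ENNReal.ofReal_le_ofReal h2
        rw [← ENNReal.ofReal_rpow_of_pos (by positivity)]
        exact rpow_anti (by have := hr k; linarith) h3
    have h2 : C ≤ ENNReal.ofReal (∏ k, (B k * t ^ w k) ^ (-(2 * r k))) *
        volume (boxr x a ρ t) := by
      have hp : ∀ k, 0 ≤ (B k * t ^ w k) ^ (-(2 * r k)) := fun k => by
        have := hB0 k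
        have := Real.rpow_pos_of_pos ht0 (w k)
        positivity
      rw [volume_boxr x a hρ0 ht0, ← ENNReal.ofReal_mul (Finset.prod_nonneg fun k _ => hp k), hC]
      refine ENNReal.ofReal_le_ofReal ?_
      have h3 : ∏ k, (B k * t ^ w k) ^ (-(2 * r k)) =
          (∏ k, B k ^ (-(2 * r k))) * t ^ (-(2 * ∑ k, r k * w k)) := by
        have h4 : ∀ k, (B k * t ^ w k) ^ (-(2 * r k)) =
            B k ^ (-(2 * r k)) * t ^ (-(2 * (r k * w k))) := by
          intro k
          rw [Real.mul_rpow (hB0 k).le (Real.rpow_pos_of_pos ht0 _).le, ← Real.rpow_mul ht0.le]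
          congr 2
          ring
        rw [Finset.prod_congr rfl fun k _ => h4 k, Finset.prod_mul_distrib,
          ← Real.rpow_sum_of_pos ht0]
        congr 2
        rw [Finset.sum_neg_distrib, Finset.mul_sum]
      rw [h3]
      have h5 : 1 ≤ t ^ (-(2 * ∑ k, r k * w k)) * t ^ (2 * s) := by
        rw [← Real.rpow_add ht0]
        refine Real.one_le_rpow_of_pos_of_le_one_of_nonpos ht0 ht1 ?_
        linarith
      have hb : 0 ≤ ∏ k, B k ^ (-(2 * r k)) :=
        Finset.prod_nonneg fun k _ => (Real.rpow_pos_of_pos (hB0 k) _).le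
      have hb2 : 0 ≤ ∏ _i : ι, (ρ ^ 2 * Real.pi) := Finset.prod_nonneg fun i _ => by positivity
      calc (∏ k, B k ^ (-(2 * r k))) * ∏ _i : ι, (ρ ^ 2 * Real.pi)
          ≤ ((∏ k, B k ^ (-(2 * r k))) * ∏ _i : ι, (ρ ^ 2 * Real.pi)) *
            (t ^ (-(2 * ∑ k, r k * w k)) * t ^ (2 * s)) :=
            le_mul_of_one_le_right (mul_nonneg hb hb2) h5
        _ = _ := by ring
    refine h2.trans ?_
    rw [← setLIntegral_const]
    refine setLIntegral_mono' ?_ h1
    exact MeasurableSet.univ_pi fun i => Metric.isOpen_ball.measurableSet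
  have hgfin : ∫⁻ y, g y ∂(volume.restrict (Metric.ball x r₀)) ≠ ⊤ := hfin.ne
  have hvol : Tendsto (fun k : ℕ => (volume.restrict (Metric.ball x r₀))
      (boxr x a ρ (1 / ((k : ℝ) + 1)))) atTop (𝓝 0) := by
    have h1 : Tendsto (fun k : ℕ => ENNReal.ofReal ((∏ _i : ι, (ρ ^ 2 * Real.pi)) *
        (1 / ((k : ℝ) + 1)) ^ (2 * s))) atTop (𝓝 0) := by
      have h2 : Tendsto (fun k : ℕ => (∏ _i : ι, (ρ ^ 2 * Real.pi)) *
          (1 / ((k : ℝ) + 1)) ^ (2 * s)) atTop (𝓝 0) := by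
        have h3 : Tendsto (fun k : ℕ => (1 / ((k : ℝ) + 1)) ^ (2 * s)) atTop
            (𝓝 ((0 : ℝ) ^ (2 * s))) :=
          (Real.continuousAt_rpow_const 0 (2 * s) (Or.inr (by positivity))).tendsto.comp
            (tendsto_one_div_add_atTop_nhds_zero_nat (𝕜 := ℝ))
        rw [Real.zero_rpow (by positivity)] at h3
        have h4 := h3.const_mul (∏ _i : ι, (ρ ^ 2 * Real.pi))
        rwa [mul_zero] at h4
      have h4 := ENNReal.tendsto_ofReal h2
      rwa [ENNReal.ofReal_zero] at h4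
    refine tendsto_of_tendsto_of_tendsto_of_le_of_le tendsto_const_nhds h1 (fun _ => bot_le)
      fun k => ?_
    refine (Measure.restrict_apply_le _ _).trans ?_
    rw [volume_boxr x a hρ0 (by positivity)]
  have hlim := tendsto_setLIntegral_zero hgfin hvol
  have h1 : ∀ k : ℕ, C ≤ ∫⁻ y in boxr x a ρ (1 / ((k : ℝ) + 1)), g y
      ∂(volume.restrict (Metric.ball x r₀)) := by
    intro k
    have ht0 : (0 : ℝ) < 1 / ((k : ℝ) + 1) := by positivity
    have ht1 : 1 / ((k : ℝ) + 1) ≤ 1 := by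
      rw [div_le_one (by positivity)]
      linarith [(Nat.cast_nonneg k : (0 : ℝ) ≤ k)]
    rw [Measure.restrict_restrict_of_subset (hbox _ ht0 ht1)]
    exact hlow _ ht0 ht1
  have h2 := ge_of_tendsto' hlim h1
  exact absurd h2 (not_le.2 hC0)

end Run7.h323.CC
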