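import Pool.Agent.Run7.h323.CC.Ker
import Pool.Agent.Run7.h323.CC.Cov

/-!
# The automorphisms given by good units lift to the toric bundle and fix the boundary
-/

set_option autoImplicit false
set_option linter.unusedSectionVars false

namespace Run7.h323.CC

open Pool.Agent.W594.SYZ2 Pool.Agent.TH735.AQ Pool.Agent.TH128.SYZ
open Q47.TB Run7.h323.TQ MvPolynomial
open Pool.Agent.W594.SYZ2.TQ (IsPot ker h_isotropic tr tr_apply tw_mul tw_add_ker tw_tr_ker chi
  chi_eq chi_add chi_zero tw_ne_zero h_add_right mem_ker)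
open Pool.Agent.Y167 (AffGrp IsClass N1 Normalizes cone Rel opE lattE mirror_zero nef_of_section
  section_ker)

variable {V E : Type*} [NormedAddCommGroup V] [NormedSpace ℂ V] [FiniteDimensional ℂ V]
  [NormedAddCommGroup E] [NormedSpace ℂ E] [FiniteDimensional ℂ E] {Γ : AffGrp V}
  {j : E →ₗ[ℂ] V} {H₀ : V → V → ℂ} {ι : Type*} [Fintype ι] {n : ℕ}
  {u : ι → Fin n → ℤ} {S : Set (Set ι)} {c : ι → LineBundle Γ} {Hc : ι → V → V → ℂ}
  {κ : Type*} [Fintype κ]

/-- The line bundle `∏ c_i ^ (m_i)`. -/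
noncomputable def zb (c : ι → LineBundle Γ) (m : ι → ℤ) : LineBundle Γ where
  e := fun γ v => ∏ i, (c i).e γ v ^ m i
  holo := fun γ => prod_diff Finset.univ (fun i v => (c i).e γ v ^ m i) fun i v =>
    DifferentiableAt.zpow ((c i).holo γ v) (Or.inl ((c i).ne_zero γ v))
  ne_zero := fun γ v => Finset.prod_ne_zero_iff.2 fun i _ => zpow_ne_zero _ ((c i).ne_zero γ v)
  mul := fun γ δ v => by
    rw [← Finset.prod_mul_distrib]
    exact Finset.prod_congr rfl fun i _ => by rw [(c i).mul, mul_zpow]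
  stab := fun γ v h => by
    simp only [(c _).stab γ v h, one_zpow, Finset.prod_const_one]

omit [FiniteDimensional ℂ V] in
theorem tw_zb (G : ι → V → ℂ) (m : ι → ℤ) (γ : Γ) (v : V) :
    TQ.tw (zb c m) (fun v => ∑ i, (m i : ℂ) * G i v) γ v = ∏ i, TQ.tw (c i) (G i) γ v ^ m i := by
  unfold TQ.tw
  simp only [mul_zpow, Finset.prod_mul_distrib]
  congr 1
  rw [← Finset.sum_sub_distrib, Complex.exp_sum]
  refine Finset.prod_congr rfl fun i _ => ?_
  rw [← Complex.exp_int_mul]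
  congr 1
  ring

omit [FiniteDimensional ℂ V] in
theorem zb_herm (hc : ∀ i, IsHermitian (Hc i)) (m : ι → ℤ) :
    IsHermitian fun v w => ∑ i, (m i : ℂ) * Hc i v w := by
  refine ⟨fun a b w => ?_, fun a v w => ?_, fun v w => ?_⟩
  · simp only [(hc _).add_left, mul_add, Finset.sum_add_distrib]
  · rw [Finset.mul_sum]
    exact Finset.sum_congr rfl fun i _ => by rw [(hc i).smul_left]; ring
  · rw [map_sum]
    exact Finset.sum_congr rfl fun i _ => by rw [map_mul, map_intCast, ← (hc i).symm]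

omit [FiniteDimensional ℂ V] in
theorem zb_pot {G : ι → V → ℂ} (hG : ∀ i, IsPot (c i) (Hc i) (G i)) (m : ι → ℤ) :
    IsPot (zb c m) (fun v w => ∑ i, (m i : ℂ) * Hc i v w) fun v => ∑ i, (m i : ℂ) * G i v := by
  refine ⟨Differentiable.fun_sum fun i _ => (hG i).1.const_mul _, fun γ v => ?_⟩
  change ‖∏ i, (c i).e γ v ^ m i‖ ^ 2 = _
  have hre : ∀ b : ι → ℂ, (∑ i, (m i : ℂ) * b i).re = ∑ i, (m i : ℝ) * (b i).re := by
    intro b
    rw [Complex.re_sum]
    refine Finset.sum_congr rfl fun i _ => ?_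
    have : ((m i : ℤ) : ℂ) = ((m i : ℝ) : ℂ) := by push_cast; rfl
    rw [this, Complex.re_ofReal_mul]
  rw [norm_prod, ← Finset.prod_pow]
  have h1 : ∀ i, ‖(c i).e γ v ^ m i‖ ^ 2 = Real.exp ((m i : ℝ) *
      (Real.pi * (Hc i ((γ : V ≃ᵃ[ℂ] V) v) ((γ : V ≃ᵃ[ℂ] V) v)).re
        + 2 * (G i ((γ : V ≃ᵃ[ℂ] V) v)).re - (Real.pi * (Hc i v v).re + 2 * (G i v).re))) := by
    intro i
    have h2 : ‖(c i).e γ v ^ m i‖ ^ 2 = (‖(c i).e γ v‖ ^ 2) ^ m i := by
      rw [norm_zpow, ← zpow_natCast, ← zpow_natCast, ← zpow_mul, ← zpow_mul, mul_comm]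
    rw [h2, (hG i).2, mul_comm ((m i : ℤ) : ℝ), Real.exp_mul, Real.rpow_intCast]
  rw [Finset.prod_congr rfl fun i _ => h1 i, ← Real.exp_sum]
  congr 1
  simp only [hre, Finset.mul_sum, ← Finset.sum_add_distrib, ← Finset.sum_sub_distrib]
  exact Finset.sum_congr rfl fun i _ => by ring

/-- The exponents of `∏ c_i ^ ⟨q, u_i⟩`. -/
def mq (u : ι → Fin n → ℤ) (q : Fin n → ℤ) (i : ι) : ℤ := ∑ k, q k * u i k

theorem cf_int (u : ι → Fin n → ℤ) (Hc : ι → V → V → ℂ) (q : Fin n → ℤ) (v w : V) :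
    ∑ i, (mq u q i : ℂ) * Hc i v w = Cf u Hc (fun k => (q k : ℝ)) v w := by
  unfold Cf mq
  refine Finset.sum_congr rfl fun i _ => ?_
  congr 1
  push_cast
  rfl

/-- The value of the factor of `∏ c_i ^ ⟨q, u_i⟩`. -/
noncomputable def fac (u : ι → Fin n → ℤ) (c : ι → LineBundle Γ) (G : ι → V → ℂ) (q : Fin n → ℤ)
    (γ : Γ) (v : V) : ℂ := ∏ i, TQ.tw (c i) (G i) γ v ^ mq u q i

omit [FiniteDimensional ℂ V] in
theorem fac_ne (G : ι → V → ℂ) (q : Fin n → ℤ) (γ : Γ) (v : V) : fac u c G q γ v ≠ 0 :=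
  Finset.prod_ne_zero_iff.2 fun i _ => zpow_ne_zero _ (tw_ne_zero γ v)

omit [FiniteDimensional ℂ V] in
theorem fac_add (G : ι → V → ℂ) (p q : Fin n → ℤ) (γ : Γ) (v : V) :
    fac u c G (p + q) γ v = fac u c G p γ v * fac u c G q γ v := by
  unfold fac
  rw [← Finset.prod_mul_distrib]
  refine Finset.prod_congr rfl fun i _ => ?_
  rw [← zpow_add₀ (tw_ne_zero γ v)]
  congr 1
  unfold mq
  rw [← Finset.sum_add_distrib]
  exact Finset.sum_congr rfl fun k _ => by rw [Pi.add_apply, add_mul]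

omit [FiniteDimensional ℂ V] in
theorem fac_zero (G : ι → V → ℂ) (γ : Γ) (v : V) : fac u c G 0 γ v = 1 := by
  unfold fac mq
  simp

omit [FiniteDimensional ℂ V] in
theorem fac_neg (G : ι → V → ℂ) (q : Fin n → ℤ) (γ : Γ) (v : V) (h : fac u c G q γ v = 1) :
    fac u c G (-q) γ v = 1 := by
  have h1 := fac_add (u := u) (c := c) G (-q) q γ v
  rw [neg_add_cancel, fac_zero, h, mul_one] at h1
  exact h1.symm

omit [FiniteDimensional ℂ V] in
theorem fac_smul (G : ι → V → ℂ) (q : Fin n → ℤ) (N : ℕ) (γ : Γ) (v : V) :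
    fac u c G (N • q) γ v = fac u c G q γ v ^ N := by
  induction N with
  | zero => rw [zero_smul, fac_zero, pow_zero]
  | succ N ih => rw [succ_nsmul, fac_add, ih, pow_succ]

omit [FiniteDimensional ℂ V] in
theorem fac_mul (G : ι → V → ℂ) (q : Fin n → ℤ) (γ δ : Γ) (v : V) :
    fac u c G q (γ * δ) v = fac u c G q γ ((δ : V ≃ᵃ[ℂ] V) v) * fac u c G q δ v := by
  unfold fac
  rw [← Finset.prod_mul_distrib]
  exact Finset.prod_congr rfl fun i _ => by rw [tw_mul, mul_zpow]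

/-- The data used in this file. -/
structure Set0 (u : ι → Fin n → ℤ) (S : Set (Set ι)) (c : ι → LineBundle Γ) (Hc : ι → V → V → ℂ)
    (j : E →ₗ[ℂ] V) (H₀ : V → V → ℂ) (Δ : EffDivY u c κ) : Prop where
  fan : IsSmoothFan u S
  rel : Rel Γ j H₀
  chern : ∀ i, IsChernForm (c i) (Hc i)
  num : NumTrivialY Hc j Δ
  klt : IsKltY S Δ

section main

variable {Δ : EffDivY u c κ} {G : ι → V → ℂ}

/-- The vector is fixed by the reflections. -/
def RF (Γ : AffGrp V) (j : E →ₗ[ℂ] V) (e : E) : Prop := ∀ x ∈ opE Γ j, IsRefl x → x e = e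

theorem Set0.cf_ker (D : Set0 u S c Hc j H₀ Δ) {e : E} (he : RF Γ j e) (q : Fin n → ℤ) :
    j e ∈ ker (zb_herm (fun i => (D.chern i).1) (mq u q)) := by
  intro w
  change ∑ i, (mq u q i : ℂ) * Hc i (j e) w = 0
  rw [cf_int]
  exact (ker_all D.fan D.rel D.chern D.num D.klt he).2 _ w

theorem Set0.fac_ker (D : Set0 u S c Hc j H₀ Δ) (hG : ∀ i, IsPot (c i) (Hc i) (G i)) {e : E}
    (he : RF Γ j e) (q : Fin n → ℤ) (γ : Γ) (v : V) :
    fac u c G q γ (v + j e) = fac u c G q γ v := by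
  have h1 := tw_add_ker (zb_herm (fun i => (D.chern i).1) (mq u q)) (zb_pot hG (mq u q)) γ v
    (D.cf_ker he q)
  rw [tw_zb, tw_zb] at h1
  exact h1

theorem Set0.fac_chi (D : Set0 u S c Hc j H₀ Δ) (hG : ∀ i, IsPot (c i) (Hc i) (G i)) {e : E}
    (he : RF Γ j e) (hb : j e ∈ latt Γ) (q : Fin n → ℤ) (v : V) :
    fac u c G q (tr (j e) hb) v =
      chi (zb c (mq u q)) (fun v => ∑ i, (mq u q i : ℂ) * G i v) (j e) := by
  have h1 := tw_tr_ker (zb_herm (fun i => (D.chern i).1) (mq u q)) (zb_pot hG (mq u q)) hb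
    (D.cf_ker he q) v
  rw [tw_zb] at h1
  exact h1

theorem Set0.fac_nsmul (D : Set0 u S c Hc j H₀ Δ) (hG : ∀ i, IsPot (c i) (Hc i) (G i)) {e : E}
    (he : RF Γ j e) (hb : j e ∈ latt Γ) (q : Fin n → ℤ) (N : ℕ) (hN : j (N • e) ∈ latt Γ) (v : V) :
    fac u c G q (tr (j (N • e)) hN) v = fac u c G q (tr (j e) hb) v ^ N := by
  have hNe : ∀ N : ℕ, RF Γ j (N • e) := fun N x hx hr => by rw [map_nsmul, he x hx hr]
  have hNl : ∀ N : ℕ, j (N • e) ∈ latt Γ := fun N => by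
    rw [map_nsmul]
    exact (latt Γ).nsmul_mem hb N
  rw [D.fac_chi hG (hNe N) hN, D.fac_chi hG he hb]
  clear hN
  induction N with
  | zero => rw [zero_smul, map_zero, chi_zero, pow_zero]
  | succ N ih =>
    rw [succ_nsmul, map_add, chi_add (zb_herm (fun i => (D.chern i).1) (mq u q))
      (zb_pot hG (mq u q)) (hNl N) (D.cf_ker (hNe N) q) hb (D.cf_ker he q), ih, pow_succ]

omit [FiniteDimensional ℂ V] in
theorem pot_tw {L : LineBundle Γ} {H : V → V → ℂ} {P : V → ℂ} (hP : IsPot L H P)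
    (hG : ∀ i, IsPot (c i) (Hc i) (G i)) (α : ι → ℕ) :
    IsPot (Q47.TB.tw L c 1 α) (fun v w => ((1 : ℕ) : ℂ) * (H v w - ∑ i, ((α i : ℕ) : ℂ) * Hc i v w))
      (fun v => P v - ∑ i, (α i : ℂ) * G i v) := by
  refine ⟨hP.1.sub (Differentiable.fun_sum fun i _ => (hG i).1.const_mul _), fun γ v => ?_⟩
  have h1 : ‖(Q47.TB.tw L c 1 α).e γ v‖ ^ 2 = ‖L.e γ v‖ ^ 2 *
      (∏ i, (‖(c i).e γ v‖ ^ 2) ^ (α i))⁻¹ := by
    change ‖L.e γ v ^ 1 * (∏ i, (c i).e γ v ^ (1 * α i))⁻¹‖ ^ 2 = _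
    rw [norm_mul, pow_one, norm_inv, norm_prod, mul_pow, inv_pow, ← Finset.prod_pow]
    congr 2
    exact Finset.prod_congr rfl fun i _ => by
      rw [norm_pow, one_mul, ← pow_mul, ← pow_mul, mul_comm]
  have h2 : ∀ i, (‖(c i).e γ v‖ ^ 2) ^ (α i) = Real.exp ((α i : ℕ) * (Real.pi *
      (Hc i ((γ : V ≃ᵃ[ℂ] V) v) ((γ : V ≃ᵃ[ℂ] V) v)).re
      + 2 * (G i ((γ : V ≃ᵃ[ℂ] V) v)).re - (Real.pi * (Hc i v v).re + 2 * (G i v).re))) :=
    fun i => by rw [(hG i).2, ← Real.exp_nat_mul]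
  have hre : ∀ b : ι → ℂ, (∑ i, (α i : ℂ) * b i).re = ∑ i, (α i : ℝ) * (b i).re := by
    intro b
    rw [Complex.re_sum]
    refine Finset.sum_congr rfl fun i _ => ?_
    have : ((α i : ℕ) : ℂ) = ((α i : ℝ) : ℂ) := by push_cast; rfl
    rw [this, Complex.re_ofReal_mul]
  rw [h1, Finset.prod_congr rfl fun i _ => h2 i, ← Real.exp_sum, hP.2, ← Real.exp_neg,
    ← Real.exp_add]
  congr 1
  simp only [Nat.cast_one, one_mul, Complex.sub_re, hre]
  have e3 : ∀ x : V, ∑ i, (α i : ℝ) * (Real.pi * (Hc i x x).re + 2 * (G i x).re)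
      = Real.pi * ∑ i, (α i : ℝ) * (Hc i x x).re + 2 * ∑ i, (α i : ℝ) * (G i x).re := by
    intro x
    rw [Finset.mul_sum, Finset.mul_sum, ← Finset.sum_add_distrib]
    exact Finset.sum_congr rfl fun i _ => by ring
  simp only [mul_sub, Finset.sum_sub_distrib, e3]
  ring

omit [FiniteDimensional ℂ V] in
theorem tw_tw (L : LineBundle Γ) (P : V → ℂ) (α : ι → ℕ) (γ : Γ) (x : V) :
    TQ.tw (Q47.TB.tw L c 1 α) (fun v => P v - ∑ i, (α i : ℂ) * G i v) γ x =
      TQ.tw L P γ x * (∏ i, TQ.tw (c i) (G i) γ x ^ α i)⁻¹ := by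
  unfold TQ.tw
  change L.e γ x ^ 1 * (∏ i, (c i).e γ x ^ (1 * α i))⁻¹ * _ = _
  simp only [pow_one, one_mul, mul_pow, Finset.prod_mul_distrib]
  have h1 : ∏ i, Complex.exp (G i x - G i ((γ : V ≃ᵃ[ℂ] V) x)) ^ α i =
      Complex.exp (∑ i, (α i : ℂ) * G i x - ∑ i, (α i : ℂ) * G i ((γ : V ≃ᵃ[ℂ] V) x)) := by
    rw [← Finset.sum_sub_distrib, Complex.exp_sum]
    refine Finset.prod_congr rfl fun i _ => ?_
    rw [← Complex.exp_nat_mul]
    congr 1
    ring
  rw [h1, mul_inv, ← Complex.exp_neg, mul_mul_mul_comm, ← Complex.exp_add]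
  congr 2
  ring

theorem Set0.occ_ker (D : Set0 u S c Hc j H₀ Δ) {k : κ} (hk : Δ.r k ≠ 0) {e : E}
    (he : RF Γ j e) {α : ι →₀ ℕ} (hα : Occ Δ k α) :
    ∃ hherm : IsHermitian fun v w =>
        ((1 : ℕ) : ℂ) * (Δ.H k v w - ∑ i, ((α i : ℕ) : ℂ) * Hc i v w),
      j e ∈ ker hherm := by
  refine ⟨(chern_tw (Δ.chern k) D.chern 1 fun i => α i).1, fun w => ?_⟩
  have := (ker_all D.fan D.rel D.chern D.num D.klt he).1 k hk α hα w
  change ((1 : ℕ) : ℂ) * (Δ.H k (j e) w - ∑ i, ((α i : ℕ) : ℂ) * Hc i (j e) w) = 0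
  rw [this, mul_zero]

/-- The coefficients of the components of the boundary are constant along the vectors fixed by the
reflections, up to the potential. -/
theorem Set0.coeff_ker (D : Set0 u S c Hc j H₀ Δ) (hG : ∀ i, IsPot (c i) (Hc i) (G i)) {k : κ}
    (hk : Δ.r k ≠ 0) {P : V → ℂ} (hP : IsPot (Δ.L k) (Δ.H k) P) {e : E} (he : RF Γ j e)
    (α : ι →₀ ℕ) (v : V) :
    coeff α (Δ.F k (v + j e)) * Complex.exp (∑ i, (α i : ℂ) * G i (v + j e) - P (v + j e)) =
      coeff α (Δ.F k v) * Complex.exp (∑ i, (α i : ℂ) * G i v - P v) := by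
  by_cases hα : Occ Δ k α
  · obtain ⟨hherm, hkr⟩ := D.occ_ker hk he hα
    have h1 := section_ker D.rel.tq hherm (pot_tw hP hG fun i => α i)
      (coeff_section (Δ.sect k) α) hkr v
    simp only [neg_sub] at h1
    exact h1
  · have h1 : ∀ v, coeff α (Δ.F k v) = 0 := by
      intro v
      by_contra h
      exact hα ⟨v, h⟩
    rw [h1, h1, zero_mul, zero_mul]

/-- The factor of a translation by a lattice vector fixed by the reflections. -/
theorem Set0.fac_occ (D : Set0 u S c Hc j H₀ Δ) (hG : ∀ i, IsPot (c i) (Hc i) (G i)) {k : κ}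
    (hk : Δ.r k ≠ 0) {P : V → ℂ} (hP : IsPot (Δ.L k) (Δ.H k) P) {e : E} (he : RF Γ j e)
    (hb : j e ∈ latt Γ) {α : ι →₀ ℕ} (hα : Occ Δ k α) (x : V) :
    TQ.tw (Δ.L k) P (tr (j e) hb) x = ∏ i, TQ.tw (c i) (G i) (tr (j e) hb) x ^ α i := by
  obtain ⟨hherm, hkr⟩ := D.occ_ker hk he hα
  have hall := fun x => tw_tr_ker hherm (pot_tw hP hG fun i => α i) hb hkr x
  obtain ⟨v, hv⟩ := hα
  have h1 := section_ker D.rel.tq hherm (pot_tw hP hG fun i => α i)
    (coeff_section (Δ.sect k) α) hkr v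
  have h2 := (coeff_section (Δ.sect k) α).eq (tr (j e) hb) v
  rw [tr_apply, add_comm] at h2
  have h3 : TQ.tw (Q47.TB.tw (Δ.L k) c 1 fun i => α i)
      (fun v => P v - ∑ i, (α i : ℂ) * G i v) (tr (j e) hb) v = 1 := by
    unfold TQ.tw
    rw [tr_apply, add_comm (j e) v, Complex.exp_sub]
    rw [Complex.exp_neg, Complex.exp_neg, h2] at h1
    have n1 := Complex.exp_ne_zero (P (v + j e) - ∑ i, (α i : ℂ) * G i (v + j e))
    have n2 := Complex.exp_ne_zero (P v - ∑ i, (α i : ℂ) * G i v)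
    field_simp at h1 ⊢
    linear_combination h1
  have h4 := (hall x).trans ((hall v).symm.trans h3)
  rw [tw_tw] at h4
  have h5 : ∏ i, TQ.tw (c i) (G i) (tr (j e) hb) x ^ α i ≠ 0 :=
    Finset.prod_ne_zero_iff.2 fun i _ => pow_ne_zero _ (tw_ne_zero _ _)
  field_simp at h4
  exact h4

/-- The lattice spanned by the differences of the exponents. -/
def DL (Δ : EffDivY u c κ) : AddSubgroup (Fin n → ℤ) :=
  AddSubgroup.closure {q | ∃ k, Δ.r k ≠ 0 ∧ ∃ α β : ι →₀ ℕ, Occ Δ k α ∧ Occ Δ k β ∧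
    ∀ i, (α i : ℤ) - β i = mq u q i}

theorem Set0.fac_DL (D : Set0 u S c Hc j H₀ Δ) (hG : ∀ i, IsPot (c i) (Hc i) (G i)) {e : E}
    (he : RF Γ j e) (hb : j e ∈ latt Γ) {q : Fin n → ℤ} (hq : q ∈ DL Δ) (v : V) :
    fac u c G q (tr (j e) hb) v = 1 := by
  induction hq using AddSubgroup.closure_induction with
  | mem q hq =>
    obtain ⟨k, hk, α, β, hα, hβ, hq⟩ := hq
    obtain ⟨hH, P, hP1, hP2⟩ := Δ.chern k
    have hP : IsPot (Δ.L k) (Δ.H k) P := ⟨hP1, hP2⟩
    unfold fac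
    have h1 := D.fac_occ hG hk hP he hb hα v
    rw [D.fac_occ hG hk hP he hb hβ v] at h1
    have h2 : ∀ i, TQ.tw (c i) (G i) (tr (j e) hb) v ^ mq u q i =
        TQ.tw (c i) (G i) (tr (j e) hb) v ^ α i / TQ.tw (c i) (G i) (tr (j e) hb) v ^ β i := by
      intro i
      rw [← hq, zpow_sub₀ (tw_ne_zero _ _), zpow_natCast, zpow_natCast]
    rw [Finset.prod_congr rfl fun i _ => h2 i, Finset.prod_div_distrib, ← h1, div_self]
    exact Finset.prod_ne_zero_iff.2 fun i _ => pow_ne_zero _ (tw_ne_zero _ _)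
  | zero => exact fac_zero G _ _
  | add p q _ _ hp hq => rw [fac_add, hp, hq, mul_one]
  | neg q _ hq => exact fac_neg G q _ _ hq

/-- The differences of the exponents span a subgroup of finite index. -/
theorem Set0.exists_N (D : Set0 u S c Hc j H₀ Δ) : ∃ N : ℕ, 0 < N ∧ ∀ q : Fin n → ℤ, N • q ∈ DL Δ := by
  classical
  obtain ⟨m, ρ, K, HK, hm, hρ, hK, hHK, hcl, hnum'⟩ := D.num
  obtain ⟨v, hklt⟩ := D.klt
  let Q : Submodule ℚ (Fin n → ℚ) :=
    { carrier := {x | ∃ N : ℕ, 0 < N ∧ ∃ a ∈ DL Δ, ∀ k, (N : ℚ) * x k = a k}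
      add_mem' := by
        rintro x y ⟨N, hN, a, ha, h1⟩ ⟨M, hM, b, hb, h2⟩
        refine ⟨N * M, Nat.mul_pos hN hM, M • a + N • b,
          (DL Δ).add_mem ((DL Δ).nsmul_mem ha M) ((DL Δ).nsmul_mem hb N), fun k => ?_⟩
        rw [Pi.add_apply, Pi.add_apply, Pi.smul_apply, Pi.smul_apply]
        push_cast
        rw [nsmul_eq_mul, nsmul_eq_mul]
        push_cast
        rw [← h1, ← h2]
        ring
      zero_mem' := ⟨1, one_pos, 0, (DL Δ).zero_mem, fun k => by simp⟩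
      smul_mem' := by
        rintro t x ⟨N, hN, a, ha, h1⟩
        refine ⟨N * t.den, Nat.mul_pos hN t.den_pos, t.num • a, (DL Δ).zsmul_mem ha _, fun k => ?_⟩
        rw [Pi.smul_apply, Pi.smul_apply, smul_eq_mul, smul_eq_mul]
        push_cast
        rw [← h1]
        have hq : (t.num : ℚ) = t * t.den := (t.mul_den_eq_num).symm
        rw [hq]
        ring }
  have hQ : Q = ⊤ := by
    by_contra hne
    obtain ⟨f, hf0, hf⟩ := Submodule.exists_le_ker_of_lt_top Q (lt_top_iff_ne_top.2 hne)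
    apply hf0
    have h1 : (fun l => ((f (Pi.single l 1) : ℚ) : ℝ)) = (0 : Fin n → ℝ) := by
      refine diff_span D.fan hcl hklt fun q hq => ?_
      obtain ⟨k, hk, α, β, hα, hβ, hαβ⟩ := hq
      -- the real vector `q` is integral
      obtain ⟨σ, hσ, -⟩ := exists_max D.fan.empty_mem
      obtain ⟨b, hb⟩ := exists_dual D.fan hσ
      let p : Fin n → ℤ := fun l => ∑ i, b l i * ((α i : ℤ) - β i)
      have hp : ∀ l, (p l : ℝ) = q l := by
        intro l
        have h2 := hb.principal q l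
        rw [← h2]
        simp only [p]
        push_cast
        exact Finset.sum_congr rfl fun i _ => by rw [hαβ]
      have hpm : p ∈ DL Δ := by
        refine AddSubgroup.subset_closure ⟨k, hk, α, β, hα, hβ, fun i => ?_⟩
        have h2 := hαβ i
        unfold mq
        have h3 : (((α i : ℤ) - β i : ℤ) : ℝ) = ((∑ l, p l * u i l : ℤ) : ℝ) := by
          push_cast
          rw [h2]
          exact Finset.sum_congr rfl fun l _ => by rw [hp]
        exact_mod_cast h3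
      have h2 : (fun l => (p l : ℚ)) ∈ Q := ⟨1, one_pos, p, hpm, fun k => by simp⟩
      have h3 : f (fun l => (p l : ℚ)) = 0 := hf h2
      rw [f.pi_apply_eq_sum_univ] at h3
      have h4 := congrArg (fun z : ℚ => (z : ℝ)) h3
      simp only [smul_eq_mul, Rat.cast_zero] at h4
      rw [← h4]
      push_cast
      refine Finset.sum_congr rfl fun l _ => ?_
      rw [hp]
      congr 2
      congr 1
      funext l'
      rw [Pi.single_apply]
      by_cases h : l = l'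
      · rw [if_pos h, if_pos h.symm]
      · rw [if_neg h, if_neg (Ne.symm h)]
    refine LinearMap.pi_ext' fun l => LinearMap.ext_ring ?_
    have h2 := congrFun h1 l
    simp only [Pi.zero_apply] at h2
    have h3 : f (Pi.single l 1) = 0 := by exact_mod_cast h2
    exact h3
  have h1 : ∀ q : Fin n → ℤ, ∃ N : ℕ, 0 < N ∧ N • q ∈ DL Δ := by
    intro q
    have h2 : (fun l => (q l : ℚ)) ∈ Q := by
      rw [hQ]
      exact Submodule.mem_top
    obtain ⟨N, hN, a, ha, h3⟩ := h2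
    refine ⟨N, hN, ?_⟩
    have h4 : N • q = a := by
      funext k
      have h5 : (N : ℚ) * (q k : ℚ) = a k := h3 k
      rw [Pi.smul_apply, nsmul_eq_mul]
      exact_mod_cast h5
    rw [h4]
    exact ha
  choose N hN hNq using fun l : Fin n => h1 (Pi.single l 1)
  refine ⟨∏ l, N l, Finset.prod_pos fun l _ => hN l, fun q => ?_⟩
  have h2 : q = ∑ l, q l • (Pi.single l (1 : ℤ) : Fin n → ℤ) := by
    funext k
    rw [Finset.sum_apply]
    simp only [Pi.smul_apply, smul_eq_mul, Pi.single_apply]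
    simp
  rw [h2, Finset.smul_sum]
  refine (DL Δ).sum_mem fun l _ => ?_
  rw [smul_comm]
  refine (DL Δ).zsmul_mem ?_ _
  rw [← Finset.prod_erase_mul Finset.univ _ (Finset.mem_univ l), mul_smul]
  exact (DL Δ).nsmul_mem (hNq l) _

/-- The displacements of good pairs are fixed by the reflections. -/
theorem GoodPair.rf {N : ℕ} {w : E ≃ₗ[ℂ] E} {f : V ≃ᵃ[ℂ] V} (hf : GoodPair Γ j N w f) (e : E) :
    RF Γ j (w e - e) := by
  obtain ⟨m, hu⟩ := hf.good
  intro x hx hr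
  obtain ⟨n, ℓ, h⟩ := hr
  exact hu.refl x hx ⟨n, ℓ, h⟩ e

theorem GoodPair.comm_rf {N : ℕ} (hN : 0 < N) (R : Rel Γ j H₀) {w : E ≃ₗ[ℂ] E} {f : V ≃ᵃ[ℂ] V}
    (hf : GoodPair Γ j N w f) {γ : V ≃ᵃ[ℂ] V} (hγ : γ ∈ Γ) :
    ∃ c' ∈ lattE Γ j, RF Γ j c' ∧ ∀ v, f (γ v) = j (N • c') + γ (f v) := by
  obtain ⟨c', hc', h1⟩ := hf.comm γ hγ
  refine ⟨c', hc', ?_, fun v => by rw [h1, Nat.cast_smul_eq_nsmul]⟩
  obtain ⟨y, hy, hyγ⟩ := R.exists_opE γ hγ
  obtain ⟨e1, he1⟩ := hf.disp (γ 0)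
  obtain ⟨e2, he2⟩ := hf.disp 0
  have h2 := h1 0
  rw [he1, he2, Pool.Agent.W594.SYZ2.TQ.act_add, ← hyγ] at h2
  have h3 : j (w e1 - e1) = j ((N : ℝ) • c' + y (w e2 - e2)) := by
    rw [map_add]
    have := add_left_cancel (a := γ 0) (b := j (w e1 - e1))
      (c := j ((N : ℝ) • c') + j (y (w e2 - e2))) (by rw [h2]; abel)
    exact this
  have h4 := R.inj h3
  have h5 : RF Γ j (y (w e2 - e2)) := by
    obtain ⟨m, hu⟩ := hf.good
    have : y (w e2 - e2) = w (y e2) - y e2 := by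
      rw [map_sub, hu.unit.comm y hy]
    rw [this]
    exact hf.rf _
  intro x hx hr
  have h6 : x ((N : ℝ) • c') = (N : ℝ) • c' := by
    have h7 : (N : ℝ) • c' = (w e1 - e1) - y (w e2 - e2) := by rw [h4]; abel
    rw [h7, map_sub, hf.rf e1 x hx hr, h5 x hx hr]
  rw [← Complex.coe_smul, map_smul] at h6
  have hN0 : ((N : ℝ) : ℂ) ≠ 0 := by
    have : (N : ℝ) ≠ 0 := by positivity
    exact_mod_cast this
  exact smul_right_injective E hN0 h6

/-- The lift of a good pair. -/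
theorem Set0.exists_lift (D : Set0 u S c Hc j H₀ Δ) : ∃ N : ℕ, 0 < N ∧
    ∀ (w : E ≃ₗ[ℂ] E) (f : V ≃ᵃ[ℂ] V), GoodPair Γ j N w f →
      ∃ φ : ι → V → ℂ, IsLift u c f φ ∧ Fixes Δ f φ := by
  obtain ⟨N, hN, hNq⟩ := D.exists_N
  refine ⟨N, hN, fun w f hf => ?_⟩
  have hpot : ∀ i, ∃ G : V → ℂ, IsPot (c i) (Hc i) G := fun i => by
    obtain ⟨-, G, h1, h2⟩ := D.chern i
    exact ⟨G, h1, h2⟩
  choose G hG using hpot
  have hfd : Differentiable ℂ f := affine_differentiable f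
  refine ⟨fun i v => Complex.exp (G i (f v) - G i v), ⟨hf.norm, fun i =>
    (((hG i).1.comp hfd).sub (hG i).1).cexp, fun i v => Complex.exp_ne_zero _, ?_⟩, ?_⟩
  · intro γ γ' hγ' v
    have h0 : ∀ i, TQ.tw (c i) (G i) γ v / TQ.tw (c i) (G i) γ' (f v) ≠ 0 := fun i =>
      div_ne_zero (tw_ne_zero _ _) (tw_ne_zero _ _)
    refine ⟨fun i => Units.mk0 _ (h0 i), fun k => ?_, fun i => ?_⟩
    · obtain ⟨c', hc', hrf, hfc⟩ := hf.comm_rf hN D.rel γ.2
      have hNc : j (N • c') ∈ latt Γ := by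
        rw [map_nsmul]
        exact (latt Γ).nsmul_mem hc' N
      have hγ'' : γ' = tr (j (N • c')) hNc * γ := by
        apply Subtype.ext
        rw [hγ']
        apply AffineEquiv.ext
        intro x
        change f ((γ : V ≃ᵃ[ℂ] V) (f.symm x)) = j (N • c') + (γ : V ≃ᵃ[ℂ] V) x
        rw [hfc, f.apply_symm_apply]
      have hq : ∀ i, mq u (Pi.single k 1) i = u i k := by
        intro i
        unfold mq
        simp [Pi.single_apply]
      have h1 : fac u c G (Pi.single k 1) γ' (f v) = fac u c G (Pi.single k 1) γ v := by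
        rw [hγ'', fac_mul, D.fac_nsmul hG hrf hc' _ N hNc, ← fac_smul,
          D.fac_DL hG hrf hc' (hNq _), one_mul]
        obtain ⟨e, he⟩ := hf.disp v
        rw [he, D.fac_ker hG (hf.rf e)]
      have h2 : ∏ i, ((TQ.tw (c i) (G i) γ v / TQ.tw (c i) (G i) γ' (f v)) ^ u i k) = 1 := by
        have h3 : fac u c G (Pi.single k 1) γ v / fac u c G (Pi.single k 1) γ' (f v) = 1 := by
          rw [h1, div_self (fac_ne _ _ _ _)]
        unfold fac at h3
        rw [← Finset.prod_div_distrib] at h3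
        rw [← h3]
        exact Finset.prod_congr rfl fun i _ => by rw [hq, div_zpow]
      apply Units.ext
      rw [Units.coe_prod, Units.val_one, ← h2]
      exact Finset.prod_congr rfl fun i _ => by rw [Units.val_zpow_eq_zpow_val, Units.val_mk0]
    · rw [Units.val_mk0]
      have h1 : (γ' : V ≃ᵃ[ℂ] V) (f v) = f ((γ : V ≃ᵃ[ℂ] V) v) := by
        rw [hγ']
        change f ((γ : V ≃ᵃ[ℂ] V) (f.symm (f v))) = _
        rw [f.symm_apply_apply]
      have h2 := tw_ne_zero (L := c i) (F := G i) γ' (f v)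
      rw [div_mul_eq_mul_div, eq_div_iff h2]
      unfold TQ.tw
      rw [h1]
      simp only [Complex.exp_sub]
      have n1 := Complex.exp_ne_zero (G i (f ((γ : V ≃ᵃ[ℂ] V) v)))
      have n2 := Complex.exp_ne_zero (G i ((γ : V ≃ᵃ[ℂ] V) v))
      have n3 := Complex.exp_ne_zero (G i v)
      have n4 := Complex.exp_ne_zero (G i (f v))
      field_simp
  · intro k hk
    obtain ⟨hH, P, hP1, hP2⟩ := Δ.chern k
    have hP : IsPot (Δ.L k) (Δ.H k) P := ⟨hP1, hP2⟩
    refine ⟨fun v => Complex.exp (P (f v) - P v), fun v => Complex.exp_ne_zero _, fun v x => ?_⟩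
    obtain ⟨e, he⟩ := hf.disp v
    have h1 : sc (fun i => Complex.exp (G i (f v) - G i v)) (Δ.F k (f v)) =
        C (Complex.exp (P (f v) - P v)) * Δ.F k v := by
      ext α
      rw [coeff_sc, coeff_C_mul]
      have h2 := D.coeff_ker hG hk hP (hf.rf e) α v
      rw [← he] at h2
      have h3 : ∏ i, Complex.exp (G i (f v) - G i v) ^ α i =
          Complex.exp (∑ i, (α i : ℂ) * G i (f v) - ∑ i, (α i : ℂ) * G i v) := by
        rw [← Finset.sum_sub_distrib, Complex.exp_sum]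
        refine Finset.prod_congr rfl fun i _ => ?_
        rw [← Complex.exp_nat_mul]
        congr 1
        ring
      rw [h3]
      simp only [Complex.exp_sub] at h2 ⊢
      have n1 := Complex.exp_ne_zero (∑ i, (α i : ℂ) * G i (f v))
      have n2 := Complex.exp_ne_zero (∑ i, (α i : ℂ) * G i v)
      have n3 := Complex.exp_ne_zero (P (f v))
      have n4 := Complex.exp_ne_zero (P v)
      field_simp at h2 ⊢
      linear_combination h2
    rw [← eval_sc, h1, map_mul, eval_C]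

end main

end Run7.h323.CC
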