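import Pool.Agent.Run7.h323.CC.Approx
import Pool.Agent.Run7.h323.CC.FinM

/-!
# The movable cone of a toric bundle
-/

set_option autoImplicit false
set_option linter.unusedSectionVars false

namespace Run7.h323.CC

open Filter Topology
open Pool.Agent.W594.SYZ2 Pool.Agent.TH735.AQ Q47.TB Run7.h323.TQ MvPolynomial
open Pool.Agent.Y167 (AffGrp IsClass N1 N1s Normalizes cone Rel opE lattE Integral intL mem_intL
  span_intL nef_add nef_smul CData exists_cdata exists_pull cone_image cone_add cone_smul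
  zero_mem_cone mem_cone_self cone_le cone_mono mem_cone_of_sum cone_sum cone_ind Cp
  nef_of_section exists_eff cone_of_scaled)

variable {V : Type*} [NormedAddCommGroup V] [NormedSpace ℂ V] [FiniteDimensional ℂ V]
  {Γ : AffGrp V} {ι : Type*} [Fintype ι] {n : ℕ} {u : ι → Fin n → ℤ} {S : Set (Set ι)}
  {c : ι → LineBundle Γ} {Hc : ι → V → V → ℂ} {κ : Type*} [Fintype κ]

/-- A monomial in a section gives a decomposition. -/
theorem isSum_of_coeff (hΓ : IsTorusQuotient Γ) (hc : ∀ i, IsChernForm (c i) (Hc i))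
    {x : N1Y u Γ (idV V)} {d : ι → ℤ} {L : LineBundle Γ} (hx : IsClassY u (idV V) d L x)
    {F : V → MvPolynomial ι ℂ} (hF : IsSection u c d L.e F) {v : V} {α : ι →₀ ℕ}
    (hα : coeff α (F v) ≠ 0) {τ : Set ι} (hτ : ∀ i ∈ τ, α i = 0) : IsSum u Hc (idV V) x τ := by
  obtain ⟨h1, H, hL, h2⟩ := hx
  obtain ⟨m, hm⟩ := hF.deg v α (mem_support_iff.2 hα)
  have h3 := chern_tw hL hc 1 fun i => α i
  have h4 := nef_of_section hΓ h3 (coeff_section hF α) ⟨v, hα⟩
  have h5 : ∀ a b, (sb hc x fun i => (α i : ℝ)).1 a b =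
      ((1 : ℕ) : ℂ) * (H a b - ∑ i, ((α i : ℕ) : ℂ) * Hc i a b) := by
    intro a b
    rw [sb_apply, h2, Nat.cast_one, one_mul]
    push_cast
    rfl
  rw [isSum_iff hc]
  refine ⟨fun i => (α i : ℝ), fun i => Nat.cast_nonneg _, fun i hi => ?_, ?_, fun e => ?_⟩
  · change ((α i : ℕ) : ℝ) = 0
    rw [hτ i hi, Nat.cast_zero]
  · rw [h1, cl_eq_cl]
    refine ⟨fun k => -(m k : ℝ), fun i => ?_⟩
    have h6 : ((α i : ℤ) : ℝ) = ((d i + ∑ k, m k * u i k : ℤ) : ℝ) :=
      congrArg (fun z : ℤ => (z : ℝ)) (hm i)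
    push_cast at h6
    rw [h6]
    simp only [neg_mul, Finset.sum_neg_distrib]
    ring
  · rw [h5]
    exact h4 e

/-- Movable classes satisfy the conditions. -/
theorem isSum_of_mov (hΓ : IsTorusQuotient Γ) (hS : IsSmoothFan u S)
    (hc : ∀ i, IsChernForm (c i) (Hc i)) {x : N1Y u Γ (idV V)} (hx : x ∈ movCls u S c)
    {τ : Set ι} (hτ : τ.Subsingleton) : IsSum u Hc (idV V) x τ := by
  classical
  obtain ⟨d, L, hcl, ⟨p, -, hp⟩, hcod⟩ := hx
  rcases hτ.eq_empty_or_singleton with rfl | ⟨i, rfl⟩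
  · change ¬ ∀ F, IsSection u c d L.e F → eval p.2 (F p.1) = 0 at hp
    push Not at hp
    obtain ⟨F, hF, hne⟩ := hp
    have h1 : F p.1 ≠ 0 := by
      rintro h
      rw [h, map_zero] at hne
      exact hne rfl
    obtain ⟨α, hα⟩ := MvPolynomial.ne_zero_iff.1 h1
    exact isSum_of_coeff hΓ hc hcl hF hα (fun i hi => absurd hi (Set.notMem_empty i))
  · -- a point with the only vanishing coordinate `i`
    let p₀ : V × (ι → ℂ) := (0, fun k => if k = i then 0 else 1)
    have hp₀ : p₀ ∈ Cox V S := by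
      change {k | (if k = i then (0 : ℂ) else 1) = 0} ∈ S
      have h1 : {k | (if k = i then (0 : ℂ) else 1) = 0} = {i} := by
        ext k
        by_cases h : k = i <;> simp [h]
      rw [h1]
      exact hS.ray i
    let f : V × (ι → ℂ) →L[ℂ] ℂ :=
      (ContinuousLinearMap.proj i).comp (ContinuousLinearMap.snd ℂ V (ι → ℂ))
    have hf : ∀ q : V × (ι → ℂ), f q = q.2 i := fun q => rfl
    have h2 : ∃ᶠ q in 𝓝 p₀, f q ≠ 0 := by
      have h3 : Tendsto (fun ε : ℂ => p₀ + ε • ((0, Pi.single i 1) : V × (ι → ℂ))) (𝓝[≠] 0)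
          (𝓝 p₀) := by
        have h4 : Continuous fun ε : ℂ => p₀ + ε • ((0, Pi.single i 1) : V × (ι → ℂ)) := by
          fun_prop
        have h5 := h4.tendsto 0
        rw [zero_smul, add_zero] at h5
        exact h5.mono_left nhdsWithin_le_nhds
      refine h3.frequently (Eventually.frequently ?_)
      filter_upwards [self_mem_nhdsWithin] with ε hε
      rw [hf]
      have h6 : (p₀ + ε • ((0, Pi.single i 1) : V × (ι → ℂ))).2 i = ε := by
        simp [p₀]
      rw [h6]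
      exact hε
    obtain ⟨q, hq1, hq2⟩ := (hcod p₀ hp₀ f (f.analyticAt p₀) (by rw [hf]; simp [p₀]) h2).exists
    change ¬ ∀ F, IsSection u c d L.e F → eval q.2 (F q.1) = 0 at hq2
    push Not at hq2
    obtain ⟨F, hF, hne⟩ := hq2
    rw [eval_eq] at hne
    obtain ⟨α, hα, hne⟩ := Finset.exists_ne_zero_of_sum_ne_zero hne
    refine isSum_of_coeff hΓ hc hcl hF (mem_support_iff.1 hα) (fun k hk => ?_)
    rw [Set.mem_singleton_iff] at hk
    rw [hk]
    by_contra h7
    apply hne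
    rw [mul_eq_zero]
    right
    refine Finset.prod_eq_zero (i := i) (Finsupp.mem_support_iff.2 h7) ?_
    rw [hf] at hq1
    rw [hq1, zero_pow h7]

section span

variable {L : LineBundle Γ} {H : V → V → ℂ}

/-- The data for the class of an ample line bundle plus a class satisfying the conditions. -/
theorem dat_add (P : Pre Γ (idV V)) (hS : IsSmoothFan u S) (hc : ∀ i, IsChernForm (c i) (Hc i))
    (hL : IsChernForm L H) {d : ι → ℤ} (hA : IsAmple u S Hc d H) {a : N1Y u Γ (idV V)}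
    {τ : Set ι} (hτ : ∃ σ, IsMax S σ ∧ τ ⊆ σ) (ha : IsSum u Hc (idV V) a τ) (q : ℕ)
    {d' : ι → ℤ} {H' : V → V → ℂ} (hd' : ((q : ℝ) • a + yC u (idV V) hL d).1 =
      cl u (fun i => (d' i : ℝ)))
    (hH' : ∀ v w, ((q : ℝ) • a + yC u (idV V) hL d).2.1 v w = H' v w) :
    ∃ σ β H₀, Dat u S Hc d' H' τ σ β H₀ := by
  obtain ⟨σ, hσ, hτσ⟩ := hτ
  obtain ⟨β, Hσ, h1, h2, R, h3⟩ := amp_data hc hL P hA hσ
  obtain ⟨β', h4, h5, h6, h7⟩ := (isSum_iff hc).1 ha
  obtain ⟨ξ₀, y₀, Y, D, hy₀⟩ := exists_cdata R (intL Γ (idV V)) (k := 1) one_pos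
    (fun x hx => by rw [Nat.cast_one, one_smul]; exact hx)
    (fun x hx => by rw [Nat.cast_one, one_smul]; exact hx)
  refine ⟨σ, (q : ℝ) • β' + fun i => (β i : ℝ), Hσ, hσ, hτσ, fun i => ?_, fun i hi => ?_,
    fun i hi => ?_, ?_, R.pos, fun i => ?_, fun v => ?_⟩
  · exact add_nonneg (mul_nonneg (Nat.cast_nonneg _) (h4 i)) (Nat.cast_nonneg _)
  · change (q : ℝ) * β' i + β i = 0
    rw [h5 i hi, (h1 i).2 (hτσ hi)]
    simp
  · change 1 ≤ (q : ℝ) * β' i + β i
    have h8 : (1 : ℝ) ≤ β i := by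
      have : β i ≠ 0 := fun h => hi ((h1 i).1 h)
      exact_mod_cast Nat.one_le_iff_ne_zero.2 this
    have h9 : 0 ≤ (q : ℝ) * β' i := mul_nonneg (Nat.cast_nonneg _) (h4 i)
    linarith
  · rw [← hd', cl_add, cl_smul, ← h2, ← h6]
    rfl
  · obtain ⟨C₁, hC₁, e1⟩ := D.y_int (hN (idV V) hc i)
    obtain ⟨C₂, hC₂, e2⟩ := D.y_int (-(hN (idV V) hc i))
    refine ⟨C₁ + C₂, by linarith, fun v => ?_⟩
    have e3 := e1 v
    have e4 := e2 v
    have e5 : y₀.1 v v = Hσ v v := by
      rw [hy₀, Nat.cast_one, one_mul]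
      rfl
    change 0 ≤ (C₁ • y₀.1 v v - Hc i v v).re at e3
    change 0 ≤ (C₂ • y₀.1 v v - -(Hc i v v)).re at e4
    rw [e5, Complex.sub_re, Complex.smul_re, smul_eq_mul] at e3
    rw [e5, Complex.sub_re, Complex.smul_re, smul_eq_mul, Complex.neg_re] at e4
    have e6 : 0 ≤ (Hσ v v).re := by
      by_cases hv : v = 0
      · have : Hσ v v = 0 := by
          obtain ⟨-, hLσ, -⟩ := R.chern
          rw [hv]
          have := hLσ.smul_left 0 0 0
          simpa using this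
        rw [this]
        simp
      · exact (R.pos v hv).le
    rw [abs_le]
    constructor <;> nlinarith
  · have e1 := h7 v
    have e2 : (sb hc ((q : ℝ) • a + yC u (idV V) hL d) ((q : ℝ) • β' + fun i => (β i : ℝ))).1 v v =
        (q : ℝ) • (sb hc a β').1 v v + Hσ v v := by
      rw [sb_add, sb_smul]
      change (q : ℝ) • (sb hc a β').1 v v + (sb hc (yC u (idV V) hL d) _).1 v v = _
      rw [h3]
      rfl
    rw [sb_apply, hH'] at e2
    have e3 : (H' v v - ∑ i, ((((q : ℝ) • β' + fun i => (β i : ℝ)) i : ℝ) : ℂ) * Hc i v v).re =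
        ((q : ℝ) • (sb hc a β').1 v v + Hσ v v).re := by rw [← e2]; rfl
    rw [e3, Complex.add_re, Complex.smul_re, smul_eq_mul]
    have : 0 ≤ (q : ℝ) * ((sb hc a β').1 v v).re := mul_nonneg (Nat.cast_nonneg _) e1
    linarith

/-- The integral classes satisfying the conditions are limits of movable classes. -/
theorem int_clMov (P : Pre Γ (idV V)) (hS : IsSmoothFan u S)
    (hc : ∀ i, IsChernForm (c i) (Hc i)) (hL : IsChernForm L H) {d : ι → ℤ}
    (hA : IsAmple u S Hc d H) {a : N1Y u Γ (idV V)} (hai : a ∈ intY u Γ (idV V))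
    (ha : ∀ τ : Set ι, τ.Subsingleton → IsSum u Hc (idV V) a τ) : a ∈ clMov u S c := by
  classical
  have hmax : ∀ τ : Set ι, τ.Subsingleton → ∃ σ, IsMax S σ ∧ τ ⊆ σ := by
    intro τ hτ
    refine exists_max ?_
    rcases hτ.eq_empty_or_singleton with rfl | ⟨i, rfl⟩
    · exact hS.empty_mem
    · exact hS.ray i
  have hstep : ∀ q : ℕ, a + (1 / ((q : ℝ) + 1)) • yC u (idV V) hL d ∈
      coneOf (movCls u S c) := by
    intro q
    have hb : (((q + 1 : ℕ) : ℝ)) • a + yC u (idV V) hL d ∈ intY u Γ (idV V) := by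
      refine (intY u Γ (idV V)).add_mem ?_ (yC_int hL)
      rw [Nat.cast_smul_eq_nsmul]
      exact (intY u Γ (idV V)).nsmul_mem hai _
    obtain ⟨d', L', h1, H', hL', h2⟩ := hb
    obtain ⟨m, hm, hcod⟩ := movable_of hS P.tq hc (d := d') hL' fun τ hτ =>
      dat_add P hS hc hL hA (hmax τ hτ) (ha τ hτ) (q + 1) h1 (fun v w => h2 v w)
    have hmr : (0 : ℝ) < m := by exact_mod_cast hm
    set b := (((q + 1 : ℕ) : ℝ)) • a + yC u (idV V) hL d with hbdef
    have h3 : (m : ℝ) • b ∈ movCls u S c := by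
      refine ⟨fun i => m * d' i, L'.pow m, ⟨?_, _, chern_pow' hL' m, fun v w => ?_⟩, hcod⟩
      · rw [Prod.smul_fst, h1, ← cl_smul]
        congr 1
        funext i
        simp
      · change (m : ℝ) • b.2.1 v w = _
        rw [h2, Complex.real_smul, Complex.ofReal_natCast]
    refine ⟨{(m : ℝ) • b}, by simpa using h3, ?_⟩
    have hq : (0 : ℝ) < (q : ℝ) + 1 := by positivity
    have h4 : a + (1 / ((q : ℝ) + 1)) • yC u (idV V) hL d = (1 / ((q : ℝ) + 1)) • b := by
      rw [hbdef, smul_add, smul_smul]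
      congr 1
      push_cast
      rw [one_div, inv_mul_cancel₀ hq.ne', one_smul]
    rw [h4]
    exact cone_smul (cone_of_scaled hmr (Finset.mem_singleton_self _)) (by positivity)
  refine mem_closure_of_tendsto (f := fun q : ℕ => a + (1 / ((q : ℝ) + 1)) • yC u (idV V) hL d)
    (b := atTop) ?_ (Eventually.of_forall hstep)
  have h5 : Tendsto (fun q : ℕ => a + (1 / ((q : ℝ) + 1)) • yC u (idV V) hL d) atTop
      (𝓝 (a + (0 : ℝ) • yC u (idV V) hL d)) :=
    tendsto_const_nhds.add (tendsto_one_div_add_atTop_nhds_zero_nat.smul_const _)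
  rwa [zero_smul, add_zero] at h5

end span

/-- The effective movable cone. -/
theorem mov_eq (P : Pre Γ (idV V)) (hS : IsSmoothFan u S) (hc : ∀ i, IsChernForm (c i) (Hc i))
    (hproj : IsProjective u S Γ Hc) {Δ : EffDivY u c κ} (hnum : NumTrivialY Hc (idV V) Δ)
    (hklt : IsKltY S Δ) : clMov u S c ∩ effCone u c (idV V) =
      {x | ∀ τ ∈ {τ : Set ι | τ.Subsingleton}, IsSum u Hc (idV V) x τ} ∩
        effCone u c (idV V) := by
  classical
  have hmax : ∀ τ : Set ι, τ.Subsingleton → ∃ σ, IsMax S σ ∧ τ ⊆ σ := by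
    intro τ hτ
    refine exists_max ?_
    rcases hτ.eq_empty_or_singleton with rfl | ⟨i, rfl⟩
    · exact hS.empty_mem
    · exact hS.ray i
  have hne : ({τ : Set ι | τ.Subsingleton}).Nonempty := ⟨∅, Set.subsingleton_empty⟩
  apply Set.Subset.antisymm
  · rintro x ⟨hx, hxe⟩
    refine ⟨closure_NfT hS P hc hproj hne hmax (closure_mono ?_ hx), hxe⟩
    rintro y ⟨T, hT, hy⟩ τ hτ
    exact IsSum.of_cone hc (fun a ha => isSum_of_mov P.tq hS hc (hT ha) hτ) hy
  · rintro x ⟨hx, hxe⟩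
    refine ⟨?_, hxe⟩
    obtain ⟨d, L, H, hL, hA⟩ := hproj
    obtain ⟨σ₀, hσ₀, -⟩ := exists_max hS.empty_mem
    obtain ⟨-, H₀, -, -, R, -⟩ := amp_data hc hL P hA hσ₀
    have hK : KerAll u Hc Γ (idV V) := fun e he q w => (ker_all hS R hc hnum hklt he).2 q w
    have h1 : x ∈ Cp (intY u Γ (idV V)) (NfT u Hc Γ (idV V)
        (Set.toFinite {τ : Set ι | τ.Subsingleton}).toFinset) := by
      rw [mem_Cp hc hS (by rwa [(Set.toFinite _).toFinset_nonempty]) hK R x, NfT_eq]
      exact ⟨hx, hxe⟩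
    obtain ⟨T, hT, hxT⟩ := h1
    rw [NfT_eq] at hT
    have hsub : ∀ a ∈ T, a ∈ clMov u S c := fun a ha =>
      int_clMov P hS hc hL hA (hT a ha).1 (hT a ha).2
    have hadd : ∀ a b, a ∈ clMov u S c → b ∈ clMov u S c → a + b ∈ clMov u S c := by
      intro a b h2 h3
      refine map_mem_closure₂ continuous_add h2 h3 ?_
      rintro y ⟨T, hT, hy⟩ z ⟨T', hT', hz⟩
      refine ⟨T ∪ T', ?_, cone_add (cone_mono Finset.subset_union_left hy)
        (cone_mono Finset.subset_union_right hz)⟩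
      rw [Finset.coe_union]
      exact Set.union_subset hT hT'
    have hsmul : ∀ (t : ℝ) a, 0 ≤ t → a ∈ clMov u S c → t • a ∈ clMov u S c := by
      intro t a ht h2
      refine map_mem_closure (continuous_const_smul t) h2 ?_
      rintro y ⟨T, hT, hy⟩
      exact ⟨T, hT, cone_smul hy ht⟩
    refine cone_ind (p := fun x => x ∈ clMov u S c) ?_ hadd hsmul hsub hxT
    exact subset_closure ⟨∅, by simp, zero_mem_cone _⟩

end Run7.h323.CC
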