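import Pool.Agent.Run7.h323.CC.Mov

/-!
# The cone theorem for the movable cone of a toric bundle, in terms of `NY`
-/

set_option autoImplicit false
set_option linter.unusedSectionVars false

namespace Run7.h323.CC

open Pool.Agent.W594.SYZ2 Pool.Agent.TH735.AQ Q47.TB Run7.h323.TQ
open Pool.Agent.Y167 (AffGrp)
open Pool.Agent.Y167.CC (LinGrp Preserves IsFundDomain)

variable {V E : Type*} [NormedAddCommGroup V] [NormedSpace ℂ V]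
  [NormedAddCommGroup E] [NormedSpace ℂ E] {Γ : AffGrp V}
  {j : E →ₗ[ℂ] V} {ι : Type*} [Fintype ι] {n : ℕ} {u : ι → Fin n → ℤ} {S : Set (Set ι)}
  {c : ι → LineBundle Γ} {Hc : ι → V → V → ℂ} {κ : Type*} [Fintype κ]

theorem exists_max_of_subsingleton (hS : IsSmoothFan u S) {τ : Set ι} (hτ : τ.Subsingleton) :
    ∃ σ, IsMax S σ ∧ τ ⊆ σ := by
  refine exists_max ?_
  rcases hτ.eq_empty_or_singleton with rfl | ⟨i, rfl⟩
  · exact hS.empty_mem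
  · exact hS.ray i

/-- The cone theorem for the movable cone. -/
theorem movFin [FiniteDimensional ℂ V] (hS : IsSmoothFan u S) (P : Pre Γ (idV V))
    (hc : ∀ i, IsChernForm (c i) (Hc i)) (hproj : IsProjective u S Γ Hc) {Δ : EffDivY u c κ}
    (hnum : NumTrivialY Hc (idV V) Δ) (hklt : IsKltY S Δ) (𝒢 : LinGrp (NY u Γ (idV V)))
    (h𝒢M : PreservesLattice 𝒢 (integralY u (idV V) Γ)) (h𝒢N : Preserves 𝒢 (movEffY u S c))
    (h𝒢 : HasAll 𝒢 fun g => ∃ f φ, IsAut u c f φ ∧ Fixes Δ f φ ∧ IsPull Hc f g) :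
    HasDomain 𝒢 (integralY u (idV V) Γ) (movEffY u S c) ∧ FiniteFaces 𝒢 (movEffY u S c) := by
  obtain ⟨M, ⟨k₁, hk₁, hM1⟩, ⟨k₂, hk₂, hM2⟩, hM3⟩ := h𝒢M
  have hM1' : ∀ x ∈ integralY u (idV V) Γ, ((k₁ * k₂ : ℕ) : ℝ) • x ∈ M := fun x hx => by
    have h1 : ((k₁ * k₂ : ℕ) : ℝ) • x = k₂ • (k₁ : ℝ) • x := by
      rw [← Nat.cast_smul_eq_nsmul ℝ, smul_smul, Nat.cast_mul, mul_comm]
    rw [h1]
    exact M.nsmul_mem (hM1 x hx) _
  have hM2' : ∀ x ∈ M, ((k₁ * k₂ : ℕ) : ℝ) • x ∈ integralY u (idV V) Γ := fun x hx => by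
    have h1 : ((k₁ * k₂ : ℕ) : ℝ) • x = (k₂ : ℝ) • (k₁ • x) := by
      rw [← Nat.cast_smul_eq_nsmul ℝ, smul_smul, Nat.cast_mul, mul_comm]
    rw [h1]
    exact hM2 _ (M.nsmul_mem hx _)
  have heq : movEffY u S c = toNY {x : N1Y u Γ (idV V) |
      ∀ τ ∈ {τ : Set ι | τ.Subsingleton}, IsSum u Hc (idV V) x τ} ∩ effY u (idV V) c :=
    mov_eq P hS hc hproj hnum hklt
  rw [heq] at h𝒢N ⊢
  exact mainM hS P hc hproj hnum hklt ⟨∅, Set.subsingleton_empty⟩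
    (fun τ hτ => exists_max_of_subsingleton hS hτ) M (Nat.mul_pos hk₁ hk₂) hM1' hM2' 𝒢 hM3
    h𝒢N
    fun g ⟨f, φ, h1, _, h2, h3⟩ => h𝒢 g ⟨f, φ, h1, h2, h3⟩

end Run7.h323.CC
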