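import Pool.Agent.Run7.h323.CC.Stm

/-!
# The movable cone of a toric bundle: definitions
-/

set_option autoImplicit false

namespace Run7.h323.CC

open Filter Topology
open Pool.Agent.W594.SYZ2 Pool.Agent.TH735.AQ Q47.TB MvPolynomial
open Pool.Agent.Y167 (AffGrp cone)
open Pool.Agent.Y167.CC (LinGrp)

/-- The subset `B` of the connected open set `U` has codimension at least `2`: there are points of `U`
outside `B`, and `B` does not contain the zero set of a holomorphic function, not even locally, that
is, every nontrivial holomorphic function which vanishes at `p ∈ U` has zeros outside `B` arbitrarily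
near to `p`. (This is meant for analytic subsets `B` of `U`.) -/
def CodimTwo {X : Type*} [NormedAddCommGroup X] [NormedSpace ℂ X] (U B : Set X) : Prop :=
  (∃ p ∈ U, p ∉ B) ∧ ∀ p ∈ U, ∀ f : X → ℂ, AnalyticAt ℂ f p → f p = 0 →
    (∃ᶠ q in 𝓝 p, f q ≠ 0) → ∃ᶠ q in 𝓝 p, f q = 0 ∧ q ∉ B

variable {V : Type*} [NormedAddCommGroup V] [NormedSpace ℂ V] {Γ : AffGrp V}
  {ι : Type*} [Fintype ι] {n : ℕ}

/-- The Cox coordinates of the points of `Y`. -/
def Cox (V : Type*) {ι : Type*} (S : Set (Set ι)) : Set (V × (ι → ℂ)) :=
  {p | {i | p.2 i = 0} ∈ S}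

/-- The base locus of `O_Y(d; L)`, in Cox coordinates: the points at which all sections vanish. -/
def baseLocus (u : ι → Fin n → ℤ) (c : ι → LineBundle Γ) (d : ι → ℤ) (L : LineBundle Γ) :
    Set (V × (ι → ℂ)) :=
  {p | ∀ F, IsSection u c d L.e F → eval p.2 (F p.1) = 0}

/-- The identity map. -/
abbrev idV (V : Type*) [NormedAddCommGroup V] [NormedSpace ℂ V] : V →ₗ[ℂ] V := LinearMap.id

/-- The classes of the line bundles whose base locus has codimension at least two. -/
def movCls (u : ι → Fin n → ℤ) (S : Set (Set ι)) (c : ι → LineBundle Γ) :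
    Set (N1Y u Γ (idV V)) :=
  {x | ∃ (d : ι → ℤ) (L : LineBundle Γ), IsClassY u (idV V) d L x ∧
    CodimTwo (Cox V S) (baseLocus u c d L)}

/-- The convex cone spanned by the set `A`. -/
def coneOf {W : Type*} [AddCommGroup W] [Module ℝ W] (A : Set W) : Set W :=
  {x | ∃ T : Finset W, ↑T ⊆ A ∧ x ∈ cone T}

/-- The closure of the cone spanned by the movable classes. -/
def clMov (u : ι → Fin n → ℤ) (S : Set (Set ι)) (c : ι → LineBundle Γ) :
    Set (N1Y u Γ (idV V)) := closure (coneOf (movCls u S c))

/-- The cone `Mov^e(Y)`: the intersection of the closure of the convex cone spanned by the classes of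
the line bundles whose base locus has codimension at least `2` with the effective cone. -/
def movEffY (u : ι → Fin n → ℤ) (S : Set (Set ι)) (c : ι → LineBundle Γ) :
    Set (NY u Γ (idV V)) := toNY (clMov u S c) ∩ effY u (idV V) c

/-- All elements of `A` have a positive multiple in `B`, with a common factor. -/
def Commens {W : Type*} [AddCommGroup W] [Module ℝ W] (A B : Set W) : Prop :=
  ∃ k : ℕ, 0 < k ∧ ∀ x ∈ A, (k : ℝ) • x ∈ B

/-- The group `𝒢` preserves a group of classes which is commensurable with the group `I` (of the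
integral classes). For pseudo-automorphisms: the group of the classes of Weil divisors. -/
def PreservesLattice {W : Type*} [AddCommGroup W] [Module ℝ W] (𝒢 : LinGrp W) (I : Set W) : Prop :=
  ∃ M : AddSubgroup W, Commens I M ∧ Commens M I ∧ ∀ g ∈ 𝒢, ∀ x ∈ M, g x ∈ M

end Run7.h323.CC
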