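import Pool.Agent.Run7.h323.CC.Defs
import Pool.Agent.Y167.StmFace

/-!
# Cones of divisors on toric bundles over quotients of complex tori: definitions for the statements

The definitions of `Pool.Agent.Run7.h323.CC.Defs` again, for the real vector space `NY u Γ j` as a
type of its own, and the properties of groups acting on a cone in a real vector space which are stated
in the theorems.
-/

set_option autoImplicit false

namespace Run7.h323.CC

open Pool.Agent.W594.SYZ2 Pool.Agent.TH735.AQ Q47.TB Run7.h323.TQ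
open Pool.Agent.Y167 (AffGrp IsClass N1 cone IsFace)
open Pool.Agent.Y167.CC (LinGrp IsFundDomain)

section groups

variable {W : Type*} [AddCommGroup W] [Module ℝ W]

/-- The set `T` is finite, contained in `I`, and the convex cone spanned by `T` is contained in `A` and
is a fundamental domain for the action of `𝒢` on `A`. (For `I` the set of integral classes: the group
`𝒢` has a rational polyhedral fundamental domain on `A`.) -/
def HasDomain [TopologicalSpace W] (𝒢 : LinGrp W) (I A : Set W) : Prop :=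
  ∃ T : Finset W, ↑T ⊆ I ∧ cone T ⊆ A ∧ IsFundDomain 𝒢 A (cone T)

/-- The faces of the convex cone `A` form finitely many orbits under `𝒢`. -/
def FiniteFaces (𝒢 : LinGrp W) (A : Set W) : Prop :=
  ∃ 𝓕 : Set (Set W), 𝓕.Finite ∧ (∀ F ∈ 𝓕, IsFace F A) ∧
    ∀ F, IsFace F A → ∃ g ∈ 𝒢, ∃ F' ∈ 𝓕, F = g '' F'

/-- The group `𝒢` contains all linear automorphisms with the property `P`. -/
def HasAll (𝒢 : LinGrp W) (P : (W ≃ₗ[ℝ] W) → Prop) : Prop := ∀ g, P g → g ∈ 𝒢

end groups

variable {V E : Type*} [NormedAddCommGroup V] [NormedSpace ℂ V]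
  [NormedAddCommGroup E] [NormedSpace ℂ E] {Γ : AffGrp V} {ι : Type*} [Fintype ι] {n : ℕ}

/-- `Y` is projective: it has an ample line bundle `O_Y(d; L)`. -/
def IsProjective (u : ι → Fin n → ℤ) (S : Set (Set ι)) (Γ : AffGrp V) (Hc : ι → V → V → ℂ) :
    Prop :=
  ∃ (d : ι → ℤ) (L : LineBundle Γ) (H : V → V → ℂ), IsChernForm L H ∧ IsAmple u S Hc d H

/-- The space `N^1(Y/Z) = N^1(F) ⊕ N^1(X/Z)`. The class of `O_Y(d; L)` is the pair of the class of
`∑ d_i D_i` and the class of `L`. -/
def NY (u : ι → Fin n → ℤ) (Γ : AffGrp V) (j : E →ₗ[ℂ] V) : Type _ := N1Y u Γ j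

variable {u : ι → Fin n → ℤ} {j : E →ₗ[ℂ] V}

noncomputable instance : AddCommGroup (NY u Γ j) := @Prod.instAddCommGroup (Cl u) (N1 Γ j) _ _

noncomputable instance : Module ℝ (NY u Γ j) := @Prod.instModule ℝ (Cl u) (N1 Γ j) _ _ _ _ _

noncomputable instance : TopologicalSpace (NY u Γ j) :=
  @instTopologicalSpaceProd (Cl u) (N1 Γ j) _ _

/-- The class on the fibres of `Y → X`. -/
def fib (x : NY u Γ j) : Cl u := x.1

/-- The hermitian form on `E` of the part in `N^1(X/Z)`. -/
def form (x : NY u Γ j) : E → E → ℂ := x.2.1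

variable (u) (S : Set (Set ι)) (c : ι → LineBundle Γ) (Hc : ι → V → V → ℂ) (j)

/-- The set `A`, as a set of elements of `NY u Γ j`. -/
def toNY {u : ι → Fin n → ℤ} {j : E →ₗ[ℂ] V} (A : Set (N1Y u Γ j)) : Set (NY u Γ j) := A

/-- The integral classes: the classes of line bundles. -/
def integralY (Γ : AffGrp V) : Set (NY u Γ j) := toNY (integral u j Γ)

/-- The rational classes: those which have a positive integral multiple. -/
def rationalY (Γ : AffGrp V) : Set (NY u Γ j) :=
  {x | ∃ n : ℕ, 0 < n ∧ (n : ℝ) • x ∈ integralY u j Γ}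

/-- The nef cone. -/
def nefY (Γ : AffGrp V) : Set (NY u Γ j) := toNY (nefCone u S Hc j)

/-- The effective cone. -/
def effY : Set (NY u Γ j) := toNY (effCone u c j)

/-- The invertible affine transformations of `V`. -/
abbrev Aff (V : Type*) [NormedAddCommGroup V] [NormedSpace ℂ V] : Type _ := V ≃ᵃ[ℂ] V

/-- The elements of `Γ`. -/
abbrev Elt (Γ : AffGrp V) : Type _ := Γ

/-- The image of `v` under `f`. -/
def ap (f : Aff V) (v : V) : V := f v

/-- The image of `v` under the linear part of `f`. -/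
def lin (f : Aff V) (v : V) : V := f.linear v

/-- The image of `v` under the element `γ` of `Γ`. -/
def act (γ : Elt Γ) (v : V) : V := ap γ.1 v

/-- `γ' = f γ f⁻¹`. -/
def IsConj (f : Aff V) (γ γ' : Elt Γ) : Prop := ∀ v, act γ' (ap f v) = ap f (act γ v)

/-- The map `(v, x) ↦ (f v, φ(v) x)` induces an automorphism of `Y`: `f` normalises `Γ`, and if
`γ' = f γ f⁻¹` then the images of `(v, x)` and of `γ (v, x) = (γ v, c(γ, v) x)` are equivalent, that
is, for some `t` with `∏ t_i ^ (u_i)_k = 1` for all `k` the image of `γ (v, x)` is `t γ'` applied to the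
image of `(v, x)`. -/
structure IsAut (f : Aff V) (φ : ι → V → ℂ) : Prop where
  norm : ∀ γ : Elt Γ, ∃ γ', IsConj f γ γ'
  norm' : ∀ γ' : Elt Γ, ∃ γ, IsConj f γ γ'
  holo : ∀ i, Differentiable ℂ (φ i)
  ne_zero : ∀ i v, φ i v ≠ 0
  eq : ∀ γ γ' : Elt Γ, IsConj f γ γ' → ∀ v, ∃ t : ι → ℂˣ, (∀ k, ∏ i, t i ^ u i k = 1) ∧ ∀ i,
    φ i (act γ v) * (c i).e γ v = t i * ((c i).e γ' (ap f v) * φ i v)

variable {u j}

/-- The linear automorphisms of `N^1(Y/Z)`. -/
abbrev Lin1 (u : ι → Fin n → ℤ) (Γ : AffGrp V) (j : E →ₗ[ℂ] V) : Type _ :=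
  NY u Γ j ≃ₗ[ℝ] NY u Γ j

/-- The image of `x` under `g`. -/
noncomputable def im (g : Lin1 u Γ j) (x : NY u Γ j) : NY u Γ j := g x

/-- The form on `E` of the class `x - ∑ d_i D_i`, that is, of the restriction of `x` to the section
`x_i = 0`, `i ∈ σ`, if `d_i = 0` for `i ∈ σ`, for a maximal cone `σ`. -/
def resForm (x : NY u Γ j) (d : ι → ℝ) (a b : E) : ℂ :=
  form x a b - ∑ i, (d i : ℂ) * Hc i (j a) (j b)

/-- `g` is the pullback on `N^1(Y/Z)` by an automorphism of `Y` induced by `(v, x) ↦ (f v, φ(v) x)`. It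
fixes the classes on the fibres of `Y → X`, and the line bundles `L ⊗ ∏ c_i ^ (-d_i)` given by
`O_Y(d; L)` are pulled back by `f`. -/
def IsPull (f : Aff V) (g : Lin1 u Γ j) : Prop :=
  ∀ x : NY u Γ j, fib (im g x) = fib x ∧ ∀ d : ι → ℝ, fib x = cl u d → ∀ a b a' b' : E,
    j a' = lin f (j a) → j b' = lin f (j b) → resForm Hc (im g x) d a b = resForm Hc x d a' b'

end Run7.h323.CC
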