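import Pool.Agent.Run7.h323.CC.Cov

/-!
# The projection of `N^1(X/Z)` to the part given by the directions parallel to the mirrors
-/

set_option autoImplicit false
set_option linter.unusedSectionVars false

namespace Run7.h323.CC

open Filter Topology
open Pool.Agent.W594.SYZ2 Pool.Agent.W594.SYZ2.TQ Pool.Agent.TH735.AQ Pool.Agent.TH128.SYZ
open Pool.Agent.Y167

variable {V E : Type*} [NormedAddCommGroup V] [NormedSpace ℂ V] [FiniteDimensional ℂ V]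
  [NormedAddCommGroup E] [NormedSpace ℂ E] [FiniteDimensional ℂ E] {Γ : Subgroup (V ≃ᵃ[ℂ] V)}
  {j : E →ₗ[ℂ] V} {H₀ : V → V → ℂ} {p : Module.End ℂ E}

/-- Restriction of forms to the image of `p`. -/
def rp (p : Module.End ℂ E) : (E → E → ℂ) →ₗ[ℝ] (E → E → ℂ) where
  toFun h := fun v w => h (p v) (p w)
  map_add' _ _ := rfl
  map_smul' _ _ := rfl

/-- A class has a hermitian invariant form. -/
theorem N1_herm (R : Rel Γ j H₀) (x : N1 Γ j) : IsHermitian x.1 := herm_of_span (mem_span_int R x)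

theorem N1_inv (R : Rel Γ j H₀) (x : N1 Γ j) {g : Module.End ℂ E} (hg : g ∈ opE Γ j) (a b : E) :
    x.1 (g a) (g b) = x.1 a b := by
  have h1 : ∀ z ∈ Submodule.span ℝ {z | Pol.IsInt (lattE Γ j) (opE Γ j) z},
      ∀ a b, z (g a) (g b) = z a b := by
    intro z hz
    induction hz using Submodule.span_induction with
    | mem z hz => exact fun a b => hz.inv g hg a b
    | zero => exact fun a b => rfl
    | add z z' _ _ h1 h2 =>
      intro a b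
      rw [Pi.add_apply, Pi.add_apply, Pi.add_apply, Pi.add_apply, h1, h2]
    | smul c z _ h1 =>
      intro a b
      rw [Pi.smul_apply, Pi.smul_apply, Pi.smul_apply, Pi.smul_apply, h1]
  exact h1 _ (mem_span_int R x) a b

/-- The nef integral classes: differences. -/
theorem sub_nef (R : Rel Γ j H₀) (x : N1 Γ j) (hx : Integral x) :
    ∃ y z : N1 Γ j, Integral y ∧ Integral z ∧ y ∈ nefCone Γ j ∧ z ∈ nefCone Γ j ∧ x = y - z := by
  obtain ⟨ξ₀, y₀, Y, D, hy₀⟩ := exists_cdata R (intL Γ j) (k := 1) one_pos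
    (fun x hx => by rw [Nat.cast_one, one_smul]; exact hx)
    (fun x hx => by rw [Nat.cast_one, one_smul]; exact hx)
  obtain ⟨C, hC, h1⟩ := D.y_int x
  refine ⟨(⌈C⌉₊ : ℝ) • y₀, (⌈C⌉₊ : ℝ) • y₀ - x, ?_, ?_, D.smul _ (Nat.cast_nonneg _) _ D.y_N, ?_,
    by abel⟩
  · rw [Nat.cast_smul_eq_nsmul]
    exact (intL Γ j).nsmul_mem D.y_L _
  · rw [Nat.cast_smul_eq_nsmul]
    exact (intL Γ j).sub_mem ((intL Γ j).nsmul_mem D.y_L _) hx
  · have h2 := D.add _ h1 _ (D.smul ((⌈C⌉₊ : ℝ) - C) (sub_nonneg.2 (Nat.le_ceil C)) _ D.y_N)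
    have h3 : C • y₀ - x + ((⌈C⌉₊ : ℝ) - C) • y₀ = (⌈C⌉₊ : ℝ) • y₀ - x := by module
    rwa [h3] at h2

theorem rp_nefint (R : Rel Γ j H₀) (hp : IsProj Γ j p) (x : N1 Γ j) (hx : Integral x)
    (hn : x ∈ nefCone Γ j) : ∃ M : ℕ, 0 < M ∧ ∃ y : N1 Γ j, Integral y ∧
      y.1 = (M : ℝ) • rp p x.1 := by
  obtain ⟨N, hN, hNr⟩ := hp.rat
  have h0 := isInt_of_integral R hx
  have h1 : Pol.IsInt (lattE Γ j) (opE Γ j) (fun v w => x.1 ((N : ℝ) • p v) ((N : ℝ) • p w)) := by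
    refine ⟨⟨?_, ?_, ?_⟩, ?_, ?_⟩
    · intro u v w
      rw [map_add, smul_add, h0.herm.add_left]
    · intro c v w
      rw [map_smul, smul_comm, h0.herm.smul_left]
    · intro v w
      exact h0.herm.symm _ _
    · intro g hg v w
      have h2 : ∀ v, (N : ℝ) • p (g v) = g ((N : ℝ) • p v) := fun v => by
        rw [← hp.comm g hg, ← Complex.coe_smul, ← Complex.coe_smul, map_smul]
      rw [h2, h2, h0.inv g hg]
    · intro v hv w hw
      exact h0.int _ (hNr v hv) _ (hNr w hw)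
  obtain ⟨m, hm, L, H, hL, h2, -⟩ := R.exists_class h1 (fun v => hn _)
  refine ⟨m * N ^ 2, by positivity, ⟨fun a b => H (j a) (j b), Submodule.subset_span
    ⟨L, H, hL, fun _ _ => rfl⟩⟩, ⟨L, H, hL, fun _ _ => rfl⟩, ?_⟩
  funext a b
  change H (j a) (j b) = ((m * N ^ 2 : ℕ) : ℝ) • x.1 (p a) (p b)
  rw [h2, ← Complex.coe_smul, ← Complex.coe_smul, h0.herm.smul_left, h_smul_right h0.herm,
    Complex.conj_ofReal, Complex.real_smul]
  push_cast
  ring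

theorem rp_mem (R : Rel Γ j H₀) (hp : IsProj Γ j p) {h : E → E → ℂ} (hh : h ∈ N1s Γ j) :
    rp p h ∈ N1s Γ j := by
  have hnef : ∀ x : N1 Γ j, Integral x → x ∈ nefCone Γ j → rp p x.1 ∈ N1s Γ j := by
    intro x hx hn
    obtain ⟨M, hM, y, -, hy⟩ := rp_nefint R hp x hx hn
    have hMr : (M : ℝ) ≠ 0 := by positivity
    have h1 : rp p x.1 = (M : ℝ)⁻¹ • y.1 := by rw [hy, smul_smul, inv_mul_cancel₀ hMr, one_smul]
    rw [h1]
    exact Submodule.smul_mem _ _ y.2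
  induction hh using Submodule.span_induction with
  | mem x hx =>
    obtain ⟨L, hL⟩ := hx
    obtain ⟨y, z, hy, hz, hyn, hzn, hyz⟩ := sub_nef R ⟨x, Submodule.subset_span ⟨L, hL⟩⟩ ⟨L, hL⟩
    have h1 : x = y.1 - z.1 := congrArg Subtype.val hyz
    rw [h1, map_sub]
    exact Submodule.sub_mem _ (hnef y hy hyn) (hnef z hz hzn)
  | zero => rw [map_zero]; exact Submodule.zero_mem _
  | add x y _ _ hx hy => rw [map_add]; exact Submodule.add_mem _ hx hy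
  | smul c x _ hx => rw [map_smul]; exact Submodule.smul_mem _ c hx

/-- The projection of `N^1(X/Z)`. -/
noncomputable def Tp (R : Rel Γ j H₀) (hp : IsProj Γ j p) : N1 Γ j →ₗ[ℝ] N1 Γ j where
  toFun x := ⟨rp p x.1, rp_mem R hp x.2⟩
  map_add' _ _ := rfl
  map_smul' _ _ := rfl

section Tp

variable (R : Rel Γ j H₀) (hp : IsProj Γ j p)

theorem Tp_apply (x : N1 Γ j) (a b : E) : (Tp R hp x).1 a b = x.1 (p a) (p b) := rfl

theorem Tp_idem (x : N1 Γ j) : Tp R hp (Tp R hp x) = Tp R hp x := by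
  apply Subtype.ext
  funext a b
  rw [Tp_apply, Tp_apply, Tp_apply, hp.proj, hp.proj]

theorem Tp_nef {x : N1 Γ j} (hx : x ∈ nefCone Γ j) : Tp R hp x ∈ nefCone Γ j := fun a => hx (p a)

theorem Tp_sub (x : N1 Γ j) (a b : E) :
    (x - Tp R hp x).1 a b = x.1 (a - p a) (b - p b) := by
  have hH := N1_herm R x
  have hi : ∀ g ∈ opE Γ j, ∀ a b, x.1 (g a) (g b) = x.1 a b := fun g hg a b => N1_inv R x hg a b
  change x.1 a b - x.1 (p a) (p b) = _
  have h1 : ∀ a b c, x.1 (a - b) c = x.1 a c - x.1 b c := fun a b c => h_sub_left hH a b c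
  have h2 : ∀ a b c, x.1 c (a - b) = x.1 c a - x.1 c b := fun a b c => by
    rw [hH.symm (a - b) c, h1, map_sub, ← hH.symm, ← hH.symm]
  rw [h1, h2, h2, hp.left x.1 hH hi a b, hp.right hH hi a b]
  ring

theorem Tp_sub_nef {x : N1 Γ j} (hx : x ∈ nefCone Γ j) : x - Tp R hp x ∈ nefCone Γ j := fun a => by
  rw [Tp_sub]
  exact hx _

/-- Good pairs act trivially on the kernel of `p`. -/
theorem GoodPair.fix (hp : IsProj Γ j p) {N : ℕ} {w : E ≃ₗ[ℂ] E} {f : V ≃ᵃ[ℂ] V} (hf : GoodPair Γ j N w f) (a : E) :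
    w (a - p a) = a - p a := by
  obtain ⟨m, hu⟩ := hf.good
  have h1 : p (w (a - p a) - (a - p a)) = w (a - p a) - (a - p a) := by
    refine hp.id _ fun x hx hr => ?_
    obtain ⟨n, ℓ, h⟩ := hr
    exact hu.refl x hx ⟨n, ℓ, h⟩ _
  have h2 : p (w (a - p a) - (a - p a)) = 0 := by
    rw [map_sub, ← hp.unit w (fun g hg e => hu.unit.comm g hg e), map_sub, hp.proj, sub_self,
      map_zero, sub_self]
  rw [h2] at h1
  exact (sub_eq_zero.1 h1.symm)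

theorem GoodPair.comm_p (hp : IsProj Γ j p) {N : ℕ} {w : E ≃ₗ[ℂ] E} {f : V ≃ᵃ[ℂ] V} (hf : GoodPair Γ j N w f) (a : E) :
    w (p a) = p (w a) := by
  obtain ⟨m, hu⟩ := hf.good
  exact hp.unit w (fun g hg e => hu.unit.comm g hg e) a

/-- The pullback commutes with the projection. -/
theorem Tp_pull {N : ℕ} {w : E ≃ₗ[ℂ] E} {f : V ≃ᵃ[ℂ] V} (hf : GoodPair Γ j N w f)
    {g : N1 Γ j ≃ₗ[ℝ] N1 Γ j} (hg : ∀ x v v', (g x).1 v v' = x.1 (w v) (w v')) (x : N1 Γ j) :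
    Tp R hp (g x) = g (Tp R hp x) := by
  apply Subtype.ext
  funext a b
  rw [hg, Tp_apply, Tp_apply, hg, GoodPair.comm_p hp hf, GoodPair.comm_p hp hf]

theorem Tp_fix {N : ℕ} {w : E ≃ₗ[ℂ] E} {f : V ≃ᵃ[ℂ] V} (hf : GoodPair Γ j N w f)
    {g : N1 Γ j ≃ₗ[ℝ] N1 Γ j} (hg : ∀ x v v', (g x).1 v v' = x.1 (w v) (w v')) (x : N1 Γ j) :
    g (x - Tp R hp x) = x - Tp R hp x := by
  apply Subtype.ext
  funext a b
  rw [hg, Tp_sub, Tp_sub]
  have h1 : ∀ a, w a - p (w a) = w (a - p a) := fun a => by rw [map_sub, GoodPair.comm_p hp hf]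
  rw [h1, h1, GoodPair.fix hp hf, GoodPair.fix hp hf]

theorem Tp_rat {x : N1 Γ j} (hx : Integral x) : ∃ M : ℕ, 0 < M ∧ Integral ((M : ℝ) • Tp R hp x) := by
  have hnef : ∀ x : N1 Γ j, Integral x → x ∈ nefCone Γ j →
      ∃ M : ℕ, 0 < M ∧ Integral ((M : ℝ) • Tp R hp x) := by
    intro x hx hn
    obtain ⟨M, hM, y, hy1, hy2⟩ := rp_nefint R hp x hx hn
    refine ⟨M, hM, ?_⟩
    have : (M : ℝ) • Tp R hp x = y := Subtype.ext hy2.symm
    rwa [this]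
  obtain ⟨y, z, hy, hz, hyn, hzn, hyz⟩ := sub_nef R x hx
  obtain ⟨M1, hM1, h1⟩ := hnef y hy hyn
  obtain ⟨M2, hM2, h2⟩ := hnef z hz hzn
  refine ⟨M1 * M2, Nat.mul_pos hM1 hM2, ?_⟩
  have h3 : ((M1 * M2 : ℕ) : ℝ) • Tp R hp x =
      M2 • ((M1 : ℝ) • Tp R hp y) - M1 • ((M2 : ℝ) • Tp R hp z) := by
    rw [hyz, map_sub, ← Nat.cast_smul_eq_nsmul ℝ M2, ← Nat.cast_smul_eq_nsmul ℝ M1, smul_smul,
      smul_smul, smul_sub]
    push_cast
    rw [mul_comm (M2 : ℝ)]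
  rw [h3]
  exact (intL Γ j).sub_mem ((intL Γ j).nsmul_mem h1 _) ((intL Γ j).nsmul_mem h2 _)

/-- Multiples of finitely many classes. -/
theorem rescale {F : Finset (N1 Γ j)} (g : N1 Γ j →ₗ[ℝ] N1 Γ j)
    (hg : ∀ x ∈ F, ∃ M : ℕ, 0 < M ∧ Integral ((M : ℝ) • g x)) :
    ∃ G : Finset (N1 Γ j), (∀ a ∈ G, Integral a ∧ a ≠ 0 ∧ ∃ x ∈ F, ∃ M : ℕ, 0 < M ∧
      a = (M : ℝ) • g x) ∧ ∀ x ∈ cone F, g x ∈ cone G := by
  classical
  choose! M hM1 hM2 using hg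
  refine ⟨(F.image fun x => (M x : ℝ) • g x).filter (· ≠ 0), fun a ha => ?_, fun x hx => ?_⟩
  · obtain ⟨ha1, ha2⟩ := Finset.mem_filter.1 ha
    obtain ⟨x, hx, rfl⟩ := Finset.mem_image.1 ha1
    exact ⟨hM2 x hx, ha2, x, hx, M x, hM1 x hx, rfl⟩
  · have h1 := cone_image g hx
    refine cone_le (fun a ha => ?_) h1
    obtain ⟨y, hy, rfl⟩ := Finset.mem_image.1 ha
    by_cases h : g y = 0
    · rw [h]
      exact zero_mem_cone _
    · have hMr : (0 : ℝ) < M y := by exact_mod_cast hM1 y hy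
      refine cone_of_scaled hMr (Finset.mem_filter.2 ⟨Finset.mem_image_of_mem _ hy, ?_⟩)
      exact smul_ne_zero hMr.ne' h

/-- The mirror part of the nef cone is rational polyhedral. -/
theorem mirror_part : ∃ G : Finset (N1 Γ j),
    (∀ a ∈ G, Integral a ∧ a ∈ nefCone Γ j ∧ Tp R hp a = 0) ∧
      ∀ x ∈ nefCone Γ j, x - Tp R hp x ∈ cone G := by
  classical
  obtain ⟨F, hF, hcov⟩ := cov_X R 1 one_pos
  let Q : N1 Γ j →ₗ[ℝ] N1 Γ j := LinearMap.id - Tp R hp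
  have hQ : ∀ x, Q x = x - Tp R hp x := fun _ => rfl
  obtain ⟨G, hG, hGc⟩ := rescale (F := F) Q (fun x hx => by
    obtain ⟨M, hM, h1⟩ := Tp_rat R hp (hF x hx).1
    refine ⟨M, hM, ?_⟩
    have h2 : (M : ℝ) • Q x = M • x - (M : ℝ) • Tp R hp x := by
      rw [hQ, smul_sub, Nat.cast_smul_eq_nsmul]
    rw [h2]
    exact (intL Γ j).sub_mem ((intL Γ j).nsmul_mem (hF x hx).1 _) h1)
  have hG' : ∀ a ∈ G, Integral a ∧ a ∈ nefCone Γ j ∧ Tp R hp a = 0 := by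
    intro a ha
    obtain ⟨h1, -, x, hx, M, hM, rfl⟩ := hG a ha
    refine ⟨h1, nef_smul (Nat.cast_nonneg _) (Tp_sub_nef R hp (hF x hx).2), ?_⟩
    rw [map_smul, hQ, map_sub, Tp_idem, sub_self, smul_zero]
  obtain ⟨ξ₀, y₀, Y, D, hy₀⟩ := exists_cdata R (intL Γ j) (k := 1) one_pos
    (fun x hx => by rw [Nat.cast_one, one_smul]; exact hx)
    (fun x hx => by rw [Nat.cast_one, one_smul]; exact hx)
  refine ⟨G, hG', fun x hx => ?_⟩
  have hδ : Tendsto (fun n : ℕ => 1 / ((n : ℝ) + 1)) atTop (𝓝 0) :=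
    tendsto_one_div_add_atTop_nhds_zero_nat
  refine cone_closed ξ₀ (fun a ha => D.xi_pos a (hG' a ha).2.1 (hG a ha).2.1) hδ
    (q := y₀ - Tp R hp y₀) fun n => ?_
  set s : ℝ := 1 / ((n : ℝ) + 1) with hs
  have hs0 : 0 < s := by positivity
  obtain ⟨w, f, hf, y, hy, hyx⟩ := hcov (x + s • y₀) ⟨s, hs0, fun e => by
    change _ ≤ (x.1 e e + s • y₀.1 e e).re
    rw [Complex.add_re, Complex.smul_re, hy₀, Nat.cast_one, one_mul, smul_eq_mul]
    have := hx e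
    linarith⟩
  obtain ⟨g, hg1, -, -, -⟩ := exists_pull (j := j) hf.norm hf.lin
  have h1 : y = g (x + s • y₀) := by
    apply Subtype.ext
    funext a b
    rw [hyx, hg1]
  have h2 := hGc y hy
  have h3 : Q y = x - Tp R hp x + s • (y₀ - Tp R hp y₀) := by
    rw [h1, hQ, Tp_pull R hp hf hg1, ← map_sub,
      Tp_fix R hp hf hg1, map_add, map_smul, smul_sub]
    abel
  rwa [h3] at h2

/-- The other part. -/
theorem other_part (N : ℕ) (hN : 0 < N) : ∃ F : Finset (N1 Γ j),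
    (∀ a ∈ F, Integral a ∧ a ∈ nefCone Γ j ∧ Tp R hp a = a) ∧
      ∀ x : N1 Γ j, (∃ t : ℝ, 0 < t ∧ ∀ e, t * (H₀ (j e) (j e)).re ≤ (x.1 e e).re) →
        ∃ (w : E ≃ₗ[ℂ] E) (f : V ≃ᵃ[ℂ] V), GoodPair Γ j N w f ∧
          ∀ g : N1 Γ j ≃ₗ[ℝ] N1 Γ j, (∀ x v v', (g x).1 v v' = x.1 (w v) (w v')) →
            g (Tp R hp x) ∈ cone F := by
  classical
  obtain ⟨F, hF, hcov⟩ := cov_X R N hN
  obtain ⟨G, hG, hGc⟩ := rescale (F := F) (Tp R hp) (fun x hx => Tp_rat R hp (hF x hx).1)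
  refine ⟨G, fun a ha => ?_, fun x hx => ?_⟩
  · obtain ⟨h1, -, x, hx, M, hM, rfl⟩ := hG a ha
    exact ⟨h1, nef_smul (Nat.cast_nonneg _) (Tp_nef R hp (hF x hx).2), by rw [map_smul, Tp_idem]⟩
  · obtain ⟨w, f, hf, y, hy, hyx⟩ := hcov x hx
    refine ⟨w, f, hf, fun g hg => ?_⟩
    have h1 : y = g x := by
      apply Subtype.ext
      funext a b
      rw [hyx, hg]
    rw [← Tp_pull R hp hf hg, ← h1]
    exact hGc y hy

end Tp

end Run7.h323.CC
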