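import Pool.Agent.Run7.h323.CC.YDom

/-!
# Ample classes and the data for the fundamental domain
-/

set_option autoImplicit false
set_option linter.unusedSectionVars false

namespace Run7.h323.CC

open Pool.Agent.W594.SYZ2 Pool.Agent.TH735.AQ Q47.TB Run7.h323.TQ
open Pool.Agent.Y167 (AffGrp IsClass N1 N1s Normalizes cone Rel opE lattE Integral intL mem_intL
  span_intL nef_add nef_smul CData exists_cdata exists_pull cone_image cone_add cone_smul
  zero_mem_cone mem_cone_self cone_le cone_mono mem_cone_of_sum cone_sum cone_ind Cp)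

variable {V E : Type*} [NormedAddCommGroup V] [NormedSpace ℂ V] [FiniteDimensional ℂ V]
  [NormedAddCommGroup E] [NormedSpace ℂ E] [FiniteDimensional ℂ E] {Γ : AffGrp V}
  {j : E →ₗ[ℂ] V} {H₀ : V → V → ℂ} {p : Module.End ℂ E}
  {ι : Type*} [Fintype ι] {n : ℕ} {u : ι → Fin n → ℤ} {S : Set (Set ι)} {c : ι → LineBundle Γ}
  {Hc : ι → V → V → ℂ}

/-- The conditions on `E`. -/
structure Pre (Γ : AffGrp V) (j : E →ₗ[ℂ] V) : Prop where
  tq : IsTorusQuotient Γ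
  inj : Function.Injective j
  stable : ∀ γ ∈ Γ, ∀ e, ∃ e', j e' = γ.linear (j e)
  span : Submodule.span ℝ {e | j e ∈ latt Γ} = ⊤

/-- The class of a line bundle on `Y`. -/
noncomputable def yC (u : ι → Fin n → ℤ) (j : E →ₗ[ℂ] V) {L : LineBundle Γ} {H : V → V → ℂ}
    (hL : IsChernForm L H) (d : ι → ℤ) : N1Y u Γ j :=
  (cl u (fun i => (d i : ℝ)), ⟨fun a b => H (j a) (j b), Submodule.subset_span
    ⟨L, H, hL, fun _ _ => rfl⟩⟩)

section amp

variable (hc : ∀ i, IsChernForm (c i) (Hc i)) {L : LineBundle Γ} {H : V → V → ℂ}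
  (hL : IsChernForm L H) {d : ι → ℤ}

theorem yC_int : yC u j hL d ∈ intY u Γ j := by
  rw [mem_intY]
  exact ⟨⟨d, rfl⟩, L, H, hL, fun _ _ => rfl⟩

theorem yC_sb (β : ι → ℝ) (a b : E) : (sb hc (yC u j hL d) β).1 a b =
    H (j a) (j b) - ∑ i, (β i : ℂ) * Hc i (j a) (j b) := by
  rw [sb_apply]
  rfl

theorem amp_data (P : Pre Γ j) (hA : IsAmple u S Hc d H) {σ : Set ι} (hσ : IsMax S σ) :
    ∃ (β : ι → ℕ) (Hσ : V → V → ℂ), (∀ i, β i = 0 ↔ i ∈ σ) ∧
      cl u (fun i => (d i : ℝ)) = cl u (fun i => (β i : ℝ)) ∧ Rel Γ j Hσ ∧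
        ∀ a b, (sb hc (yC u j hL d) (fun i => (β i : ℝ))).1 a b = Hσ (j a) (j b) := by
  obtain ⟨β, h1, ⟨m, h2⟩, h3⟩ := hA σ hσ
  have h4 := chern_tw hL hc 1 β
  have h5 : (fun v w => ((1 : ℕ) : ℂ) * (H v w - ∑ i, ((β i : ℕ) : ℂ) * Hc i v w)) =
      fun v w => H v w - ∑ i, (β i : ℂ) * Hc i v w := by
    funext v w
    rw [Nat.cast_one, one_mul]
  rw [h5] at h4
  refine ⟨β, fun v w => H v w - ∑ i, (β i : ℂ) * Hc i v w, h1, ?_,
    ⟨P.tq, P.inj, P.stable, P.span, ⟨_, h4⟩, h3⟩, fun a b => ?_⟩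
  · rw [cl_eq_cl]
    refine ⟨fun k => -(m k : ℝ), fun i => ?_⟩
    have h6 : ((β i : ℤ) : ℝ) = ((d i + ∑ k, m k * u i k : ℤ) : ℝ) :=
      congrArg (fun z : ℤ => (z : ℝ)) (h2 i)
    push_cast at h6
    rw [h6]
    simp only [neg_mul, Finset.sum_neg_distrib]
    ring
  · rw [yC_sb]
    push_cast
    rfl

theorem sb_sub' (x y : N1Y u Γ j) (d e : ι → ℝ) :
    sb hc (x - y) (d - e) = sb hc x d - sb hc y e := by
  have h1 := sb_add hc (x - y) y (d - e) e
  rw [sub_add_cancel, sub_add_cancel] at h1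
  rw [h1]
  abel

include hc in
theorem isSum_large (P : Pre Γ j) (hS : IsSmoothFan u S) (hA : IsAmple u S Hc d H) {σ : Set ι}
    (hσ : IsMax S σ) (x : N1Y u Γ j) : ∃ C : ℝ, 0 < C ∧ ∀ C' : ℝ, C ≤ C' →
      IsSum u Hc j (C' • yC u j hL d - x) σ := by
  obtain ⟨β, Hσ, h1, h2, R, h3⟩ := amp_data hc hL P hA hσ
  obtain ⟨b, hb⟩ := exists_dual hS hσ
  obtain ⟨ξ₀, y₀, Y, D, hy₀⟩ := exists_cdata R (intL Γ j) (k := 1) one_pos
    (fun x hx => by rw [Nat.cast_one, one_smul]; exact hx)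
    (fun x hx => by rw [Nat.cast_one, one_smul]; exact hx)
  have hy : y₀ = sb hc (yC u j hL d) (fun i => (β i : ℝ)) := by
    apply Subtype.ext
    funext a b
    rw [hy₀, h3, Nat.cast_one, one_mul]
  set e := betaQ hb x.1 with he
  obtain ⟨C₁, hC₁, h4⟩ := D.y_int (sb hc x e)
  have hS0 : 0 ≤ ∑ i, |e i| := Finset.sum_nonneg fun i _ => abs_nonneg _
  refine ⟨C₁ + ∑ i, |e i|, by linarith, fun C' hC' => ?_⟩
  rw [isSum_iff hc]
  refine ⟨C' • (fun i => (β i : ℝ)) - e, fun i => ?_, fun i hi => ?_, ?_, ?_⟩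
  · rw [Pi.sub_apply, Pi.smul_apply, smul_eq_mul]
    by_cases hi : i ∈ σ
    · rw [(h1 i).2 hi, he, betaQ_zero hb _ hi]
      simp
    · have hβ : (1 : ℝ) ≤ β i := by
        have : β i ≠ 0 := fun h => hi ((h1 i).1 h)
        exact_mod_cast Nat.one_le_iff_ne_zero.2 this
      have h5 : |e i| ≤ ∑ i, |e i| :=
        Finset.single_le_sum (f := fun i => |e i|) (fun i _ => abs_nonneg _) (Finset.mem_univ i)
      have h6 := le_abs_self (e i)
      have h7 : C' * 1 ≤ C' * β i := mul_le_mul_of_nonneg_left hβ (by linarith)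
      linarith
  · rw [Pi.sub_apply, Pi.smul_apply, smul_eq_mul, (h1 i).2 hi, he, betaQ_zero hb _ hi]
    simp
  · have h5 : cl u e = x.1 := cl_betaQ hb x.1
    have h6 : cl u (C' • (fun i => (β i : ℝ)) - e) = C' • cl u (fun i => (β i : ℝ)) - cl u e := rfl
    rw [h6, h5, ← h2, Prod.fst_sub, Prod.smul_fst]
    rfl
  · rw [sb_sub', sb_smul, ← hy]
    have h5 : C' • y₀ - sb hc x e = (C₁ • y₀ - sb hc x e) + (C' - C₁) • y₀ := by module
    rw [h5]
    exact nef_add h4 (nef_smul (by linarith) D.y_N)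

include hc in
theorem isSum_amp (P : Pre Γ j) (hS : IsSmoothFan u S) (hA : IsAmple u S Hc d H) {σ : Set ι}
    (hσ : IsMax S σ) : IsSum u Hc j (yC u j hL d) σ := by
  obtain ⟨C, hC, h1⟩ := isSum_large hc hL P hS hA hσ 0
  have h2 := h1 C le_rfl
  rw [sub_zero] at h2
  have h3 := IsSum.smul hc h2 (inv_nonneg.2 hC.le)
  rwa [smul_smul, inv_mul_cancel₀ hC.ne', one_smul] at h3

/-- The cone of the `x` such that all the decompositions given by `𝒯` exist. -/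
def NfT (u : ι → Fin n → ℤ) (Hc : ι → V → V → ℂ) (Γ : AffGrp V) (j : E →ₗ[ℂ] V)
    (𝒯 : Finset (Set ι)) : Set (N1Y u Γ j) := {x | ∀ τ ∈ 𝒯, IsSum u Hc j x τ}

include hc in
theorem cdataY (P : Pre Γ j) (R : Rel Γ j H₀) (hS : IsSmoothFan u S) (hA : IsAmple u S Hc d H)
    {𝒯 : Finset (Set ι)} (h𝒯 : 𝒯.Nonempty) (hmax : ∀ τ ∈ 𝒯, ∃ σ, IsMax S σ ∧ τ ⊆ σ) :
    ∃ (ξ : N1Y u Γ j →ₗ[ℝ] ℝ) (Y : Finset (N1Y u Γ j)),
      CData (intY u Γ j) (NfT u Hc Γ j 𝒯) ξ (yC u j hL d) Y := by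
  classical
  obtain ⟨ξ₀, y₀, Y, D, hy₀⟩ := exists_cdata R (intL Γ j) (k := 1) one_pos
    (fun x hx => by rw [Nat.cast_one, one_smul]; exact hx)
    (fun x hx => by rw [Nat.cast_one, one_smul]; exact hx)
  have hfin := finDimY (u := u) R
  obtain ⟨a, ha0, ha⟩ := exists_pos hS
  obtain ⟨K, hK⟩ : ∃ K : ℕ, ∀ i, 1 ≤ (K : ℝ) + ξ₀ (hN j hc i) := by
    refine ⟨⌈∑ i, |ξ₀ (hN j hc i)|⌉₊ + 1, fun i => ?_⟩
    have h1 : |ξ₀ (hN j hc i)| ≤ ∑ i, |ξ₀ (hN j hc i)| := Finset.single_le_sum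
      (f := fun i => |ξ₀ (hN j hc i)|) (fun i _ => abs_nonneg _) (Finset.mem_univ i)
    have h2 := Nat.le_ceil (∑ i, |ξ₀ (hN j hc i)|)
    have h3 := neg_abs_le (ξ₀ (hN j hc i))
    push_cast
    linarith
  let ξ : N1Y u Γ j →ₗ[ℝ] ℝ := (K : ℝ) • (degA u a ha ∘ₗ LinearMap.fst ℝ (Cl u) (N1 Γ j)) +
    ξ₀ ∘ₗ LinearMap.snd ℝ (Cl u) (N1 Γ j)
  have hξ : ∀ x : N1Y u Γ j, ξ x = K * degA u a ha x.1 + ξ₀ x.2 := fun x => rfl
  have hξD : ∀ i, 1 ≤ ξ (Dv u j hc i) := by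
    intro i
    rw [hξ]
    change 1 ≤ (K : ℝ) * degA u a ha (cl u (Pi.single i 1)) + ξ₀ (hN j hc i)
    rw [degA_cl]
    have h1 : ∑ k, (a k : ℝ) * (Pi.single i 1 : ι → ℝ) k = a i := by
      rw [Finset.sum_eq_single i]
      · simp
      · intro k _ hk
        rw [Pi.single_apply, if_neg hk, mul_zero]
      · intro h
        exact absurd (Finset.mem_univ i) h
    rw [h1]
    have h2 : (1 : ℝ) ≤ a i := by exact_mod_cast ha0 i
    have h3 : (K : ℝ) * 1 ≤ K * a i := mul_le_mul_of_nonneg_left h2 (Nat.cast_nonneg _)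
    have h4 := hK i
    linarith
  have hξX : ∀ h : N1 Γ j, ξ (0, h) = ξ₀ h := fun h => by
    rw [hξ, map_zero, mul_zero, zero_add]
  have hdec : ∀ x : N1Y u Γ j, x ∈ NfT u Hc Γ j 𝒯 → ∃ β : ι → ℝ, (∀ i, 0 ≤ β i) ∧
      sb hc x β ∈ Pool.Agent.Y167.nefCone Γ j ∧
      x = ∑ i, β i • Dv u j hc i + (0, sb hc x β) ∧
      ∑ i, β i + ξ₀ (sb hc x β) ≤ ξ x := by
    intro x hx
    obtain ⟨τ, hτ⟩ := h𝒯
    obtain ⟨β, h1, -, h3, h4⟩ := (isSum_iff hc).1 (hx τ hτ)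
    have h5 := decomp hc h3
    refine ⟨β, h1, h4, h5, ?_⟩
    have h6 : ξ x = ∑ i, β i * ξ (Dv u j hc i) + ξ₀ (sb hc x β) := by
      conv_lhs => rw [h5]
      rw [map_add, map_sum, hξX]
      congr 1
      exact Finset.sum_congr rfl fun i _ => by rw [map_smul, smul_eq_mul]
    rw [h6]
    refine add_le_add (Finset.sum_le_sum fun i _ => ?_) le_rfl
    exact le_mul_of_one_le_right (h1 i) (hξD i)
  obtain ⟨Y', hY'⟩ := mk_cdata (L := intY u Γ j) (Nf := NfT u Hc Γ j 𝒯) (ξ := ξ)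
    (y₀ := yC u j hL d) span_intY
    (fun x hx y hy τ hτ => IsSum.add hc (hx τ hτ) (hy τ hτ))
    (fun t ht x hx τ hτ => IsSum.smul hc (hx τ hτ) ht)
    (fun x hx => by
      obtain ⟨⟨d', hd'⟩, h2⟩ := mem_intY.1 hx
      obtain ⟨m, hm⟩ := D.xi_int x.2 h2
      refine ⟨K * ∑ i, (a i : ℤ) * d' i + m, ?_⟩
      rw [hξ, hd', degA_cl, hm]
      push_cast
      rfl)
    (fun x hx hx0 => by
      obtain ⟨β, h1, h2, h3, h4⟩ := hdec x hx
      have h5 : 0 ≤ ∑ i, β i := Finset.sum_nonneg fun i _ => h1 i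
      have h6 := D.xi_nonneg h2
      by_contra hcon
      push Not at hcon
      have h7 : ∑ i, β i = 0 := by linarith
      have h8 : ξ₀ (sb hc x β) = 0 := by linarith
      apply hx0
      rw [h3]
      have h9 : sb hc x β = 0 := by
        by_contra hne
        have := D.xi_pos _ h2 hne
        linarith
      have h10 : ∀ i, β i = 0 := fun i =>
        (Finset.sum_eq_zero_iff_of_nonneg fun i _ => h1 i).1 h7 i (Finset.mem_univ i)
      rw [h9]
      simp only [h10, zero_smul, Finset.sum_const_zero, zero_add]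
      rfl)
    (yC_int hL)
    (fun τ hτ => by
      obtain ⟨σ, hσ, hτσ⟩ := hmax τ hτ
      exact (isSum_amp hc hL P hS hA hσ).mono hτσ)
    (fun x => by
      choose! σ hσ hτσ using hmax
      have h1 := fun τ (hτ : τ ∈ 𝒯) => isSum_large hc hL P hS hA (hσ τ hτ) x
      choose! C hC hCl using h1
      refine ⟨1 + ∑ τ ∈ 𝒯, |C τ|, by positivity, fun τ hτ => ?_⟩
      refine (hCl τ hτ _ ?_).mono (hτσ τ hτ)
      have h2 : |C τ| ≤ ∑ τ ∈ 𝒯, |C τ| :=
        Finset.single_le_sum (f := fun τ => |C τ|) (fun τ _ => abs_nonneg _) hτ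
      have h3 := le_abs_self (C τ)
      linarith)
    (fun η => by
      obtain ⟨C₀, h0⟩ := D.dom (η ∘ₗ inX u Γ j)
      set M : ℝ := |C₀| + ∑ i, |η (Dv u j hc i)| with hM
      have hM1 : ∀ i, |η (Dv u j hc i)| ≤ M := fun i => by
        have h1 : |η (Dv u j hc i)| ≤ ∑ i, |η (Dv u j hc i)| := Finset.single_le_sum
          (f := fun i => |η (Dv u j hc i)|) (fun i _ => abs_nonneg _) (Finset.mem_univ i)
        have h2 := abs_nonneg C₀
        linarith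
      have hM2 : C₀ ≤ M := by
        have h1 : 0 ≤ ∑ i, |η (Dv u j hc i)| := Finset.sum_nonneg fun i _ => abs_nonneg _
        have h2 := le_abs_self C₀
        linarith
      have hM0 : 0 ≤ M := by positivity
      refine ⟨M, hM0, fun x hx => ?_⟩
      obtain ⟨β, h1, h2, h3, h4⟩ := hdec x hx
      have h5 : |η (0, sb hc x β)| ≤ C₀ * ξ₀ (sb hc x β) := h0 _ h2
      have h6 := D.xi_nonneg h2
      calc |η x| = |∑ i, β i * η (Dv u j hc i) + η (0, sb hc x β)| := by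
            conv_lhs => rw [h3]
            rw [map_add, map_sum]
            congr 2
            exact Finset.sum_congr rfl fun i _ => by rw [map_smul, smul_eq_mul]
        _ ≤ |∑ i, β i * η (Dv u j hc i)| + |η (0, sb hc x β)| := abs_add_le _ _
        _ ≤ ∑ i, β i * M + M * ξ₀ (sb hc x β) := by
            refine add_le_add ((Finset.abs_sum_le_sum_abs _ _).trans
              (Finset.sum_le_sum fun i _ => ?_)) (h5.trans (mul_le_mul_of_nonneg_right hM2 h6))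
            rw [abs_mul, abs_of_nonneg (h1 i)]
            exact mul_le_mul_of_nonneg_left (hM1 i) (h1 i)
        _ = M * (∑ i, β i + ξ₀ (sb hc x β)) := by
            rw [← Finset.sum_mul]
            ring
        _ ≤ M * ξ x := mul_le_mul_of_nonneg_left h4 hM0)
    (sepY hS D)
  exact ⟨ξ, Y', hY'⟩

end amp

end Run7.h323.CC
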