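import Pool.Agent.Run7.h323.CC.Fan
import Pool.Agent.Run7.h323.CC.Gen
import Pool.Agent.Run7.h323.CC.Cvx
import Pool.Agent.Y167.Plus

/-!
# The cones of divisors on toric bundles
-/

set_option autoImplicit false
set_option linter.unusedSectionVars false

namespace Run7.h323.CC

open Pool.Agent.W594.SYZ2 Pool.Agent.TH735.AQ Q47.TB Run7.h323.TQ
open Pool.Agent.Y167 (AffGrp IsClass N1 N1s Normalizes cone Rel opE lattE Integral intL mem_intL
  span_intL nef_add nef_smul CData)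

variable {V E : Type*} [NormedAddCommGroup V] [NormedSpace ℂ V]
  [NormedAddCommGroup E] [NormedSpace ℂ E] {Γ : AffGrp V} {j : E →ₗ[ℂ] V}
  {ι : Type*} [Fintype ι] {n : ℕ} {u : ι → Fin n → ℤ} {c : ι → LineBundle Γ}
  {Hc : ι → V → V → ℂ}

/-! ### The classes `cl` -/

theorem cl_add (d e : ι → ℝ) : cl u (d + e) = cl u d + cl u e := rfl

theorem cl_smul (t : ℝ) (d : ι → ℝ) : cl u (t • d) = t • cl u d := rfl

theorem cl_sum [DecidableEq ι] (d : ι → ℝ) : cl u d = ∑ i, d i • cl u (Pi.single i 1) := by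
  have h1 : d = ∑ i, d i • (Pi.single i 1 : ι → ℝ) := by
    funext k
    rw [Finset.sum_apply]
    simp [Pi.single_apply]
  conv_lhs => rw [h1]
  change (principal u).mkQ _ = ∑ i, d i • (principal u).mkQ _
  rw [map_sum]
  exact Finset.sum_congr rfl fun i _ => by rw [map_smul]

/-- The linear form `∑ a_i d_i` for a relation `a` between the rays. -/
noncomputable def degA (u : ι → Fin n → ℤ) (a : ι → ℕ) (ha : ∀ k, ∑ i, (a i : ℤ) * u i k = 0) :
    Cl u →ₗ[ℝ] ℝ :=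
  (principal u).liftQ (∑ i, (a i : ℝ) • (LinearMap.proj i : (ι → ℝ) →ₗ[ℝ] ℝ)) (by
    rintro d ⟨q, hq⟩
    rw [LinearMap.mem_ker, LinearMap.sum_apply]
    simp only [LinearMap.smul_apply, LinearMap.proj_apply, smul_eq_mul, hq, Finset.mul_sum]
    rw [Finset.sum_comm]
    refine Finset.sum_eq_zero fun k _ => ?_
    have h1 : (∑ i, (a i : ℝ) * u i k) = 0 := by exact_mod_cast ha k
    calc ∑ i, (a i : ℝ) * (q k * u i k) = q k * ∑ i, (a i : ℝ) * u i k := by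
          rw [Finset.mul_sum]
          exact Finset.sum_congr rfl fun i _ => by ring
      _ = 0 := by rw [h1, mul_zero])

theorem degA_cl {a : ι → ℕ} (ha : ∀ k, ∑ i, (a i : ℤ) * u i k = 0) (d : ι → ℝ) :
    degA u a ha (cl u d) = ∑ i, (a i : ℝ) * d i := by
  change (∑ i, (a i : ℝ) • (LinearMap.proj i : (ι → ℝ) →ₗ[ℝ] ℝ)) d = _
  rw [LinearMap.sum_apply]
  rfl

/-! ### The classes of the divisors -/

/-- The class of `c_i`. -/
noncomputable def hN (j : E →ₗ[ℂ] V) (hc : ∀ i, IsChernForm (c i) (Hc i)) (i : ι) : N1 Γ j :=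
  ⟨fun a b => Hc i (j a) (j b), Submodule.subset_span ⟨c i, Hc i, hc i, fun _ _ => rfl⟩⟩

variable (hc : ∀ i, IsChernForm (c i) (Hc i))

theorem hN_int (i : ι) : Integral (hN j hc i) := ⟨c i, Hc i, hc i, fun _ _ => rfl⟩

/-- The class of `D_i`. -/
noncomputable def Dv [DecidableEq ι] (u : ι → Fin n → ℤ) (j : E →ₗ[ℂ] V)
    (hc : ∀ i, IsChernForm (c i) (Hc i)) (i : ι) : N1Y u Γ j :=
  (cl u (Pi.single i 1), hN j hc i)

/-- The restriction to the section given by `d`. -/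
noncomputable def sb (x : N1Y u Γ j) (d : ι → ℝ) : N1 Γ j := x.2 - ∑ i, d i • hN j hc i

theorem sb_apply (x : N1Y u Γ j) (d : ι → ℝ) (a b : E) :
    (sb hc x d).1 a b = x.2.1 a b - ∑ i, (d i : ℂ) * Hc i (j a) (j b) := by
  unfold sb
  have h1 : (∑ i, d i • hN j hc i : N1 Γ j).1 = ∑ i, d i • (hN j hc i).1 := by
    rw [Submodule.coe_sum]
    rfl
  change x.2.1 a b - (∑ i, d i • hN j hc i : N1 Γ j).1 a b = _
  rw [h1]
  simp only [Finset.sum_apply, Pi.smul_apply, Complex.real_smul]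
  rfl

theorem isSum_iff {x : N1Y u Γ j} {τ : Set ι} : IsSum u Hc j x τ ↔
    ∃ β : ι → ℝ, (∀ i, 0 ≤ β i) ∧ (∀ i ∈ τ, β i = 0) ∧ x.1 = cl u β ∧
      sb hc x β ∈ Pool.Agent.Y167.nefCone Γ j := by
  unfold IsSum
  refine exists_congr fun β => and_congr_right fun _ => and_congr_right fun _ =>
    and_congr_right fun _ => forall_congr' fun e => ?_
  rw [sb_apply]

theorem sb_add (x y : N1Y u Γ j) (d e : ι → ℝ) :
    sb hc (x + y) (d + e) = sb hc x d + sb hc y e := by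
  unfold sb
  simp only [Prod.snd_add, Pi.add_apply, add_smul, Finset.sum_add_distrib]
  abel

theorem sb_smul (t : ℝ) (x : N1Y u Γ j) (d : ι → ℝ) : sb hc (t • x) (t • d) = t • sb hc x d := by
  unfold sb
  simp only [Prod.smul_snd, Pi.smul_apply, smul_sub, Finset.smul_sum, smul_smul, smul_eq_mul]

include hc in
theorem IsSum.add {x y : N1Y u Γ j} {τ : Set ι} (hx : IsSum u Hc j x τ) (hy : IsSum u Hc j y τ) :
    IsSum u Hc j (x + y) τ := by
  rw [isSum_iff hc] at *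
  obtain ⟨β, h1, h2, h3, h4⟩ := hx
  obtain ⟨β', h1', h2', h3', h4'⟩ := hy
  refine ⟨β + β', fun i => add_nonneg (h1 i) (h1' i), fun i hi => ?_, ?_, ?_⟩
  · rw [Pi.add_apply, h2 i hi, h2' i hi, add_zero]
  · rw [Prod.fst_add, h3, h3', cl_add]
  · rw [sb_add]
    exact nef_add h4 h4'

include hc in
theorem IsSum.smul {x : N1Y u Γ j} {τ : Set ι} (hx : IsSum u Hc j x τ) {t : ℝ} (ht : 0 ≤ t) :
    IsSum u Hc j (t • x) τ := by
  rw [isSum_iff hc] at *
  obtain ⟨β, h1, h2, h3, h4⟩ := hx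
  refine ⟨t • β, fun i => mul_nonneg ht (h1 i), fun i hi => ?_, ?_, ?_⟩
  · rw [Pi.smul_apply, h2 i hi, smul_zero]
  · rw [Prod.smul_fst, h3, cl_smul]
  · rw [sb_smul]
    exact nef_smul ht h4

theorem IsSum.mono {x : N1Y u Γ j} {τ τ' : Set ι} (hx : IsSum u Hc j x τ) (h : τ' ⊆ τ) :
    IsSum u Hc j x τ' := by
  obtain ⟨β, h1, h2, h3, h4⟩ := hx
  exact ⟨β, h1, fun i hi => h2 i (h hi), h3, h4⟩

theorem IsSum.zero {τ : Set ι} : IsSum u Hc j (0 : N1Y u Γ j) τ :=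
  ⟨0, fun _ => le_rfl, fun _ _ => rfl, rfl, fun e => by
    change 0 ≤ ((0 : ℂ) - ∑ i, (((0 : ι → ℝ) i : ℝ) : ℂ) * Hc i (j e) (j e)).re
    simp⟩

include hc in
theorem IsSum.of_cone {S : Finset (N1Y u Γ j)} {τ : Set ι}
    (hS : ∀ a ∈ S, IsSum u Hc j a τ) {x : N1Y u Γ j} (hx : x ∈ cone S) : IsSum u Hc j x τ :=
  Pool.Agent.Y167.cone_ind (p := fun x => IsSum u Hc j x τ) IsSum.zero
    (fun _ _ h1 h2 => IsSum.add hc h1 h2) (fun _ _ ht h => IsSum.smul hc h ht) hS hx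

/-- Nef classes on `X` are nef. -/
theorem IsSum.of_nef {h : N1 Γ j} (hh : h ∈ Pool.Agent.Y167.nefCone Γ j) (τ : Set ι) :
    IsSum u Hc j ((0, h) : N1Y u Γ j) τ :=
  ⟨0, fun _ => le_rfl, fun _ _ => rfl, rfl, fun e => by
    have := hh e
    simpa using this⟩

theorem IsSum.of_Dv [DecidableEq ι] {i : ι} {τ : Set ι} (hi : i ∉ τ) :
    IsSum u Hc j (Dv u j hc i) τ := by
  rw [isSum_iff hc]
  refine ⟨Pi.single i 1, fun k => ?_, fun k hk => ?_, rfl, ?_⟩
  · rw [Pi.single_apply]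
    split_ifs
    · exact zero_le_one
    · exact le_rfl
  · rw [Pi.single_apply, if_neg]
    rintro rfl
    exact hi hk
  · intro e
    rw [sb_apply]
    change 0 ≤ (Hc i (j e) (j e) - _).re
    have : ∑ k, (((Pi.single i 1 : ι → ℝ) k : ℝ) : ℂ) * Hc k (j e) (j e) = Hc i (j e) (j e) := by
      rw [Finset.sum_eq_single i]
      · simp
      · intro k _ hk
        rw [Pi.single_apply, if_neg hk, Complex.ofReal_zero, zero_mul]
      · intro h
        exact absurd (Finset.mem_univ i) h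
    rw [this, sub_self]
    exact le_rfl

theorem decomp [DecidableEq ι] {x : N1Y u Γ j} {β : ι → ℝ} (hx : x.1 = cl u β) :
    x = ∑ i, β i • Dv u j hc i + (0, sb hc x β) := by
  apply Prod.ext
  · rw [Prod.fst_add, Prod.fst_sum, hx, cl_sum β]
    simp only [Prod.smul_fst, add_zero]
    rfl
  · rw [Prod.snd_add, Prod.snd_sum]
    simp only [Prod.smul_snd]
    change x.2 = ∑ i, β i • hN j hc i + sb hc x β
    unfold sb
    abel

/-! ### The lattice -/

/-- The group of integral classes. -/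
noncomputable def intY (u : ι → Fin n → ℤ) (Γ : AffGrp V) (j : E →ₗ[ℂ] V) :
    AddSubgroup (N1Y u Γ j) where
  carrier := integral u j Γ
  zero_mem' := by
    obtain ⟨L, hL⟩ := (Integral.zero (Γ := Γ) (j := j))
    exact ⟨0, L, by simp [cl]; rfl, hL⟩
  add_mem' := by
    rintro x y ⟨d, L, h1, h2⟩ ⟨e, M, h3, h4⟩
    obtain ⟨N, hN⟩ := Integral.add (x := x.2) (y := y.2) ⟨L, h2⟩ ⟨M, h4⟩
    refine ⟨d + e, N, ?_, hN⟩
    rw [Prod.fst_add, h1, h3, ← cl_add]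
    congr 1
    funext i
    simp
  neg_mem' := by
    rintro x ⟨d, L, h1, h2⟩
    obtain ⟨N, hN⟩ := Integral.neg (x := x.2) ⟨L, h2⟩
    refine ⟨-d, N, ?_, hN⟩
    rw [Prod.fst_neg, h1]
    change -(principal u).mkQ _ = (principal u).mkQ _
    rw [← map_neg]
    congr 1
    funext i
    simp

theorem mem_intY {x : N1Y u Γ j} : x ∈ intY u Γ j ↔
    (∃ d : ι → ℤ, x.1 = cl u (fun i => (d i : ℝ))) ∧ Integral x.2 := by
  constructor
  · rintro ⟨d, L, h1, h2⟩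
    exact ⟨⟨d, h1⟩, L, h2⟩
  · rintro ⟨⟨d, h1⟩, L, h2⟩
    exact ⟨d, L, h1, h2⟩

theorem inr_int {h : N1 Γ j} (hh : Integral h) : ((0, h) : N1Y u Γ j) ∈ intY u Γ j := by
  rw [mem_intY]
  exact ⟨⟨0, by simp [cl]; rfl⟩, hh⟩

theorem Dv_int [DecidableEq ι] (i : ι) : Dv u j hc i ∈ intY u Γ j := by
  rw [mem_intY]
  refine ⟨⟨Pi.single i 1, ?_⟩, hN_int hc i⟩
  change cl u (Pi.single i 1) = _
  congr 1
  funext k
  rw [Pi.single_apply, Pi.single_apply]
  split_ifs <;> simp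

theorem span_intY : Submodule.span ℝ (intY u Γ j : Set (N1Y u Γ j)) = ⊤ := by
  classical
  rw [eq_top_iff]
  rintro ⟨q, h⟩ -
  obtain ⟨d, rfl⟩ := Submodule.Quotient.mk_surjective _ q
  have h1 : ((Submodule.Quotient.mk d, h) : N1Y u Γ j) =
      ∑ i, d i • ((cl u (Pi.single i 1), 0) : N1Y u Γ j) + (0, h) := by
    apply Prod.ext
    · rw [Prod.fst_add, Prod.fst_sum]
      change cl u d = _
      rw [cl_sum d]
      simp only [Prod.smul_fst, add_zero]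
    · rw [Prod.snd_add, Prod.snd_sum]
      simp
  rw [h1]
  refine Submodule.add_mem _ (Submodule.sum_mem _ fun i _ => Submodule.smul_mem _ _
    (Submodule.subset_span ?_)) ?_
  · change ((cl u (Pi.single i 1), 0) : N1Y u Γ j) ∈ intY u Γ j
    rw [mem_intY]
    refine ⟨⟨Pi.single i 1, ?_⟩, Integral.zero⟩
    change cl u (Pi.single i 1) = _
    congr 1
    funext k
    rw [Pi.single_apply, Pi.single_apply]
    split_ifs <;> simp
  · have h2 : (LinearMap.inr ℝ (Cl u) (N1 Γ j)) h ∈ (Submodule.span ℝ (intL Γ j : Set (N1 Γ j))).map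
        (LinearMap.inr ℝ (Cl u) (N1 Γ j)) := by
      rw [span_intL]
      exact ⟨h, Submodule.mem_top, rfl⟩
    rw [Submodule.map_span] at h2
    refine Submodule.span_mono ?_ h2
    rintro _ ⟨z, hz, rfl⟩
    exact inr_int hz

/-- The integral linear forms separate the points. -/
theorem sepY {S : Set (Set ι)} (hS : IsSmoothFan u S) {ξ₀ : N1 Γ j →ₗ[ℝ] ℝ} {y₀ : N1 Γ j}
    {Y : Finset (N1 Γ j)} (D : CData (intL Γ j) (Pool.Agent.Y167.nefCone Γ j) ξ₀ y₀ Y)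
    (x : N1Y u Γ j) (hx : x ≠ 0) :
    ∃ η : N1Y u Γ j →ₗ[ℝ] ℝ, (∀ y ∈ intY u Γ j, ∃ n : ℤ, η y = n) ∧ η x ≠ 0 := by
  by_cases h1 : x.1 = 0
  · have h2 : x.2 ≠ 0 := fun h => hx (Prod.ext h1 h)
    obtain ⟨η, hη1, hη2⟩ := D.sep x.2 h2
    refine ⟨η ∘ₗ LinearMap.snd ℝ (Cl u) (N1 Γ j), fun y hy => ?_, hη2⟩
    exact hη1 y.2 (mem_intY.1 hy).2
  · obtain ⟨σ, hσ, -⟩ := exists_max hS.empty_mem
    obtain ⟨b, hb⟩ := exists_dual hS hσ
    have h2 : betaQ hb x.1 ≠ 0 := by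
      intro h
      apply h1
      rw [← cl_betaQ hb x.1, h]
      rfl
    obtain ⟨i, hi⟩ := Function.ne_iff.1 h2
    refine ⟨LinearMap.proj i ∘ₗ betaQ hb ∘ₗ LinearMap.fst ℝ (Cl u) (N1 Γ j), fun y hy => ?_, hi⟩
    obtain ⟨⟨d, hd⟩, -⟩ := mem_intY.1 hy
    obtain ⟨m, hm⟩ := resL_int (u := u) (b := b) d i
    refine ⟨m, ?_⟩
    change betaQ hb y.1 i = m
    rw [hd, betaQ_cl, hm]

end Run7.h323.CC
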