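import Pool.Agent.Run7.h323.CC.YAmp

/-!
# The fundamental domain on the cones of divisors on toric bundles
-/

set_option autoImplicit false
set_option linter.unusedSectionVars false

namespace Run7.h323.CC

open Pool.Agent.W594.SYZ2 Pool.Agent.TH735.AQ Q47.TB Run7.h323.TQ MvPolynomial
open Pool.Agent.Y167 (AffGrp IsClass N1 N1s Normalizes cone Rel opE lattE Integral intL mem_intL
  span_intL nef_add nef_smul CData exists_cdata exists_pull cone_image cone_add cone_smul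
  zero_mem_cone mem_cone_self cone_le cone_mono mem_cone_of_sum cone_sum cone_ind Cp
  nef_of_section exists_eff cone_of_scaled)

variable {V E : Type*} [NormedAddCommGroup V] [NormedSpace ℂ V] [FiniteDimensional ℂ V]
  [NormedAddCommGroup E] [NormedSpace ℂ E] [FiniteDimensional ℂ E] {Γ : AffGrp V}
  {j : E →ₗ[ℂ] V} {H₀ : V → V → ℂ} {p : Module.End ℂ E}
  {ι : Type*} [Fintype ι] {n : ℕ} {u : ι → Fin n → ℤ} {S : Set (Set ι)} {c : ι → LineBundle Γ}
  {Hc : ι → V → V → ℂ} {κ : Type*} [Fintype κ]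

/-! ### Effective classes -/

theorem eff_add {x y : N1Y u Γ j} (hx : x ∈ effCone u c j) (hy : y ∈ effCone u c j) :
    x + y ∈ effCone u c j := by
  classical
  obtain ⟨T, hT, hx⟩ := hx
  obtain ⟨T', hT', hy⟩ := hy
  refine ⟨T ∪ T', ?_, cone_add (cone_mono Finset.subset_union_left hx)
    (cone_mono Finset.subset_union_right hy)⟩
  rw [Finset.coe_union]
  exact Set.union_subset hT hT'

theorem eff_smul {x : N1Y u Γ j} (hx : x ∈ effCone u c j) {t : ℝ} (ht : 0 ≤ t) :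
    t • x ∈ effCone u c j := by
  obtain ⟨T, hT, hx⟩ := hx
  exact ⟨T, hT, cone_smul hx ht⟩

theorem eff_zero : (0 : N1Y u Γ j) ∈ effCone u c j := ⟨∅, by simp, zero_mem_cone _⟩

theorem eff_self {x : N1Y u Γ j} (hx : x ∈ effective u c j) : x ∈ effCone u c j :=
  ⟨{x}, by simpa using hx, mem_cone_self (Finset.mem_singleton_self x)⟩

theorem eff_cone {T : Finset (N1Y u Γ j)} (hT : ∀ a ∈ T, a ∈ effCone u c j) {x : N1Y u Γ j}
    (hx : x ∈ cone T) : x ∈ effCone u c j :=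
  cone_ind (p := fun x => x ∈ effCone u c j) eff_zero (fun _ _ h1 h2 => eff_add h1 h2)
    (fun _ _ ht h => eff_smul h ht) hT hx

theorem eff_sum {x : ι → N1Y u Γ j} (hx : ∀ i, x i ∈ effCone u c j) :
    ∑ i, x i ∈ effCone u c j := by
  classical
  refine Finset.sum_induction _ (fun x => x ∈ effCone u c j) (fun _ _ h1 h2 => eff_add h1 h2)
    eff_zero fun i _ => hx i

/-- The divisors `D_i` are effective. -/
theorem Dv_eff [DecidableEq ι] (hc : ∀ i, IsChernForm (c i) (Hc i)) (i : ι) :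
    Dv u j hc i ∈ effective u c j := by
  refine ⟨Pi.single i 1, c i, fun _ => X i, ⟨?_, Hc i, hc i, fun _ _ => rfl⟩, ⟨fun α => ?_,
    fun v α hα => ?_, fun γ v x => ?_⟩, 0, X_ne_zero i⟩
  · change cl u (Pi.single i 1) = _
    congr 1
    funext k
    rw [Pi.single_apply, Pi.single_apply]
    split_ifs <;> simp
  · exact differentiable_const _
  · rw [support_X, Finset.mem_singleton] at hα
    refine ⟨0, fun k => ?_⟩
    rw [hα]
    simp [Finsupp.single_apply, Pi.single_apply, eq_comm]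
  · rw [eval_X, eval_X]

/-- The nef integral classes on `X` are effective. -/
theorem nef_eff (R : Rel Γ j H₀) {h : N1 Γ j} (hh : Integral h)
    (hn : h ∈ Pool.Agent.Y167.nefCone Γ j) : ((0, h) : N1Y u Γ j) ∈ effCone u c j := by
  classical
  obtain ⟨m, hm, L, hL, hs⟩ := exists_eff R hh hn
  obtain ⟨s, hs, hs0⟩ := hs 0
  have h1 : ((0, (m : ℝ) • h) : N1Y u Γ j) ∈ effective u c j := by
    refine ⟨0, L, fun v => C (s v), ⟨by simp [cl]; rfl, hL⟩, ⟨fun α => ?_, fun v α hα => ?_,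
      fun γ v x => ?_⟩, 0, ?_⟩
    · simp only [coeff_C]
      split_ifs
      · exact hs.holo
      · exact differentiable_const _
    · have h2 : α = 0 := by
        by_contra hne
        rw [mem_support_iff, coeff_C, if_neg (Ne.symm hne)] at hα
        exact hα rfl
      rw [h2]
      exact ⟨0, fun i => by simp⟩
    · rw [eval_C, eval_C]
      exact hs.eq γ v
    · rw [Ne, C_eq_zero]
      exact hs0
  have hmr : (0 : ℝ) < m := by exact_mod_cast hm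
  have h2 := eff_smul (eff_self h1) (inv_nonneg.2 hmr.le)
  have h3 : (m : ℝ)⁻¹ • ((0, (m : ℝ) • h) : N1Y u Γ j) = (0, h) := by
    apply Prod.ext
    · simp
    · rw [Prod.smul_snd, smul_smul, inv_mul_cancel₀ hmr.ne', one_smul]
  rwa [h3] at h2

/-- The restrictions of effective classes. -/
theorem eff_sb (R : Rel Γ j H₀) (hc : ∀ i, IsChernForm (c i) (Hc i)) {x : N1Y u Γ j}
    (hx : x ∈ effective u c j) : ∃ α : ι → ℝ, x.1 = cl u α ∧ Integral (sb hc x α) ∧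
      sb hc x α ∈ Pool.Agent.Y167.nefCone Γ j := by
  obtain ⟨d, L, F, ⟨h1, H, hL, h2⟩, hF, v, hv⟩ := hx
  obtain ⟨α, hα⟩ := MvPolynomial.ne_zero_iff.1 hv
  obtain ⟨m, hm⟩ := hF.deg v α (mem_support_iff.2 hα)
  have h3 := chern_tw hL hc 1 fun i => α i
  have h4 := nef_of_section R.tq h3 (coeff_section hF α) ⟨v, hα⟩
  have h5 : ∀ a b, (sb hc x fun i => (α i : ℝ)).1 a b =
      ((1 : ℕ) : ℂ) * (H (j a) (j b) - ∑ i, ((α i : ℕ) : ℂ) * Hc i (j a) (j b)) := by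
    intro a b
    rw [sb_apply, h2, Nat.cast_one, one_mul]
    push_cast
    rfl
  refine ⟨fun i => (α i : ℝ), ?_, ⟨_, _, h3, h5⟩, fun e => ?_⟩
  · rw [h1, cl_eq_cl]
    refine ⟨fun k => -(m k : ℝ), fun i => ?_⟩
    have h6 : ((α i : ℤ) : ℝ) = ((d i + ∑ k, m k * u i k : ℤ) : ℝ) :=
      congrArg (fun z : ℤ => (z : ℝ)) (hm i)
    push_cast at h6
    rw [h6]
    simp only [neg_mul, Finset.sum_neg_distrib]
    ring
  · rw [h5]
    exact h4 (j e)

/-! ### The rational hull of the cone -/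

theorem cp_cone {W : Type*} [AddCommGroup W] [Module ℝ W] {L : AddSubgroup W} {Nf : Set W}
    {T : Finset W} (hT : ∀ a ∈ T, a ∈ Cp L Nf) {x : W} (hx : x ∈ cone T) : x ∈ Cp L Nf := by
  classical
  refine cone_ind (p := fun x => x ∈ Cp L Nf) ⟨∅, by simp, zero_mem_cone _⟩ ?_ ?_ hT hx
  · rintro x y ⟨T, hT, hx⟩ ⟨T', hT', hy⟩
    refine ⟨T ∪ T', fun a ha => ?_, cone_add (cone_mono Finset.subset_union_left hx)
      (cone_mono Finset.subset_union_right hy)⟩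
    rcases Finset.mem_union.1 ha with h | h
    · exact hT a h
    · exact hT' a h
  · rintro t x ht ⟨T, hT, hx⟩
    exact ⟨T, hT, cone_smul hx ht⟩

section core

variable (R : Rel Γ j H₀) (hp : IsProj Γ j p) (hc : ∀ i, IsChernForm (c i) (Hc i))
  (hK : KerAll u Hc Γ j) {σ₀ : Set ι} {b₀ : Fin n → ι → ℤ} (hb : IsDual u σ₀ b₀)

include hK in
theorem tt_nef {x : N1Y u Γ j} {τ : Set ι} (hx : IsSum u Hc j x τ) :
    tt R hp hc hb x ∈ Pool.Agent.Y167.nefCone Γ j := by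
  obtain ⟨β, -, -, h3, h4⟩ := (isSum_iff hc).1 hx
  rw [tt_eq R hp hc hK hb h3]
  exact Tp_nef R hp h4

include hK in
theorem tt_rat {x : N1Y u Γ j} (hx : x ∈ intY u Γ j) :
    ∃ M : ℕ, 0 < M ∧ Integral ((M : ℝ) • tt R hp hc hb x) := by
  obtain ⟨⟨d, hd⟩, hx2⟩ := mem_intY.1 hx
  rw [tt_eq R hp hc hK hb hd]
  refine Tp_rat R hp ?_
  unfold sb
  refine (intL Γ j).sub_mem hx2 ((intL Γ j).sum_mem fun i _ => ?_)
  have h1 : ((d i : ℤ) : ℝ) • hN j hc i = (d i) • hN j hc i :=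
    Int.cast_smul_eq_zsmul ℝ (d i) (hN j hc i)
  change ((d i : ℤ) : ℝ) • hN j hc i ∈ intL Γ j
  rw [h1]
  exact (intL Γ j).zsmul_mem (hN_int hc i) _

end core

/-- The rational hull is the part of the cone consisting of effective classes. -/
theorem mem_Cp (hc : ∀ i, IsChernForm (c i) (Hc i)) (hS : IsSmoothFan u S) {𝒯 : Finset (Set ι)} (h𝒯 : 𝒯.Nonempty)
    (hK : KerAll u Hc Γ j) (R : Rel Γ j H₀) (x : N1Y u Γ j) :
    x ∈ Cp (intY u Γ j) (NfT u Hc Γ j 𝒯) ↔ x ∈ NfT u Hc Γ j 𝒯 ∧ x ∈ effCone u c j := by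
  classical
  obtain ⟨p, hp⟩ := exists_proj R
  obtain ⟨σ₀, hσ₀, -⟩ := exists_max hS.empty_mem
  obtain ⟨b₀, hb⟩ := exists_dual hS hσ₀
  obtain ⟨A, hA, hAc⟩ := exists_Am hS R hp hc hK hb 𝒯 h𝒯
  have hxx : ∀ x : N1Y u Γ j, x = (x - (0, tt R hp hc hb x)) + (0, tt R hp hc hb x) := fun x => by
    abel
  constructor
  · rintro ⟨T, hT, hx⟩
    refine ⟨fun τ hτ => IsSum.of_cone hc (fun a ha => (hT a ha).2 τ hτ) hx,
      eff_cone (fun a ha => ?_) hx⟩
    obtain ⟨ha1, ha2⟩ := hT a ha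
    rw [hxx a]
    refine eff_add (eff_cone (fun a' ha' => ?_) (hAc a ha2)) ?_
    · obtain ⟨-, -, β, h, h1, h2, h3, G, hG, hh⟩ := hA a' ha'
      rw [decomp hc h2, ← h3]
      refine eff_add (eff_sum fun i => eff_smul (eff_self (Dv_eff hc i)) (h1 i)) ?_
      have h4 := cone_image (inX u Γ j) hh
      refine eff_cone (fun g hg => ?_) h4
      obtain ⟨g', hg', rfl⟩ := Finset.mem_image.1 hg
      exact nef_eff R (hG g' hg').1 (hG g' hg').2
    · obtain ⟨τ, hτ⟩ := h𝒯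
      obtain ⟨M, hM, h1⟩ := tt_rat R hp hc hK hb ha1
      have hMr : (0 : ℝ) < M := by exact_mod_cast hM
      have h2 := eff_smul (nef_eff (u := u) (c := c) R h1
        (nef_smul hMr.le (tt_nef R hp hc hK hb (ha2 τ hτ)))) (inv_nonneg.2 hMr.le)
      have h3 : (M : ℝ)⁻¹ • ((0, (M : ℝ) • tt R hp hc hb a) : N1Y u Γ j) =
          (0, tt R hp hc hb a) := by
        apply Prod.ext
        · simp
        · rw [Prod.smul_snd, smul_smul, inv_mul_cancel₀ hMr.ne', one_smul]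
      rwa [h3] at h2
  · rintro ⟨hx, T, hT, hxT⟩
    refine cp_cone (T := {x - (0, tt R hp hc hb x), (0, tt R hp hc hb x)}) (fun a ha => ?_) ?_
    · rcases Finset.mem_insert.1 ha with rfl | ha
      · exact ⟨A, fun a ha => ⟨(hA a ha).1, (hA a ha).2.1⟩, hAc x hx⟩
      · rw [Finset.mem_singleton] at ha
        rw [ha]
        have h1 : inX u Γ j (tt R hp hc hb x) ∈ cone (T.image (inX u Γ j ∘ₗ tt R hp hc hb)) :=
          cone_image (inX u Γ j ∘ₗ tt R hp hc hb) hxT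
        refine cp_cone (fun b hb' => ?_) h1
        obtain ⟨e, he, rfl⟩ := Finset.mem_image.1 hb'
        obtain ⟨α, h2, h3, h4⟩ := eff_sb R hc (hT he)
        obtain ⟨M, hM, h5⟩ := Tp_rat R hp h3
        have hMr : (0 : ℝ) < M := by exact_mod_cast hM
        have h6 : (inX u Γ j ∘ₗ tt R hp hc hb) e = (0, Tp R hp (sb hc e α)) := by
          rw [← tt_eq R hp hc hK hb h2]
          rfl
        rw [h6]
        refine ⟨{(0, (M : ℝ) • Tp R hp (sb hc e α))}, fun a ha => ?_, ?_⟩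
        · rw [Finset.mem_singleton] at ha
          rw [ha]
          exact ⟨inr_int h5, fun τ _ => IsSum.of_nef (nef_smul hMr.le (Tp_nef R hp h4)) τ⟩
        · refine cone_of_scaled hMr ?_
          rw [Finset.mem_singleton]
          apply Prod.ext
          · simp
          · rfl
    · have h1 := cone_add
        (mem_cone_self (S := {x - (0, tt R hp hc hb x), (0, tt R hp hc hb x)})
          (Finset.mem_insert_self _ _))
        (mem_cone_self (S := {x - (0, tt R hp hc hb x), (0, tt R hp hc hb x)})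
          (Finset.mem_insert_of_mem (Finset.mem_singleton_self _)))
      rwa [← hxx x] at h1

/-- **The general result.** -/
theorem coreY (hS : IsSmoothFan u S) (P : Pre Γ j) (hc : ∀ i, IsChernForm (c i) (Hc i))
    {L : LineBundle Γ} {H : V → V → ℂ} (hL : IsChernForm L H) {d : ι → ℤ}
    (hA : IsAmple u S Hc d H) {Δ : EffDivY u c κ} (hnum : NumTrivialY Hc j Δ)
    (hklt : IsKltY S Δ) {𝒯 : Finset (Set ι)} (h𝒯 : 𝒯.Nonempty)
    (hmax : ∀ τ ∈ 𝒯, ∃ σ, IsMax S σ ∧ τ ⊆ σ) (𝒢 : Subgroup (N1Y u Γ j ≃ₗ[ℝ] N1Y u Γ j))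
    (h𝒢L : ∀ g ∈ 𝒢, ∀ x ∈ intY u Γ j, g x ∈ intY u Γ j)
    (h𝒢N : ∀ g ∈ 𝒢, ∀ x ∈ NfT u Hc Γ j 𝒯, g x ∈ NfT u Hc Γ j 𝒯)
    (h𝒢 : ∀ (f : V ≃ᵃ[ℂ] V) (φ : ι → V → ℂ), IsLift u c f φ → (∀ v, ∃ e, f v = v + j e) →
      Fixes Δ f φ → ∀ g : N1Y u Γ j ≃ₗ[ℝ] N1Y u Γ j, IsPullback Hc f g → g ∈ 𝒢) :
    ∃ A : Finset (N1Y u Γ j), (∀ a ∈ A, a ∈ intY u Γ j ∧ a ∈ NfT u Hc Γ j 𝒯) ∧
      (∀ x, x ∈ NfT u Hc Γ j 𝒯 ∧ x ∈ effCone u c j ↔ ∃ g ∈ 𝒢, g x ∈ cone A) ∧
      ∀ g ∈ 𝒢, g ≠ 1 → ∃ φ : N1Y u Γ j →ₗ[ℝ] ℝ, φ ≠ 0 ∧ (∀ x ∈ cone A, 0 ≤ φ x) ∧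
        ∀ x ∈ cone A, φ (g x) ≤ 0 := by
  classical
  obtain ⟨σ₀, hσ₀, -⟩ := exists_max hS.empty_mem
  obtain ⟨b₀, hb⟩ := exists_dual hS hσ₀
  obtain ⟨β₀, H₀, hβ1, hβ2, R, hβ3⟩ := amp_data hc hL P hA hσ₀
  have hK : KerAll u Hc Γ j := fun e he q w => (ker_all hS R hc hnum hklt he).2 q w
  obtain ⟨p, hp⟩ := exists_proj R
  obtain ⟨A, hAm, hAc⟩ := exists_Am hS R hp hc hK hb 𝒯 h𝒯
  have D0 : Set0 u S c Hc j H₀ Δ := ⟨hS, R, hc, hnum, hklt⟩
  obtain ⟨N, hN, hlift⟩ := D0.exists_lift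
  obtain ⟨F, hF, hFc⟩ := other_part R hp N hN
  obtain ⟨ξ, Y, D⟩ := cdataY hc hL P R hS hA h𝒯 hmax
  obtain ⟨B, hB1, hB2, hB3⟩ := D.domain 𝒢 h𝒢L h𝒢N (A ∪ F.image (inX u Γ j)) (fun a ha => by
    rcases Finset.mem_union.1 ha with h | h
    · exact ⟨(hAm a h).1, (hAm a h).2.1⟩
    · obtain ⟨a', ha', rfl⟩ := Finset.mem_image.1 h
      exact ⟨inr_int (hF a' ha').1, fun τ _ => IsSum.of_nef (hF a' ha').2.1 τ⟩) (by
    rintro x ⟨s, hs, hxs⟩
    obtain ⟨τ, hτ⟩ := h𝒯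
    obtain ⟨β, -, -, h1, h2⟩ := (isSum_iff hc).1 (hxs τ hτ)
    set y := yC u j hL d with hy
    set β₁ : ι → ℝ := fun i => (β₀ i : ℝ) with hβ₁
    have hxN : x ∈ NfT u Hc Γ j 𝒯 := by
      have h3 := D.add _ hxs _ (D.smul s hs.le _ D.y_N)
      rwa [sub_add_cancel] at h3
    have h3 : x.1 = cl u (β + s • β₁) := by
      have h4 : x = (x - s • y) + s • y := by abel
      have h5 : y.1 = cl u β₁ := hβ2
      calc x.1 = ((x - s • y) + s • y).1 := by rw [← h4]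
        _ = cl u β + s • cl u β₁ := by rw [Prod.fst_add, Prod.smul_fst, h1, h5]
        _ = _ := by rw [cl_add, cl_smul]
    have h4 : sb hc x (β + s • β₁) = sb hc (x - s • y) β + s • sb hc y β₁ := by
      rw [← sb_smul, ← sb_add, sub_add_cancel]
    obtain ⟨w, f, hf, hcone⟩ := hFc (sb hc x (β + s • β₁)) ⟨s, hs, fun e => by
      rw [h4]
      change _ ≤ ((sb hc (x - s • y) β).1 e e + s • (sb hc y β₁).1 e e).re
      rw [Complex.add_re, Complex.smul_re, hβ3, smul_eq_mul]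
      have := h2 e
      linarith⟩
    obtain ⟨g, hg1, -, -, -⟩ := exists_pull (j := j) hf.norm hf.lin
    obtain ⟨φ, hφ1, hφ2⟩ := hlift w f hf
    refine ⟨ext hc hb g, ?_, ?_⟩
    · refine h𝒢 f φ hφ1 (fun v => ?_) hφ2 _ fun x => ⟨rfl, fun d hd a b a' b' ha hb' => ?_⟩
      · obtain ⟨e, he⟩ := hf.disp v
        exact ⟨_, he⟩
      · have h5 := congrArg (fun z : N1 Γ j => z.1 a b)
          (ext_sb hc hb (good_cfN R hp hc hK hf hg1) hd)
        change (sb hc (ext hc hb g x) d).1 a b = (g (sb hc x d)).1 a b at h5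
        rw [hg1, sb_apply, sb_apply] at h5
        rw [hf.lin] at ha hb'
        rw [P.inj ha, P.inj hb']
        exact h5
    · rw [ext_eq R hp hc hK hb hf hg1]
      refine cone_add (cone_mono Finset.subset_union_left (hAc x hxN)) ?_
      have h5 := hcone g hg1
      rw [← tt_eq R hp hc hK hb h3] at h5
      have h6 : ((0, g (tt R hp hc hb x)) : N1Y u Γ j) ∈ cone (F.image (inX u Γ j)) :=
        cone_image (inX u Γ j) h5
      exact cone_mono Finset.subset_union_right h6)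
  refine ⟨B, hB1, fun x => ?_, hB3⟩
  rw [← mem_Cp hc hS h𝒯 hK R, hB2]

end Run7.h323.CC
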