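import Pool.Agent.Run7.h323.CC.YMain

/-!
# The data for the fundamental domain
-/

set_option autoImplicit false
set_option linter.unusedSectionVars false

namespace Run7.h323.CC

open Pool.Agent.W594.SYZ2 Pool.Agent.TH735.AQ Q47.TB Run7.h323.TQ
open Pool.Agent.Y167 (AffGrp IsClass N1 N1s Normalizes cone Rel opE lattE Integral intL mem_intL
  span_intL nef_add nef_smul CData exists_cdata exists_pull cone_image cone_add cone_smul
  zero_mem_cone mem_cone_self cone_le cone_mono mem_cone_of_sum cone_sum cone_ind)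

variable {V E : Type*} [NormedAddCommGroup V] [NormedSpace ℂ V] [FiniteDimensional ℂ V]
  [NormedAddCommGroup E] [NormedSpace ℂ E] [FiniteDimensional ℂ E] {Γ : AffGrp V}
  {j : E →ₗ[ℂ] V} {H₀ : V → V → ℂ} {p : Module.End ℂ E}
  {ι : Type*} [Fintype ι] {n : ℕ} {u : ι → Fin n → ℤ} {S : Set (Set ι)} {c : ι → LineBundle Γ}
  {Hc : ι → V → V → ℂ}

theorem mk_add (a b : N1 Γ j) : ((0, a + b) : N1Y u Γ j) = (0, a) + (0, b) := by
  apply Prod.ext
  · simp
  · rfl

theorem mk_sub (a b : N1 Γ j) : ((0, a - b) : N1Y u Γ j) = (0, a) - (0, b) := by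
  apply Prod.ext
  · simp
  · rfl

/-- The inclusion of `N^1(X/Z)` in `N^1(Y/Z)`. -/
noncomputable def inX (u : ι → Fin n → ℤ) (Γ : AffGrp V) (j : E →ₗ[ℂ] V) :
    N1 Γ j →ₗ[ℝ] N1Y u Γ j := LinearMap.inr ℝ (Cl u) (N1 Γ j)

theorem inX_apply (h : N1 Γ j) : inX u Γ j h = (0, h) := rfl

theorem finDimY (R : Rel Γ j H₀) : FiniteDimensional ℝ (N1Y u Γ j) := by
  have := Pool.Agent.Y167.finDim_N1 R
  infer_instance

/-- The part of the cone given by the mirrors is finitely generated. -/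
theorem exists_Am (hS : IsSmoothFan u S) (R : Rel Γ j H₀) (hp : IsProj Γ j p)
    (hc : ∀ i, IsChernForm (c i) (Hc i)) (hK : KerAll u Hc Γ j) {σ₀ : Set ι}
    {b₀ : Fin n → ι → ℤ} (hb : IsDual u σ₀ b₀) (𝒯 : Finset (Set ι)) (h𝒯 : 𝒯.Nonempty) :
    ∃ A : Finset (N1Y u Γ j), (∀ a ∈ A, a ∈ intY u Γ j ∧ (∀ τ ∈ 𝒯, IsSum u Hc j a τ) ∧
        ∃ (β : ι → ℝ) (h : N1 Γ j), (∀ i, 0 ≤ β i) ∧ a.1 = cl u β ∧ h = sb hc a β ∧
          ∃ G : Finset (N1 Γ j), (∀ g ∈ G, Integral g ∧ g ∈ Pool.Agent.Y167.nefCone Γ j) ∧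
            h ∈ cone G) ∧
      ∀ x : N1Y u Γ j, (∀ τ ∈ 𝒯, IsSum u Hc j x τ) → x - (0, tt R hp hc hb x) ∈ cone A := by
  classical
  obtain ⟨G, hG, hGc⟩ := mirror_part R hp
  have := finDimY (u := u) R
  obtain ⟨ξ₀, y₀, Y, D, hy₀⟩ := exists_cdata R (intL Γ j) (k := 1) one_pos
    (fun x hx => by rw [Nat.cast_one, one_smul]; exact hx)
    (fun x hx => by rw [Nat.cast_one, one_smul]; exact hx)
  obtain ⟨Φ, hΦ, hΦs⟩ := fin_sep (L := intY u Γ j) (sepY hS D)
  let A : Set ι → Finset (N1Y u Γ j) := fun τ =>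
    ((Finset.univ.filter fun i => i ∉ τ).image (Dv u j hc)) ∪ G.image (inX u Γ j)
  have hA1 : ∀ τ, ∀ a ∈ A τ, a ∈ intY u Γ j := by
    intro τ a ha
    rcases Finset.mem_union.1 ha with h | h
    · obtain ⟨i, -, rfl⟩ := Finset.mem_image.1 h
      exact Dv_int hc i
    · obtain ⟨g, hg, rfl⟩ := Finset.mem_image.1 h
      exact inr_int (hG g hg).1
  have hA2 : ∀ τ, ∀ a ∈ A τ, IsSum u Hc j a τ := by
    intro τ a ha
    rcases Finset.mem_union.1 ha with h | h
    · obtain ⟨i, hi, rfl⟩ := Finset.mem_image.1 h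
      exact IsSum.of_Dv hc (Finset.mem_filter.1 hi).2
    · obtain ⟨g, hg, rfl⟩ := Finset.mem_image.1 h
      exact IsSum.of_nef (hG g hg).2.1 τ
  obtain ⟨C, hC, hCc⟩ := cone_inters (intY u Γ j) Φ hΦ hΦs 𝒯 h𝒯 A (fun τ _ => hA1 τ)
  refine ⟨C, fun a ha => ⟨hC a ha, fun τ hτ => ?_, ?_⟩, fun x hx => ?_⟩
  · exact IsSum.of_cone hc (hA2 τ) ((hCc a).1 (mem_cone_self ha) τ hτ)
  · obtain ⟨τ, hτ⟩ := h𝒯
    have h1 := (hCc a).1 (mem_cone_self ha) τ hτ
    refine cone_ind (p := fun a => ∃ (β : ι → ℝ) (h : N1 Γ j), (∀ i, 0 ≤ β i) ∧ a.1 = cl u β ∧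
      h = sb hc a β ∧ ∃ G : Finset (N1 Γ j),
        (∀ g ∈ G, Integral g ∧ g ∈ Pool.Agent.Y167.nefCone Γ j) ∧ h ∈ cone G) ?_ ?_ ?_ ?_ h1
    · exact ⟨0, 0, fun _ => le_rfl, rfl, by unfold sb; simp, ∅, fun g hg => by simp at hg,
        zero_mem_cone _⟩
    · rintro x y ⟨β, h, h1, h2, h3, G, h4, h5⟩ ⟨β', h', h1', h2', h3', G', h4', h5'⟩
      refine ⟨β + β', h + h', fun i => add_nonneg (h1 i) (h1' i), ?_, ?_, G ∪ G', ?_, ?_⟩
      · rw [Prod.fst_add, h2, h2', cl_add]
      · rw [sb_add, h3, h3']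
      · intro g hg
        rcases Finset.mem_union.1 hg with h | h
        · exact h4 g h
        · exact h4' g h
      · exact cone_add (cone_mono Finset.subset_union_left h5)
          (cone_mono Finset.subset_union_right h5')
    · rintro t x ht ⟨β, h, h1, h2, h3, G, h4, h5⟩
      refine ⟨t • β, t • h, fun i => mul_nonneg ht (h1 i), ?_, ?_, G, h4, cone_smul h5 ht⟩
      · rw [Prod.smul_fst, h2, cl_smul]
      · rw [sb_smul, h3]
    · intro a ha
      rcases Finset.mem_union.1 ha with h | h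
      · obtain ⟨i, hi, rfl⟩ := Finset.mem_image.1 h
        refine ⟨Pi.single i 1, 0, fun k => ?_, rfl, ?_, ∅, fun g hg => by simp at hg,
          zero_mem_cone _⟩
        · rw [Pi.single_apply]
          split_ifs
          · exact zero_le_one
          · exact le_rfl
        · unfold sb
          have : ∑ k, (Pi.single i 1 : ι → ℝ) k • hN j hc k = hN j hc i := by
            rw [Finset.sum_eq_single i]
            · rw [Pi.single_eq_same, one_smul]
            · intro k _ hk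
              rw [Pi.single_apply, if_neg hk, zero_smul]
            · intro h
              exact absurd (Finset.mem_univ i) h
          rw [this]
          exact (sub_self _).symm
      · obtain ⟨g, hg, rfl⟩ := Finset.mem_image.1 h
        refine ⟨0, g, fun _ => le_rfl, rfl, ?_, G, fun g hg => ⟨(hG g hg).1, (hG g hg).2.1⟩,
          mem_cone_self hg⟩
        unfold sb
        simp [inX_apply]
  · rw [hCc]
    intro τ hτ
    obtain ⟨β, h1, h2, h3, h4⟩ := (isSum_iff hc).1 (hx τ hτ)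
    have h5 := decomp hc h3
    have h6 := tt_eq R hp hc hK hb h3
    have h7 : x - (0, tt R hp hc hb x) =
        ∑ i, β i • Dv u j hc i + (0, sb hc x β - Tp R hp (sb hc x β)) := by
      calc x - (0, tt R hp hc hb x) = (∑ i, β i • Dv u j hc i + (0, sb hc x β)) -
            (0, Tp R hp (sb hc x β)) := by rw [← h5, h6]
        _ = _ := by rw [mk_sub]; abel
    rw [h7]
    refine cone_add ?_ ?_
    · refine cone_sum _ _ fun i _ => ?_
      by_cases hi : i ∈ τ
      · rw [h2 i hi, zero_smul]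
        exact zero_mem_cone _
      · have h8 : Dv u j hc i ∈ A τ := Finset.mem_union_left _
          (Finset.mem_image_of_mem (Dv u j hc) (Finset.mem_filter.2 ⟨Finset.mem_univ i, hi⟩))
        exact cone_smul (mem_cone_self h8) (h1 i)
    · have h8 : ((0, sb hc x β - Tp R hp (sb hc x β)) : N1Y u Γ j) ∈
          cone (G.image (inX u Γ j)) := cone_image (inX u Γ j) (hGc _ h4)
      exact cone_mono Finset.subset_union_right h8

end Run7.h323.CC
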