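import Pool.Agent.Run7.h323.CC.YCore
import Pool.Agent.Run7.h323.CC.Stm

/-!
# The cone theorem for toric bundles
-/

set_option autoImplicit false
set_option linter.unusedSectionVars false

namespace Run7.h323.CC

open Filter Topology
open Pool.Agent.W594.SYZ2 Pool.Agent.TH735.AQ Q47.TB Run7.h323.TQ
open Pool.Agent.Y167 (AffGrp IsClass N1 Normalizes cone Rel nef_add nef_smul
  zero_mem_cone mem_cone_self cone_smul Cp IsFace)
open Pool.Agent.Y167.CC (LinGrp Preserves IsFundDomain)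

variable {V E : Type*} [NormedAddCommGroup V] [NormedSpace ℂ V] [FiniteDimensional ℂ V]
  [NormedAddCommGroup E] [NormedSpace ℂ E] [FiniteDimensional ℂ E] {Γ : AffGrp V}
  {j : E →ₗ[ℂ] V} {ι : Type*} [Fintype ι] {n : ℕ} {u : ι → Fin n → ℤ} {S : Set (Set ι)}
  {c : ι → LineBundle Γ} {Hc : ι → V → V → ℂ} {κ : Type*} [Fintype κ]

section top

variable {W : Type*} [AddCommGroup W] [Module ℝ W] [TopologicalSpace W] [IsTopologicalAddGroup W]
  [ContinuousSMul ℝ W]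

/-- A fundamental domain from a covering and separating linear forms. -/
theorem fund_of_domain {𝒢 : LinGrp W} {A : Set W} {B : Finset W}
    (h1 : ∀ x, x ∈ A ↔ ∃ g ∈ 𝒢, g x ∈ cone B)
    (h2 : ∀ g ∈ 𝒢, g ≠ 1 → ∃ φ : W →ₗ[ℝ] ℝ, φ ≠ 0 ∧ (∀ x ∈ cone B, 0 ≤ φ x) ∧
        ∀ x ∈ cone B, φ (g x) ≤ 0) : IsFundDomain 𝒢 A (cone B) := by
  refine ⟨Set.ext fun x => ?_, fun g hg hg1 => ?_⟩
  · rw [h1]
    simp only [Set.mem_iUnion, Set.mem_image, exists_prop]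
    constructor
    · rintro ⟨g, hg, hgx⟩
      exact ⟨g⁻¹, 𝒢.inv_mem hg, g x, hgx, g.symm_apply_apply x⟩
    · rintro ⟨g, hg, y, hy, rfl⟩
      refine ⟨g⁻¹, 𝒢.inv_mem hg, ?_⟩
      have : (g⁻¹ : W ≃ₗ[ℝ] W) (g y) = y := g.symm_apply_apply y
      rwa [this]
  · obtain ⟨φ, hφ0, hφ1, hφ2⟩ := h2 g hg hg1
    rw [← Set.disjoint_iff_inter_eq_empty, Set.disjoint_left]
    rintro x hx ⟨y, hy, rfl⟩
    have h1 := hφ2 y hy
    obtain ⟨w, hw⟩ : ∃ w, 0 < φ w := by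
      by_contra hcon
      push Not at hcon
      apply hφ0
      ext w
      have e1 := hcon w
      have e2 := hcon (-w)
      rw [map_neg] at e2
      change φ w = 0
      linarith
    have hcont : Continuous fun t : ℝ => g y - t • w := by fun_prop
    have hmem : ∀ᶠ t : ℝ in 𝓝 0, g y - t • w ∈ interior (cone B) := by
      apply hcont.continuousAt.eventually_mem
      rw [zero_smul, sub_zero]
      exact isOpen_interior.mem_nhds hx
    obtain ⟨ε, hε, hball⟩ := Metric.eventually_nhds_iff.1 hmem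
    have h2 := interior_subset (hball (y := ε / 2) (by
      rw [Real.dist_eq, sub_zero, abs_of_pos (by linarith)]
      linarith))
    have h3 := hφ1 _ h2
    rw [map_sub, map_smul, smul_eq_mul] at h3
    have h4 : 0 < ε / 2 * φ w := by positivity
    linarith

end top

/-- The rational hull as a convex hull. -/
theorem cp_hull {W : Type*} [AddCommGroup W] [Module ℝ W] {L : AddSubgroup W} {Nf : Set W}
    (add : ∀ x ∈ Nf, ∀ y ∈ Nf, x + y ∈ Nf) (smul : ∀ t : ℝ, 0 ≤ t → ∀ x ∈ Nf, t • x ∈ Nf)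
    (zero : (0 : W) ∈ Nf) :
    Cp L Nf = convexHull ℝ (Nf ∩ {x | ∃ n : ℕ, 0 < n ∧ (n : ℝ) • x ∈ L}) := by
  classical
  apply Set.Subset.antisymm
  · rintro x ⟨T, hT, c, hc, hxT⟩
    obtain ⟨N, hN⟩ := exists_nat_gt (∑ a ∈ T, c a)
    have h0 : 0 ≤ ∑ a ∈ T, c a := Finset.sum_nonneg fun a _ => hc a
    have hNr : (0 : ℝ) < N := lt_of_le_of_lt h0 hN
    set D := Nf ∩ {x | ∃ n : ℕ, 0 < n ∧ (n : ℝ) • x ∈ L} with hD
    have hconv := convex_convexHull ℝ D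
    have hzero : (0 : W) ∈ D := ⟨zero, 1, one_pos, by rw [smul_zero]; exact L.zero_mem⟩
    have hmem : ∀ a ∈ T, (N : ℝ) • a ∈ D := by
      intro a ha
      refine ⟨smul _ hNr.le _ (hT a ha).2, 1, one_pos, ?_⟩
      rw [Nat.cast_one, one_smul, Nat.cast_smul_eq_nsmul]
      exact L.nsmul_mem (hT a ha).1 N
    have h2 : x = (1 - (∑ a ∈ T, c a) / N) • (0 : W)
        + ∑ a ∈ T, (c a / N) • ((N : ℝ) • a) := by
      rw [smul_zero, zero_add, hxT]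
      refine Finset.sum_congr rfl fun a _ => ?_
      rw [smul_smul, div_mul_cancel₀ _ hNr.ne']
    have h3 : ∑ o : Option T, (Option.elim o (1 - (∑ a ∈ T, c a) / N) fun a => c a / N) •
        (Option.elim o (0 : W) fun a => (N : ℝ) • (a : W)) = x := by
      rw [Fintype.sum_option, h2]
      congr 1
      exact Finset.sum_coe_sort T (fun a => (c a / N) • ((N : ℝ) • a))
    rw [← h3]
    refine hconv.sum_mem (fun o _ => ?_) ?_ (fun o _ => ?_)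
    · cases o with
      | none =>
        change 0 ≤ 1 - (∑ a ∈ T, c a) / N
        have := (div_lt_one hNr).2 hN
        linarith
      | some a =>
        change 0 ≤ c a / N
        exact div_nonneg (hc _) hNr.le
    · rw [Fintype.sum_option]
      change 1 - (∑ a ∈ T, c a) / N + ∑ a : T, c a / N = 1
      rw [Finset.sum_coe_sort T (fun a => c a / (N : ℝ)), ← Finset.sum_div]
      ring
    · cases o with
      | none => exact subset_convexHull ℝ _ hzero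
      | some a => exact subset_convexHull ℝ _ (hmem a a.2)
  · apply convexHull_min
    · rintro x ⟨hx, n, hn, h⟩
      have hnr : (0 : ℝ) < n := by exact_mod_cast hn
      exact ⟨{(n : ℝ) • x}, fun a ha => by
        rw [Finset.mem_singleton] at ha
        rw [ha]
        exact ⟨h, smul _ hnr.le _ hx⟩,
        Pool.Agent.Y167.cone_of_scaled hnr (Finset.mem_singleton_self _)⟩
    · rintro x hx y hy s t hs ht -
      refine cp_cone (T := {x, y}) (fun a ha => ?_) ?_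
      · rcases Finset.mem_insert.1 ha with rfl | ha
        · exact hx
        · rw [Finset.mem_singleton] at ha
          rw [ha]
          exact hy
      · exact Pool.Agent.Y167.cone_add
          (cone_smul (mem_cone_self (Finset.mem_insert_self _ _)) hs)
          (cone_smul (mem_cone_self (Finset.mem_insert_of_mem (Finset.mem_singleton_self _))) ht)

/-- **The cone theorem.** -/
theorem mainT (hS : IsSmoothFan u S) (P : Pre Γ j) (hc : ∀ i, IsChernForm (c i) (Hc i))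
    (hproj : IsProjective u S Γ Hc) {Δ : EffDivY u c κ} (hnum : NumTrivialY Hc j Δ)
    (hklt : IsKltY S Δ) {𝒯 : Set (Set ι)} (h𝒯 : 𝒯.Nonempty)
    (hmax : ∀ τ ∈ 𝒯, ∃ σ, IsMax S σ ∧ τ ⊆ σ) (𝒢 : LinGrp (N1Y u Γ j))
    (h𝒢L : Preserves 𝒢 (integral u j Γ)) (h𝒢N : Preserves 𝒢 {x | ∀ τ ∈ 𝒯, IsSum u Hc j x τ})
    (h𝒢 : ∀ (f : V ≃ᵃ[ℂ] V) (φ : ι → V → ℂ), IsLift u c f φ → (∀ v, ∃ e, f v = v + j e) →
      Fixes Δ f φ → ∀ g : N1Y u Γ j ≃ₗ[ℝ] N1Y u Γ j, IsPullback Hc f g → g ∈ 𝒢) :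
    (∃ T : Finset (N1Y u Γ j), ↑T ⊆ integral u j Γ ∧
      cone T ⊆ {x | ∀ τ ∈ 𝒯, IsSum u Hc j x τ} ∩ effCone u c j ∧
      IsFundDomain 𝒢 ({x | ∀ τ ∈ 𝒯, IsSum u Hc j x τ} ∩ effCone u c j) (cone T)) ∧
    {x | ∀ τ ∈ 𝒯, IsSum u Hc j x τ} ∩ effCone u c j =
      convexHull ℝ ({x | ∀ τ ∈ 𝒯, IsSum u Hc j x τ} ∩
        {x | ∃ n : ℕ, 0 < n ∧ (n : ℝ) • x ∈ integral u j Γ}) ∧
    ∃ 𝓕 : Set (Set (N1Y u Γ j)), 𝓕.Finite ∧
      (∀ F ∈ 𝓕, IsFace F ({x | ∀ τ ∈ 𝒯, IsSum u Hc j x τ} ∩ effCone u c j)) ∧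
      ∀ F, IsFace F ({x | ∀ τ ∈ 𝒯, IsSum u Hc j x τ} ∩ effCone u c j) →
        ∃ g ∈ 𝒢, ∃ F' ∈ 𝓕, F = g '' F' := by
  classical
  obtain ⟨d, L, H, hL, hA⟩ := hproj
  have hfin : 𝒯.Finite := Set.toFinite _
  have hNf : NfT u Hc Γ j hfin.toFinset = {x | ∀ τ ∈ 𝒯, IsSum u Hc j x τ} := by
    ext x
    simp only [NfT, Set.mem_ofPred_eq, hfin.mem_toFinset]
  have h𝒯' : hfin.toFinset.Nonempty := by rwa [hfin.toFinset_nonempty]
  have hmax' : ∀ τ ∈ hfin.toFinset, ∃ σ, IsMax S σ ∧ τ ⊆ σ := fun τ hτ =>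
    hmax τ (hfin.mem_toFinset.1 hτ)
  obtain ⟨B, hB1, hB2, hB3⟩ := coreY hS P hc hL hA hnum hklt h𝒯' hmax' 𝒢 h𝒢L
    (by rw [hNf]; exact h𝒢N) h𝒢
  obtain ⟨σ₀, hσ₀, -⟩ := exists_max hS.empty_mem
  obtain ⟨-, H₀, -, -, R, -⟩ := amp_data hc hL P hA hσ₀
  have hK : KerAll u Hc Γ j := fun e he q w => (ker_all hS R hc hnum hklt he).2 q w
  have hCp := fun x => mem_Cp (c := c) hc hS h𝒯' hK R x
  rw [hNf] at hB1 hB2 hCp
  set Nf : Set (N1Y u Γ j) := {x | ∀ τ ∈ 𝒯, IsSum u Hc j x τ} with hNfdef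
  have hadd : ∀ x ∈ Nf, ∀ y ∈ Nf, x + y ∈ Nf := fun x hx y hy τ hτ =>
    IsSum.add hc (hx τ hτ) (hy τ hτ)
  have hsmul : ∀ t : ℝ, 0 ≤ t → ∀ x ∈ Nf, t • x ∈ Nf := fun t ht x hx τ hτ =>
    IsSum.smul hc (hx τ hτ) ht
  have hzero : (0 : N1Y u Γ j) ∈ Nf := fun τ _ => IsSum.zero
  have hCpe : Cp (intY u Γ j) Nf = Nf ∩ effCone u c j := Set.ext fun x => hCp x
  have hfd := fund_of_domain (𝒢 := 𝒢) (A := Nf ∩ effCone u c j) (B := B) hB2 hB3
  have hcone : cone B ⊆ Nf ∩ effCone u c j := by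
    intro x hx
    rw [← hCpe]
    exact ⟨B, hB1, hx⟩
  have hpres : ∀ g ∈ 𝒢, ∀ x ∈ Nf ∩ effCone u c j, g x ∈ Nf ∩ effCone u c j := by
    intro g hg x hx
    rw [← hCpe] at hx ⊢
    obtain ⟨T, hT, hxT⟩ := hx
    refine ⟨T.image (g : N1Y u Γ j →ₗ[ℝ] N1Y u Γ j), fun a ha => ?_,
      Pool.Agent.Y167.cone_image (g : N1Y u Γ j →ₗ[ℝ] N1Y u Γ j) hxT⟩
    obtain ⟨b, hb, rfl⟩ := Finset.mem_image.1 ha
    exact ⟨h𝒢L g hg b (hT b hb).1, h𝒢N g hg b (hT b hb).2⟩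
  refine ⟨⟨B, fun a ha => (hB1 a ha).1, hcone, hfd⟩, ?_, ?_⟩
  · rw [← hCpe]
    exact cp_hull hadd hsmul hzero
  · have := finDimY (u := u) R
    refine Pool.Agent.Y167.finite_faces (A := Nf ∩ effCone u c j)
      (fun x hx y hy => ⟨hadd x hx.1 y hy.1, eff_add hx.2 hy.2⟩)
      (fun x hx t ht => ⟨hsmul t ht x hx.1, eff_smul hx.2 ht⟩) 𝒢 hpres hcone fun x hx => ?_
    rw [hfd.1] at hx
    simp only [Set.mem_iUnion, Set.mem_image, exists_prop] at hx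
    exact hx

end Run7.h323.CC
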