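import Pool.Agent.Run7.h323.CC.YCone
import Pool.Agent.Run7.h323.CC.Lift
import Pool.Agent.Run7.h323.CC.Tp

/-!
# The action on the cones of divisors on toric bundles
-/

set_option autoImplicit false
set_option linter.unusedSectionVars false

namespace Run7.h323.CC

open Pool.Agent.W594.SYZ2 Pool.Agent.TH735.AQ Q47.TB Run7.h323.TQ
open Pool.Agent.Y167 (AffGrp IsClass N1 N1s Normalizes cone Rel opE lattE Integral intL mem_intL
  span_intL nef_add nef_smul CData exists_cdata exists_pull cone_image cone_add cone_smul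
  zero_mem_cone mem_cone_self cone_le cone_mono mem_cone_of_sum cone_sum cone_ind)

variable {V E : Type*} [NormedAddCommGroup V] [NormedSpace ℂ V] [FiniteDimensional ℂ V]
  [NormedAddCommGroup E] [NormedSpace ℂ E] [FiniteDimensional ℂ E] {Γ : AffGrp V}
  {j : E →ₗ[ℂ] V} {H₀ : V → V → ℂ} {p : Module.End ℂ E}
  {ι : Type*} [Fintype ι] {n : ℕ} {u : ι → Fin n → ℤ} {S : Set (Set ι)} {c : ι → LineBundle Γ}
  {Hc : ι → V → V → ℂ}

/-- The Chern forms of the twists vanish in the directions parallel to the mirrors. -/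
def KerAll (u : ι → Fin n → ℤ) (Hc : ι → V → V → ℂ) (Γ : AffGrp V) (j : E →ₗ[ℂ] V) : Prop :=
  ∀ e, RF Γ j e → ∀ (q : Fin n → ℝ) (w : V), Cf u Hc q (j e) w = 0

section act

variable (R : Rel Γ j H₀) (hp : IsProj Γ j p) (hc : ∀ i, IsChernForm (c i) (Hc i))
  (hK : KerAll u Hc Γ j)

/-- The class of `∏ c_i ^ ⟨q, u_i⟩`. -/
noncomputable def cfN (u : ι → Fin n → ℤ) (j : E →ₗ[ℂ] V) (hc : ∀ i, IsChernForm (c i) (Hc i))
    (q : Fin n → ℝ) : N1 Γ j := ∑ i, (∑ k, q k * u i k) • hN j hc i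

theorem cfN_apply (q : Fin n → ℝ) (a b : E) :
    (cfN u j hc q).1 a b = Cf u Hc q (j a) (j b) := by
  unfold cfN Cf
  have h1 : (∑ i, (∑ k, q k * u i k) • hN j hc i : N1 Γ j).1 =
      ∑ i, (∑ k, q k * u i k) • (hN j hc i).1 := by
    rw [Submodule.coe_sum]
    rfl
  rw [h1]
  simp only [Finset.sum_apply, Pi.smul_apply, Complex.real_smul]
  rfl

include hK in
theorem Tp_cfN (q : Fin n → ℝ) : Tp R hp (cfN u j hc q) = 0 := by
  apply Subtype.ext
  funext a b
  rw [Tp_apply, cfN_apply]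
  exact hK (p a) (fun x hx hr => hp.fix x hx hr a) q _

theorem sb_sub {x : N1Y u Γ j} {d d' : ι → ℝ} {q : Fin n → ℝ}
    (hq : ∀ i, d i - d' i = ∑ k, q k * u i k) : sb hc x d' - sb hc x d = cfN u j hc q := by
  unfold sb cfN
  have h1 : ∑ i, (∑ k, q k * (u i k : ℝ)) • hN j hc i =
      ∑ i, (d i • hN j hc i - d' i • hN j hc i) :=
    Finset.sum_congr rfl fun i _ => by
      rw [← hq]
      exact sub_smul (d i) (d' i) (hN j hc i)
  rw [h1, Finset.sum_sub_distrib]
  abel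

include hK in
theorem T_sb {x : N1Y u Γ j} {d d' : ι → ℝ} (h : cl u d = cl u d') :
    Tp R hp (sb hc x d) = Tp R hp (sb hc x d') := by
  obtain ⟨q, hq⟩ := cl_eq_cl.1 h
  have h1 := congrArg (Tp R hp) (sb_sub hc (x := x) hq)
  rw [Tp_cfN R hp hc hK, map_sub, sub_eq_zero] at h1
  exact h1.symm

variable {σ₀ : Set ι} {b₀ : Fin n → ι → ℤ} (hb : IsDual u σ₀ b₀)

/-- The restriction to the section of `Y → X` given by `σ₀`. -/
noncomputable def res : N1Y u Γ j →ₗ[ℝ] N1 Γ j where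
  toFun x := sb hc x (betaQ hb x.1)
  map_add' x y := by rw [Prod.fst_add, map_add, sb_add]
  map_smul' t x := by rw [Prod.smul_fst, map_smul, sb_smul, RingHom.id_apply]

theorem res_apply (x : N1Y u Γ j) : res hc hb x = sb hc x (betaQ hb x.1) := rfl

/-- The part of a class given by the directions parallel to the mirrors. -/
noncomputable def tt : N1Y u Γ j →ₗ[ℝ] N1 Γ j := Tp R hp ∘ₗ res hc hb

include hK in
theorem tt_eq {x : N1Y u Γ j} {d : ι → ℝ} (hd : x.1 = cl u d) :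
    tt R hp hc hb x = Tp R hp (sb hc x d) := by
  change Tp R hp (sb hc x (betaQ hb x.1)) = _
  exact T_sb R hp hc hK (by rw [cl_betaQ, hd])

/-- The extension of an automorphism of `N^1(X/Z)` to `N^1(Y/Z)`. -/
noncomputable def ext (g : N1 Γ j ≃ₗ[ℝ] N1 Γ j) : N1Y u Γ j ≃ₗ[ℝ] N1Y u Γ j where
  toFun x := (x.1, g x.2 + ∑ i, betaQ hb x.1 i • (hN j hc i - g (hN j hc i)))
  map_add' x y := by
    apply Prod.ext
    · rfl
    · change g (x.2 + y.2) + ∑ i, betaQ hb (x.1 + y.1) i • (hN j hc i - g (hN j hc i)) = _ + _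
      simp only [map_add, Pi.add_apply, add_smul, Finset.sum_add_distrib]
      abel
  map_smul' t x := by
    apply Prod.ext
    · rfl
    · change g (t • x.2) + ∑ i, betaQ hb (t • x.1) i • (hN j hc i - g (hN j hc i)) = t • _
      simp only [map_smul, Pi.smul_apply, smul_eq_mul, smul_add, Finset.smul_sum, smul_smul]
  invFun x := (x.1, g.symm x.2 + ∑ i, betaQ hb x.1 i • (hN j hc i - g.symm (hN j hc i)))
  left_inv x := by
    apply Prod.ext
    · rfl
    · change g.symm (g x.2 + ∑ i, betaQ hb x.1 i • (hN j hc i - g (hN j hc i))) +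
        ∑ i, betaQ hb x.1 i • (hN j hc i - g.symm (hN j hc i)) = x.2
      rw [map_add, g.symm_apply_apply, map_sum, add_assoc, ← Finset.sum_add_distrib]
      have h1 : ∀ i ∈ Finset.univ, g.symm (betaQ hb x.1 i • (hN j hc i - g (hN j hc i))) +
          betaQ hb x.1 i • (hN j hc i - g.symm (hN j hc i)) = 0 := by
        intro i _
        rw [map_smul, map_sub, g.symm_apply_apply, ← smul_add]
        have : g.symm (hN j hc i) - hN j hc i + (hN j hc i - g.symm (hN j hc i)) = 0 := by abel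
        rw [this, smul_zero]
      rw [Finset.sum_eq_zero h1, add_zero]
  right_inv x := by
    apply Prod.ext
    · rfl
    · change g (g.symm x.2 + ∑ i, betaQ hb x.1 i • (hN j hc i - g.symm (hN j hc i))) +
        ∑ i, betaQ hb x.1 i • (hN j hc i - g (hN j hc i)) = x.2
      rw [map_add, g.apply_symm_apply, map_sum, add_assoc, ← Finset.sum_add_distrib]
      have h1 : ∀ i ∈ Finset.univ, g (betaQ hb x.1 i • (hN j hc i - g.symm (hN j hc i))) +
          betaQ hb x.1 i • (hN j hc i - g (hN j hc i)) = 0 := by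
        intro i _
        rw [map_smul, map_sub, g.apply_symm_apply, ← smul_add]
        have : g (hN j hc i) - hN j hc i + (hN j hc i - g (hN j hc i)) = 0 := by abel
        rw [this, smul_zero]
      rw [Finset.sum_eq_zero h1, add_zero]

theorem ext_fst (g : N1 Γ j ≃ₗ[ℝ] N1 Γ j) (x : N1Y u Γ j) : (ext hc hb g x).1 = x.1 := rfl

theorem ext_snd (g : N1 Γ j ≃ₗ[ℝ] N1 Γ j) (x : N1Y u Γ j) : (ext hc hb g x).2 =
    g x.2 + ∑ i, betaQ hb x.1 i • (hN j hc i - g (hN j hc i)) := rfl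

theorem ext_sb {g : N1 Γ j ≃ₗ[ℝ] N1 Γ j} (hg : ∀ q, g (cfN u j hc q) = cfN u j hc q)
    {x : N1Y u Γ j} {d : ι → ℝ} (hd : x.1 = cl u d) :
    sb hc (ext hc hb g x) d = g (sb hc x d) := by
  obtain ⟨q, hq⟩ := cl_eq_cl.1 ((cl_betaQ hb x.1).trans hd)
  have h2 : cfN u j hc q = ∑ i, (betaQ hb x.1 i • hN j hc i - d i • hN j hc i) :=
    Finset.sum_congr rfl fun i _ => by
      rw [← hq]
      exact sub_smul (betaQ hb x.1 i) (d i) (hN j hc i)
  have h1 : sb hc (ext hc hb g x) d - g (sb hc x d) = cfN u j hc q - g (cfN u j hc q) := by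
    rw [h2]
    unfold sb
    rw [ext_snd]
    simp only [map_sub, map_sum, map_smul, Finset.sum_sub_distrib, smul_sub]
    abel
  rw [hg, sub_self, sub_eq_zero] at h1
  exact h1

include R hp hK in
theorem good_cfN {N : ℕ} {w : E ≃ₗ[ℂ] E} {f : V ≃ᵃ[ℂ] V} (hf : GoodPair Γ j N w f)
    {g : N1 Γ j ≃ₗ[ℝ] N1 Γ j} (hg : ∀ x v v', (g x).1 v v' = x.1 (w v) (w v')) (q : Fin n → ℝ) :
    g (cfN u j hc q) = cfN u j hc q := by
  have h1 := Tp_fix R hp hf hg (cfN u j hc q)
  rwa [Tp_cfN R hp hc hK, sub_zero] at h1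

include hK in
theorem ext_eq {N : ℕ} {w : E ≃ₗ[ℂ] E} {f : V ≃ᵃ[ℂ] V} (hf : GoodPair Γ j N w f)
    {g : N1 Γ j ≃ₗ[ℝ] N1 Γ j} (hg : ∀ x v v', (g x).1 v v' = x.1 (w v) (w v')) (x : N1Y u Γ j) :
    ext hc hb g x = (x - (0, tt R hp hc hb x)) + (0, g (tt R hp hc hb x)) := by
  classical
  have hd : x.1 = cl u (betaQ hb x.1) := (cl_betaQ hb x.1).symm
  have h1 := decomp hc (x := ext hc hb g x) (β := betaQ hb x.1) hd
  have h2 := decomp hc (x := x) hd
  rw [ext_sb hc hb (good_cfN R hp hc hK hf hg) hd] at h1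
  have h3 : g (sb hc x (betaQ hb x.1)) =
      sb hc x (betaQ hb x.1) - tt R hp hc hb x + g (tt R hp hc hb x) := by
    rw [tt_eq R hp hc hK hb hd]
    have h4 := Tp_fix R hp hf hg (sb hc x (betaQ hb x.1))
    rw [map_sub] at h4
    rw [← h4]
    abel
  rw [h3] at h1
  have e1 : ∀ a b : N1 Γ j, ((0, a + b) : N1Y u Γ j) = (0, a) + (0, b) := fun a b => by
    apply Prod.ext
    · simp
    · rfl
  have e2 : ∀ a b : N1 Γ j, ((0, a - b) : N1Y u Γ j) = (0, a) - (0, b) := fun a b => by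
    apply Prod.ext
    · simp
    · rfl
  calc ext hc hb g x = ∑ i, betaQ hb x.1 i • Dv u j hc i + (0, sb hc x (betaQ hb x.1)) -
        (0, tt R hp hc hb x) + (0, g (tt R hp hc hb x)) := by
        rw [h1, e1, e2]
        abel
    _ = _ := by rw [← h2]

end act

end Run7.h323.CC
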